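import Pool.Agent.H327R4.NJ.Stubs
import Pool.Agent.H735TW.TDIV

/-!
# DIVJ: divisibility, for ideals
-/

set_option autoImplicit false
set_option linter.unusedSectionVars false

namespace Pool.Agent.H327R4.NJ

open Filter Topology Pool.Agent.H327R4.Pure
open Pool.Agent.H327R4.NU (TrSet St re InHer)

universe u

namespace DIVJx

open Pool.Agent.H735TW.DIVx (sg sg_apply sg_inj sg_tr sg_mul_sg sqrt_left sqrt_right core gf ztr
  rk_cut_le)

theorem sum_mem {A : Type u} [CStarAlgebra A] {J : Set A} (hJ : IsId J) {ι : Type*}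
    (s : Finset ι) (f : ι → A) (hf : ∀ i ∈ s, f i ∈ J) : ∑ i ∈ s, f i ∈ J := by
  classical
  induction s using Finset.induction_on with
  | empty => simpa using hJ.1
  | insert a t ha ih =>
    rw [Finset.sum_insert ha]
    exact hJ.2.1 _ (hf a (Finset.mem_insert_self _ _)) _
      (ih (fun i hi => hf i (Finset.mem_insert_of_mem hi)))

/-- Dini on a closed set of tracial states -/
theorem dini (A : Type u) [CStarAlgebra A] [PartialOrder A] [StarOrderedRing A]
    (F₀ : Set (TS A)) (hF₀ : IsClosed F₀) (K : ℕ) (a : MM K A) (h : A) (ha : 0 ≤ a)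
    (hlt : ∀ T ∈ F₀, (T.1.f h).re < rk (trM T.1 (Fin K)) a) :
    ∃ ε : ℝ, 0 < ε ∧ ∀ T ∈ F₀, (T.1.f h).re < rk (trM T.1 (Fin K)) (cut ε a) := by
  have hloc : ∀ T₀ : TS A, ∃ (e : ℝ) (U : Set (TS A)), 0 < e ∧ U ∈ 𝓝 T₀ ∧
      ∀ T ∈ U, T ∈ F₀ → (T.1.f h).re < rk (trM T.1 (Fin K)) (cut e a) := by
    intro T₀
    by_cases hT₀F : T₀ ∈ F₀
    swap
    · exact ⟨1, F₀ᶜ, one_pos, hF₀.isOpen_compl.mem_nhds hT₀F, fun T hT hT' => absurd hT' hT⟩
    set F := (trM T₀.1 (Fin K)).f with hF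
    obtain ⟨d, hd, hd2⟩ := (rk' (MM K A) (trM T₀.1 (Fin K)) a ha).2.1
      (rk (trM T₀.1 (Fin K)) a - (T₀.1.f h).re) (by have := hlt T₀ hT₀F; linarith)
    have hd3 : (T₀.1.f h).re < (F (phi d a)).re := by rw [hF]; linarith
    set g := (F (phi d a)).re - (T₀.1.f h).re with hg
    have hg0 : 0 < g := by linarith
    set e := d * g / (2 * (‖F‖ + 1)) with he
    have he0 : 0 < e := by positivity
    have hce : 0 ≤ cut e a := (ct' (MM K A) a ha).1 e
    have h1 : ‖F (phi d (cut e a)) - F (phi d a)‖ ≤ g / 2 := by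
      rw [← map_sub]
      calc ‖F (phi d (cut e a) - phi d a)‖ ≤ ‖F‖ * ‖phi d (cut e a) - phi d a‖ :=
            F.le_opNorm _
        _ ≤ (‖F‖ + 1) * (e / d) := by
            apply mul_le_mul _ (TDINI.phi_cut_near a e d ha he0 hd) (norm_nonneg _)
              (by positivity)
            linarith
        _ = g / 2 := by
            rw [he]
            field_simp
    have h2 : (T₀.1.f h).re < (F (phi d (cut e a))).re := by
      have h3 := Complex.abs_re_le_norm (F (phi d (cut e a)) - F (phi d a))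
      rw [Complex.sub_re] at h3
      have h4 := (abs_le.1 (h3.trans h1)).1
      linarith
    refine ⟨e, {T : TS A | (T.1.f h).re < ((trM T.1 (Fin K)).f (phi d (cut e a))).re}, he0, ?_, ?_⟩
    · refine IsOpen.mem_nhds ?_ (show T₀ ∈ {T : TS A | (T.1.f h).re <
        ((trM T.1 (Fin K)).f (phi d (cut e a))).re} from h2)
      apply isOpen_lt
      · exact Complex.continuous_re.comp (TDINI.cont_ev h)
      · have e1 : (fun T : TS A => ((trM T.1 (Fin K)).f (phi d (cut e a))).re) =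
            fun T : TS A => (∑ i, T.1.f ((phi d (cut e a)) i i)).re := by
          funext T
          rw [trM_apply]
        rw [e1]
        exact Complex.continuous_re.comp (continuous_finsetSum _ fun i _ => TDINI.cont_ev _)
    · intro T hT _
      have hT' : (T.1.f h).re < ((trM T.1 (Fin K)).f (phi d (cut e a))).re := hT
      exact hT'.trans_le ((rk' (MM K A) (trM T.1 (Fin K)) (cut e a) hce).1 d hd)
  choose e U he hU hU2 using hloc
  have := cpt_holds A
  obtain ⟨t, ht⟩ := CompactSpace.elim_nhds_subcover U hU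
  obtain ⟨ε, hε, hε2⟩ := TDINI.exists_min t e he
  refine ⟨ε, hε, fun T hTF => ?_⟩
  have hT : T ∈ ⋃ x ∈ t, U x := by
    rw [ht]
    trivial
  simp only [Set.mem_iUnion] at hT
  obtain ⟨T₀, hT₀, hTU⟩ := hT
  refine (hU2 T₀ T hTU hTF).trans_le ?_
  have hc := ct' (MM K A) a ha
  apply mon' (MM K A) (trM T.1 (Fin K)) _ _ 1 (hc.1 _) (hc.1 _) one_pos
  refine (hc.2.2.1 ε (e T₀) hε.le (hε2 T₀ hT₀)).trans (le_of_eq ?_)
  exact (one_smul ℝ (cut ε a)).symm

section corner

variable {A : Type u} [CStarAlgebra A] [PartialOrder A] [StarOrderedRing A] [TrSet A]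

/-- divisibility of `k` for given thresholds -/
theorem rows (J : Set A) (hD : Dt A J) (k : A) (hkJ : k ∈ J) (hk : 0 ≤ k) (hk0 : k ≠ 0) (K : ℕ)
    (a : MM K A) (haJ : ∀ p q, a p q ∈ J) (ha : 0 ≤ a)
    (ε δ : ℝ) (hε : 0 < ε) (hδ : 0 < δ)
    (hT : ∀ T : Tr A, St T → 2 * rk (trM T (Fin K)) a < rk T k) :
    ∃ x : A, x * x = 0 ∧ InHer k x ∧ star x * x + x * star x ≤ 1 ∧ ∀ T : Tr A, St T →
      re T (star x * x + x * star x) ≤ 2 * rk (trM T (Fin K)) a ∧
      2 * rk (trM T (Fin K)) (cut (ε + 3 * δ) a) ≤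
        re T ((star x * x + x * star x) * (star x * x + x * star x)) := by
  have hJ : IsId J := hD.d0.id
  obtain ⟨N, hN⟩ : ∃ N, N = (2 + 1) * K + 1 := ⟨_, rfl⟩
  subst hN
  let e : Fin (2 + 1) → Fin K → Fin ((2 + 1) * K + 1) :=
    fun j i => Fin.castSucc (finProdFinEquiv (j, i))
  have hinj : ∀ j j' i i', e j i = e j' i' → j = j' ∧ i = i' := by
    intro j j' i i' h
    have h1 := Fin.castSucc_injective _ h
    have h2 := finProdFinEquiv.injective h1
    exact Prod.mk.inj h2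
  have he : ∀ j, Function.Injective (e j) := fun j i i' h => (hinj _ _ _ _ h).2
  have hdis : ∀ j j', j ≠ j' → ∀ i i', e j i ≠ e j' i' :=
    fun j j' hj i i' h => hj (hinj _ _ _ _ h).1
  let L : Fin (2 + 1) := Fin.last 2
  let f : Fin 2 → Fin K → Fin ((2 + 1) * K + 1) := fun j => e (Fin.castSucc j)
  have hf : ∀ j, Function.Injective (f j) := fun j => he _
  have hfd : ∀ j j', j ≠ j' → ∀ i i', f j i ≠ f j' i' :=
    fun j j' hj => hdis _ _ (fun h => hj (Fin.castSucc_injective _ h))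
  let i₀ : Fin ((2 + 1) * K + 1) := Fin.last _
  obtain ⟨ha', hrk'⟩ := ksum' A 2 K _ f hf hfd a ha
  set a' : MM ((2 + 1) * K + 1) A := ∑ j, emb (f j) (hf j) a with ha'def
  have hsgk := hom' _ _ (sg (A := A) i₀) k hk
  have hembJ : ∀ j p q, (emb (f j) (hf j) a) p q ∈ J := by
    intro j p q
    rw [emb_apply]
    unfold embf
    rw [CStarMatrix.ofMatrix_apply]
    refine sum_mem hJ _ _ (fun i _ => sum_mem hJ _ _ (fun i' _ => ?_))
    split_ifs
    · exact haJ _ _
    · exact hJ.1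
  have ha'J : ∀ p q, a' p q ∈ J := by
    intro p q
    rw [ha'def, Fin.sum_univ_two, CStarMatrix.add_apply]
    exact hJ.2.1 _ (hembJ 0 p q) _ (hembJ 1 p q)
  have hsgJ : ∀ p q, (sg i₀ k) p q ∈ J := by
    intro p q
    rw [sg_apply]
    split_ifs
    · exact hkJ
    · exact hJ.1
  have hcz : Cz a' (sg i₀ k) := by
    apply hD.sc _ a' (sg i₀ k) ha'J hsgJ ha' hsgk.1
      (fun h => hk0 (sg_inj i₀ (h.trans (map_zero (sg i₀)).symm)))
    intro T hT1
    refine ⟨_, _, (rk' _ (trM T _) a' ha').2.2.1, (rk' _ (trM T _) _ hsgk.1).2.2.1, ?_⟩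
    rw [hrk', hsgk.2.2.2 T (trM T _) (fun x => sg_tr i₀ T x)]
    simpa using hT T hT1
  obtain ⟨δ₀, x, hδ₀, hx⟩ := exa_holds _ a' (sg i₀ k) ε ha' hsgk.1 hcz hε
  have hkc0 : 0 ≤ cut δ₀ k := (ct' _ k hk).1 δ₀
  set s : A := CFC.sqrt (cut δ₀ k) with hsdef
  have hss : s * s = cut δ₀ k := CFC.sqrt_mul_sqrt_self _ hkc0
  have hsstar : star s = s := (IsSelfAdjoint.of_nonneg (CFC.sqrt_nonneg _)).star_eq
  set X : MM ((2 + 1) * K + 1) A := sg i₀ s * star x with hXdef
  have hXX : star X * X = cut ε a' := by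
    rw [hx, hXdef, star_mul, star_star, ← map_star, hsstar, ← hsgk.2.1 δ₀ hδ₀.le, ← hss, map_mul]
    simp only [mul_assoc]
  let c : MM K A := cut ε a
  have hc0 : 0 ≤ c := (ct' _ a ha).1 ε
  have hcuta : cut ε a' = ∑ j, rowG (f j) (f j) c := by
    have h1 := csm' _ 2 (fun j => emb (f j) (hf j) a) ε
      (fun j => (hom' _ _ (emb (f j) (hf j)) a ha).1)
      (fun i j hij => emb_mul_emb _ _ _ _ (hfd i j hij) a a) hε.le
    rw [ha'def, h1]
    refine Finset.sum_congr rfl fun j _ => ?_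
    rw [← (hom' _ _ (emb (f j) (hf j)) a ha).2.1 ε hε.le]
    rfl
  let b : MM ((2 + 1) * K + 1) A := emb (e L) (he L) c
  have hb0 : 0 ≤ b := (hom' _ _ (emb (e L) (he L)) c hc0).1
  let R : Fin 2 → MM ((2 + 1) * K + 1) A := fun j => rowG (f j) (e L) 1
  let r : Fin 2 → MM ((2 + 1) * K + 1) A := fun j => X * R j
  have hr : ∀ i j, star (r i) * r j = if i = j then b else 0 := by
    intro i j
    have h1 : star (X * rowG (f i) (e L) 1) * (X * rowG (f j) (e L) 1) =
        rowG (e L) (f i) 1 * cut ε a' * rowG (f j) (e L) 1 := by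
      rw [star_mul, rowG_star, star_one, ← hXX]
      simp only [mul_assoc]
    change star (X * rowG (f i) (e L) 1) * (X * rowG (f j) (e L) 1) = _
    rw [h1, hcuta, Finset.mul_sum]
    have h2 : ∀ l, rowG (e L) (f i) (1 : MM K A) * rowG (f l) (f l) c =
        if l = i then rowG (e L) (f i) c else 0 := by
      intro l
      split_ifs with h
      · rw [h, rowG_mul (he L) (hf i) (hf i), one_mul]
      · exact rowG_mul_zero (hfd i l (Ne.symm h)) _ _
    simp_rw [h2]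
    rw [Finset.sum_ite_eq' Finset.univ i, if_pos (Finset.mem_univ i)]
    split_ifs with h
    · subst h
      rw [rowG_mul (he L) (hf i) (he L), mul_one]
      rfl
    · exact rowG_mul_zero (hfd i j h) _ _
  have h00 : star (r 0) * r 0 = b := by simpa using hr 0 0
  have h11 : star (r 1) * r 1 = b := by simpa using hr 1 1
  have h01 : star (r 0) * r 1 = 0 := by simpa using hr 0 1
  have h10 : star (r 1) * r 0 = 0 := by simpa using hr 1 0
  -- the element of the corner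
  set gb : MM ((2 + 1) * K + 1) A := gf δ b with hgb
  set Q : MM ((2 + 1) * K + 1) A := star x * R 0 * gb * star (R 1) * x with hQ
  let y : A := s * Q i₀ i₀ * s
  have hzy : r 0 * gb * star (r 1) = sg i₀ y := by
    change X * R 0 * gb * star (X * R 1) = sg i₀ (s * Q i₀ i₀ * s)
    rw [← sg_mul_sg, hQ, star_mul, hXdef, star_mul, star_star, ← map_star, hsstar]
    simp only [mul_assoc]
  have hpy : ∀ w : A, ∀ z : MM ((2 + 1) * K + 1) A, z = sg i₀ w →
      star z * z + z * star z = sg i₀ (star w * w + w * star w) := by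
    intro w z hz
    rw [hz, map_add, map_mul, map_mul, map_star]
  have hrkb : ∀ (T : Tr A) (δ' : ℝ), 0 ≤ δ' →
      rk (trM T (Fin ((2 + 1) * K + 1))) (cut δ' b) = rk (trM T (Fin K)) (cut (ε + δ') a) := by
    intro T δ' hδ'
    have h1 := hom' _ _ (emb (e L) (he L)) c hc0
    have h2 : cut δ' (emb (e L) (he L) c) = emb (e L) (he L) (cut δ' c) := (h1.2.1 δ' hδ').symm
    have hc1 : 0 ≤ cut δ' c := (ct' _ c hc0).1 δ'
    have h3 := (hom' _ _ (emb (e L) (he L)) (cut δ' c) hc1).2.2.2 (trM T (Fin K))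
      (trM T (Fin ((2 + 1) * K + 1))) (fun y => trM_emb T (e L) (he L) y)
    change rk _ (cut δ' (emb (e L) (he L) c)) = _
    rw [h2, h3]
    have h4 : cut δ' c = cut (δ' + ε) a := (ct' _ a ha).2.2.2.1 δ' ε hδ' hε.le
    rw [h4, add_comm]
  refine ⟨y, ?_, ⟨?_, ?_⟩, ?_, ?_⟩
  · -- y * y = 0
    obtain ⟨z, hz, hzz, -⟩ := core ztr (r 0) (r 1) b hb0
      h00 h11 h01 h10 δ hδ
    rw [hz, hzy, ← map_mul] at hzz
    exact sg_inj i₀ (hzz.trans (map_zero (sg i₀)).symm)
  · intro c' hc'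
    have h1 : s * c' = 0 := by
      apply sqrt_left hsstar
      rw [hss]
      exact ((ct' _ k hk).2.2.2.2.2.2.2.2 δ₀ hδ₀.le c').1 hc'
    change s * Q i₀ i₀ * s * c' = 0
    rw [mul_assoc, h1, mul_zero]
  · intro c' hc'
    have h1 : c' * s = 0 := by
      apply sqrt_right hsstar
      rw [hss]
      exact ((ct' _ k hk).2.2.2.2.2.2.2.2 δ₀ hδ₀.le c').2 hc'
    change c' * (s * Q i₀ i₀ * s) = 0
    rw [← mul_assoc, ← mul_assoc, h1, zero_mul, zero_mul]
  · obtain ⟨z, hz, -, hn, -⟩ := core ztr (r 0) (r 1) b hb0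
      h00 h11 h01 h10 δ hδ
    rw [hz, hpy y _ hzy] at hn
    have h1 : ‖sg i₀ (star y * y + y * star y)‖ = ‖star y * y + y * star y‖ :=
      NonUnitalStarAlgHom.norm_map (sg i₀) (sg_inj i₀) _
    rw [h1] at hn
    have h2 : 0 ≤ star y * y + y * star y :=
      add_nonneg (star_mul_self_nonneg y) (mul_star_self_nonneg y)
    exact (CStarAlgebra.norm_le_one_iff_of_nonneg _ h2).1 hn
  · intro T _
    obtain ⟨z, hz, -, -, h1, h2⟩ := core (trM T (Fin ((2 + 1) * K + 1))) (r 0) (r 1) b hb0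
      h00 h11 h01 h10 δ hδ
    rw [hz, hpy y _ hzy, sg_tr] at h1
    rw [hz, hpy y _ hzy, ← map_mul, sg_tr, hrkb T (3 * δ) (by positivity)] at h2
    refine ⟨?_, h2⟩
    have h3 : rk (trM T (Fin ((2 + 1) * K + 1))) b ≤ rk (trM T (Fin K)) a := by
      have h4 := hrkb T 0 le_rfl
      rw [(ct' _ b hb0).2.2.2.2.1, add_zero] at h4
      rw [h4]
      exact rk_cut_le _ a ha ε hε.le
    unfold re
    linarith

/-- divisibility under an element of `J` -/
theorem divk (hM1 : StM1J.{u}) (hLOW : StLOWJ.{u}) (J : Set A) (hD : Dt A J)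
    (hcl : IsClosed {T : TS A | TrSet.P T.1}) (k : A) (hkJ : k ∈ J) (hk0 : k ≠ 0) (ε : ℝ)
    (hk : 0 ≤ k) (hk1 : k ≤ 1) (hε : 0 < ε) :
    ∃ x : A, x * x = 0 ∧ InHer k x ∧ star x * x + x * star x ≤ 1 ∧
      ∀ T : Tr A, St T → |re T (star x * x + x * star x) - re T k| ≤ ε ∧
        re T (star x * x + x * star x) -
          re T ((star x * x + x * star x) * (star x * x + x * star x)) ≤ ε := by
  obtain ⟨η, hη, hlow⟩ := hLOW A J hD k hkJ hk hk0
  obtain ⟨e, hee⟩ : ∃ e : ℝ, e = min ε 1 / 2 := ⟨_, rfl⟩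
  have he0 : 0 < e := by rw [hee]; exact half_pos (lt_min hε one_pos)
  have he1 : e ≤ 1 / 2 := by rw [hee]; linarith [min_le_right ε 1]
  have he2 : e ≤ ε / 2 := by rw [hee]; linarith [min_le_left ε 1]
  obtain ⟨ε2, hε2def⟩ : ∃ e₂ : ℝ, e₂ = min (ε / 8) (e * η / 4) := ⟨_, rfl⟩
  have hε20 : 0 < ε2 := by
    rw [hε2def]
    exact lt_min (by positivity) (by positivity)
  have hε21 : ε2 ≤ ε / 8 := by rw [hε2def]; exact min_le_left _ _
  have hε22 : ε2 ≤ e * η / 4 := by rw [hε2def]; exact min_le_right _ _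
  obtain ⟨h, hhdef⟩ : ∃ h : A, h = ((1 - e) / 2 : ℝ) • k := ⟨_, rfl⟩
  have hh : 0 ≤ h := by
    rw [hhdef]
    exact smul_nonneg (by linarith) hk
  have hfr : ∀ (T : Tr A) (c : ℝ) (x : A), (T.f (c • x)).re = c * (T.f x).re := by
    intro T c x
    rw [← Complex.coe_smul, map_smul, smul_eq_mul, Complex.re_ofReal_mul]
  have hreh : ∀ T : Tr A, (T.f h).re = (1 - e) / 2 * (T.f k).re := by
    intro T
    rw [hhdef, hfr]
  obtain ⟨K, a', ha', hrk0⟩ := hM1 A J hD h ε2 hh hε20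
  obtain ⟨ha, hdg⟩ := diag' A K a' (fun j => (ha' j).1)
  have haJ0 : ∀ p q, (dg a') p q ∈ J := by
    intro p q
    unfold dg
    rw [CStarMatrix.ofMatrix_apply, Matrix.diagonal_apply]
    split_ifs
    · exact (ha' p).2
    · exact hD.d0.id.1
  obtain ⟨a, haa⟩ : ∃ a : MM K A, a = dg a' := ⟨_, rfl⟩
  rw [← haa] at ha haJ0
  have hrk : ∀ T : Tr A, St T → (T.f h).re - ε2 ≤ rk (trM T (Fin K)) a ∧
      rk (trM T (Fin K)) a ≤ (T.f h).re + ε2 := by
    intro T hT
    rw [haa, hdg T]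
    exact hrk0 T hT
  have hkn : ‖k‖ ≤ 1 := (CStarAlgebra.norm_le_one_iff_of_nonneg k hk).2 hk1
  have hrkk : ∀ T : Tr A, (T.f k).re ≤ rk T k := by
    intro T
    have h1 := (rk' A T k hk).1 1 one_pos
    have h2 : phi 1 k = k := by
      unfold phi
      conv_rhs => rw [← cfcₙ_id' ℝ k]
      refine cfcₙ_congr (fun t ht => ?_)
      have h3 : ‖t‖ ≤ ‖k‖ :=
        NonUnitalIsometricContinuousFunctionalCalculus.norm_quasispectrum_le k ht
          (IsSelfAdjoint.of_nonneg hk)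
      have h4 : t ≤ 1 := (le_abs_self t).trans (h3.trans hkn)
      change min 1 (t / 1) = t
      rw [div_one, min_eq_right h4]
    rwa [h2] at h1
  have hk0T : ∀ T : Tr A, St T → η ≤ (T.f k).re := fun T hT => hlow T hT
  have hk1T : ∀ T : Tr A, St T → (T.f k).re ≤ 1 := by
    intro T hT
    have h1 := (mt' A T).1 _ _ hk1
    rw [hT.1] at h1
    simpa using h1
  have hT2 : ∀ T : Tr A, St T → 2 * rk (trM T (Fin K)) a < rk T k := by
    intro T hT
    have h1 := (hrk T hT).2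
    rw [hreh] at h1
    have h2 := hrkk T
    have h3 := hk0T T hT
    have h4 : e * η ≤ e * (T.f k).re := mul_le_mul_of_nonneg_left h3 he0.le
    have h5 : 0 < e * η := by positivity
    nlinarith
  -- Dini
  obtain ⟨ε₀, hε₀, hd⟩ := dini A _ hcl K a (h - ((ε / 4 : ℝ) : ℂ) • (1 : A)) ha (by
    intro T hTF
    have h1 := (hrk T.1 ⟨T.2, hTF⟩).1
    rw [map_sub, map_smul, T.2, Complex.sub_re]
    simp
    linarith)
  obtain ⟨x, hx, hxk, hx1, hxT⟩ := rows J hD k hkJ hk hk0 K a haJ0 ha (ε₀ / 4) (ε₀ / 4)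
    (by positivity) (by positivity) hT2
  refine ⟨x, hx, hxk, hx1, ?_⟩
  intro T hT
  have hT' : T.f 1 = 1 := hT.1
  obtain ⟨h1, h2⟩ := hxT T hT
  have h3 := hd ⟨T, hT'⟩ hT.2
  have h4 : ε₀ / 4 + 3 * (ε₀ / 4) = ε₀ := by ring
  rw [h4] at h2
  simp only at h3
  rw [map_sub, map_smul, hT', Complex.sub_re] at h3
  simp at h3
  have h5 := (hrk T hT).2
  have h6 := hreh T
  have h7 := hk0T T hT
  have h8 := hk1T T hT
  have h9 : re T k = (T.f k).re := rfl
  obtain ⟨p, hp⟩ : ∃ p : A, p = star x * x + x * star x := ⟨_, rfl⟩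
  rw [← hp] at h1 h2 hx1 ⊢
  have hp0 : 0 ≤ p := by
    rw [hp]
    exact add_nonneg (star_mul_self_nonneg x) (mul_star_self_nonneg x)
  -- p * p ≤ p
  have hpp : re T (p * p) ≤ re T p := by
    have h10 : p * p ≤ p := by
      have h11 : CFC.sqrt p * p * CFC.sqrt p ≤ CFC.sqrt p * 1 * CFC.sqrt p := by
        have := star_left_conjugate_le_conjugate hx1 (CFC.sqrt p)
        rwa [(IsSelfAdjoint.of_nonneg (CFC.sqrt_nonneg p)).star_eq] at this
      have h12 : CFC.sqrt p * CFC.sqrt p = p := CFC.sqrt_mul_sqrt_self p hp0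
      rw [mul_one, h12] at h11
      have h13 : CFC.sqrt p * p * CFC.sqrt p = p * p := by
        nth_rewrite 2 [← h12]
        calc CFC.sqrt p * (CFC.sqrt p * CFC.sqrt p) * CFC.sqrt p =
            (CFC.sqrt p * CFC.sqrt p) * (CFC.sqrt p * CFC.sqrt p) := by simp only [mul_assoc]
          _ = p * p := by rw [h12]
      rwa [h13] at h11
    exact (mt' A T).1 _ _ h10
  rw [h9]
  have hek : e * (T.f k).re ≤ e := by
    have := mul_le_mul_of_nonneg_left h8 he0.le
    linarith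
  have hek0 : 0 ≤ e * (T.f k).re := mul_nonneg he0.le (by linarith)
  constructor
  · rw [abs_le]
    constructor <;> nlinarith
  · nlinarith

/-- the closed case -/
theorem divc (hM1 : StM1J.{u}) (hLOW : StLOWJ.{u}) (J : Set A) (hD : Dt A J)
    (hcl : IsClosed {T : TS A | TrSet.P T.1}) : NU.DIV A := by
  intro k ε hk hk1 hε
  have hJ : IsId J := hD.d0.id
  obtain ⟨u, huJ, hu0, hu1, huT⟩ := hD.cs (ε / 4) (by positivity)
  obtain ⟨s, hsdef⟩ : ∃ s : A, s = CFC.sqrt k := ⟨_, rfl⟩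
  have hss : s * s = k := by rw [hsdef]; exact CFC.sqrt_mul_sqrt_self _ hk
  have hsstar : star s = s := by
    rw [hsdef]; exact (IsSelfAdjoint.of_nonneg (CFC.sqrt_nonneg _)).star_eq
  obtain ⟨k1, hk1def⟩ : ∃ k1 : A, k1 = s * u * s := ⟨_, rfl⟩
  have hk1J : k1 ∈ J := by
    rw [hk1def]
    exact (hJ.2.2.1 _ ((hJ.2.2.1 u huJ s).1) s).2
  have hk10 : 0 ≤ k1 := by
    have := star_left_conjugate_nonneg hu0 s
    rwa [hsstar, ← hk1def] at this
  have hk1k : k1 ≤ k := by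
    have := star_left_conjugate_le_conjugate hu1 s
    rwa [hsstar, mul_one, hss, ← hk1def] at this
  -- traces
  have htr : ∀ T : Tr A, St T → re T k - ε / 4 ≤ re T k1 := by
    intro T hT
    have hv0 : 0 ≤ 1 - u := sub_nonneg.2 hu1
    obtain ⟨v, hvdef⟩ : ∃ v : A, v = CFC.sqrt (1 - u) := ⟨_, rfl⟩
    have hvv : v * v = 1 - u := by rw [hvdef]; exact CFC.sqrt_mul_sqrt_self _ hv0
    have hvstar : star v = v := by
      rw [hvdef]; exact (IsSelfAdjoint.of_nonneg (CFC.sqrt_nonneg _)).star_eq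
    have h1 : k - k1 = s * (v * v) * s := by
      rw [hvv, hk1def, mul_sub, mul_one, sub_mul, hss]
    have h2 : T.f (k - k1) = T.f (v * k * v) := by
      rw [h1]
      calc T.f (s * (v * v) * s) = T.f ((s * v) * (v * s)) := by simp only [mul_assoc]
        _ = T.f ((v * s) * (s * v)) := T.tr _ _
        _ = T.f (v * (s * s) * v) := by simp only [mul_assoc]
        _ = T.f (v * k * v) := by rw [hss]
    have h3 : v * k * v ≤ 1 - u := by
      have := star_left_conjugate_le_conjugate hk1 v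
      rwa [hvstar, mul_one, hvv] at this
    have h4 := (mt' A T).1 _ _ h3
    rw [← h2, map_sub, map_sub, hT.1, Complex.sub_re, Complex.sub_re, Complex.one_re] at h4
    have h5 := huT T hT
    unfold re at h5 ⊢
    linarith
  have htr2 : ∀ T : Tr A, re T k1 ≤ re T k := fun T => (mt' A T).1 _ _ hk1k
  have hher : ∀ x : A, InHer k1 x → InHer k x := by
    intro x hx
    constructor
    · intro c hc
      apply hx.1
      have h1 : s * c = 0 := sqrt_left hsstar (by rw [hss]; exact hc)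
      rw [hk1def, mul_assoc, h1, mul_zero]
    · intro c hc
      apply hx.2
      have h1 : c * s = 0 := sqrt_right hsstar (by rw [hss]; exact hc)
      rw [hk1def, ← mul_assoc, ← mul_assoc, h1, zero_mul, zero_mul]
  by_cases hk0 : k1 = 0
  · refine ⟨0, by simp, hher 0 ⟨fun c _ => by simp, fun c _ => by simp⟩, by simp, ?_⟩
    intro T hT
    have h1 := htr T hT
    have h2 := htr2 T
    rw [hk0] at h1 h2
    have h3 : re T (0 : A) = 0 := by simp [re]
    rw [h3] at h1 h2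
    simp only [star_zero, mul_zero, add_zero, h3, zero_sub, abs_neg, sub_zero]
    exact ⟨by rw [abs_of_nonneg h2]; linarith, hε.le⟩
  · obtain ⟨x, hx, hxk, hx1, hxT⟩ := divk hM1 hLOW J hD hcl k1 hk1J hk0 (ε / 2) hk10
      (hk1k.trans hk1) (by positivity)
    refine ⟨x, hx, hher x hxk, hx1, ?_⟩
    intro T hT
    obtain ⟨h1, h2⟩ := hxT T hT
    refine ⟨?_, by linarith⟩
    have h3 := htr T hT
    have h4 := htr2 T
    rw [abs_le] at h1 ⊢
    constructor <;> linarith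

end corner

/-- passing to a closed set of tracial states -/
theorem main (hM1 : StM1J.{u}) (hLOW : StLOWJ.{u}) (A : Type u) [CStarAlgebra A] [PartialOrder A]
    [StarOrderedRing A] (i1 : TrSet A) (J : Set A) (hD : @Dt A _ _ _ i1 J) :
    @NU.DIV A _ _ i1 := by
  let i2 : TrSet A := ⟨fun T => ∀ u : A, u ∈ J → 0 ≤ u → u ≤ 1 → ∀ ε : ℝ, 0 < ε →
    (∀ T' : Tr A, @St A _ i1 T' → 1 - ε ≤ re T' u) → 1 - ε ≤ re T u⟩
  have hsub : ∀ T : Tr A, @St A _ i1 T → @St A _ i2 T :=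
    fun T hT => ⟨hT.1, fun u _ _ _ ε _ h => h T hT⟩
  have hD2 : @Dt A _ _ _ i2 J := by
    refine @Dt.mk A _ _ _ i2 J (@Dt.d0 A _ _ _ i1 J hD) ?_ ?_ (@Dt.full A _ _ _ i1 J hD) ?_
    · obtain ⟨T, hT⟩ := @Dt.ne A _ _ _ i1 J hD
      exact ⟨T, hsub T hT⟩
    · intro ε hε
      obtain ⟨u, huJ, hu0, hu1, hu⟩ := @Dt.cs A _ _ _ i1 J hD ε hε
      exact ⟨u, huJ, hu0, hu1, fun T hT => hT.2 u huJ hu0 hu1 ε hε hu⟩
    · intro n a b haJ hbJ ha hb hb0 hT
      exact @Dt.sc A _ _ _ i1 J hD n a b haJ hbJ ha hb hb0 (fun T h => hT T (hsub T h))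
  have hcl : IsClosed {T : TS A | @TrSet.P A _ i2 T.1} := by
    have : {T : TS A | @TrSet.P A _ i2 T.1} = {T : TS A | ∀ u : A, u ∈ J → 0 ≤ u → u ≤ 1 →
      ∀ ε : ℝ, 0 < ε → (∀ T' : Tr A, @St A _ i1 T' → 1 - ε ≤ re T' u) →
        1 - ε ≤ (T.1.f u).re} := rfl
    rw [this]
    simp only [Set.setOf_forall]
    refine isClosed_iInter fun u => isClosed_iInter fun _ => isClosed_iInter fun _ =>
      isClosed_iInter fun _ => isClosed_iInter fun ε => isClosed_iInter fun _ =>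
      isClosed_iInter fun _ => ?_
    exact isClosed_le continuous_const (Complex.continuous_re.comp (TDINI.cont_ev u))
  have h := @divc A _ _ _ i2 hM1 hLOW J hD2 hcl
  intro k ε hk hk1 hε
  obtain ⟨x, hx, hxk, hx1, hxT⟩ := h k ε hk hk1 hε
  exact ⟨x, hx, hxk, hx1, fun T hT => hxT T (hsub T hT)⟩

end DIVJx

theorem t_DIVJ (hM1 : StM1J.{u}) (hLOW : StLOWJ.{u}) : StDIVJ.{u} := by
  intro A _ _ _ i1 J hD
  exact DIVJx.main hM1 hLOW A i1 J hD

end Pool.Agent.H327R4.NJ
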