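import Pool.Agent.H327R4.NJ.Main1
import Pool.Agent.H327R4.NJ.TDIVJ

/-!
# Toms-Winter for ideals with continuous scale
-/

set_option autoImplicit false

namespace Pool.Agent.H327R4.NJ

open Filter Topology Pool.Agent.H327R4.Pure

universe u

theorem tw_ideal_final
    (A : Type u) [CStarAlgebra A] [PartialOrder A]
    [StarOrderedRing A] (J : Set A) (hid : IsId J) (hsim : SimJ J) (hne : NEl J)
    (hT : ∃ T : Tr A, T.f 1 = 1 ∧ OnJ J T)
    (hcs : ∀ ε : ℝ, 0 < ε → ∃ u ∈ J, 0 ≤ u ∧ u ≤ 1 ∧ ∀ T : Tr A, T.f 1 = 1 → OnJ J T →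
      1 - ε ≤ (T.f u).re) (hsc : SCJ J) (hd : Pool.Agent.H735TW.Decomp A) : ZSJ A J :=
  tw_ideal' (t_DIVJ a_M1J t_LOWJ) A J hid hsim hne hT hcs hsc hd

end Pool.Agent.H327R4.NJ
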