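import Pool.Agent.H327R4.NJ.Stubs

/-!
# The conclusion (helper205, after SI/TFIN.lean by helper835)
-/

set_option autoImplicit false

namespace Pool.Agent.H327R4.NJ

open Filter Topology Pool.Agent.H327R4.Pure
open Pool.Agent.H327R4.SI (RI Ex Dc CPto CPF StRIB)
open Pool.Agent.H327R4.NU (TrSet St re n2)

universe u

theorem t_FINJ : StFINJ.{u} := by
  intro A _ _ _ _ J hJ hT hSI hMC m a ε haJ hε
  obtain ⟨k, y, K, δ, hδ, hS⟩ := hSI m a (ε / 4) haJ (by positivity)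
  set M : ℝ := ∑ j, ‖a j‖ with hM
  have hM0 : 0 ≤ M := Finset.sum_nonneg fun j _ => norm_nonneg _
  have hMj : ∀ j, ‖a j‖ ≤ M := fun j =>
    Finset.single_le_sum (f := fun j => ‖a j‖) (fun i _ => norm_nonneg _) (Finset.mem_univ j)
  set ε' : ℝ := min δ (ε / (4 * (M + 1))) with hε'
  have hp : 0 < ε' := lt_min hδ (by positivity)
  have hm1 : ε' ≤ δ := min_le_left _ _
  have hm2 : ε' ≤ ε / (4 * (M + 1)) := min_le_right _ _
  have hm4 : ε' * M ≤ ε / 4 := by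
    have h1 : ε' * (4 * (M + 1)) ≤ ε := by
      rwa [le_div_iff₀ (by positivity)] at hm2
    nlinarith
  have hm3 : ε' ≤ ε := by
    have h1 : ε' * (4 * (M + 1)) ≤ ε := by
      rwa [le_div_iff₀ (by positivity)] at hm2
    nlinarith
  obtain ⟨c₁, c₂, e, hc0, hc1, hc2, he0, he1, h1, h2, h3, h4, h5⟩ :=
    hMC (m + k) (Fin.append a y) K ε' hp
  obtain ⟨s, hs1, hs2, hs3⟩ := hS e c₁ he0 he1 hc0 hc1 (fun j => by
      have h6 := h4 (Fin.natAdd m j)
      rw [Fin.append_right] at h6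
      exact ⟨h6.2.2.trans hm1, h6.1.trans hm1⟩) (fun T => ⟨(h5 T).1.trans hm1, (h5 T).2⟩)
  refine ⟨c₁, c₂, s, hc0, hc1, hc2, hs1, h1.trans hm3, h2.trans hm3, hs2.trans (by linarith), ?_⟩
  intro j
  have h6 := h4 (Fin.castAdd k j)
  rw [Fin.append_left] at h6
  refine ⟨?_, h6.1.trans hm3, h6.2.1.trans hm3, (hs3 j).1.trans (by linarith)⟩
  have e1 : (c₁ * c₁ + star c₂ * c₂ + star s * s - 1) * a j =
      (c₁ * c₁ + star c₂ * c₂ + e - 1) * a j + (star s * s - e) * a j := by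
    noncomm_ring
  rw [e1]
  refine (norm_add_le _ _).trans ?_
  have h7 : ‖(c₁ * c₁ + star c₂ * c₂ + e - 1) * a j‖ ≤ ε' * M :=
    (norm_mul_le _ _).trans (mul_le_mul h3 (hMj j) (norm_nonneg _) hp.le)
  have h8 := (hs3 j).2
  linarith

end Pool.Agent.H327R4.NJ
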