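import Pool.Agent.H327R4.NJ.Stubs

/-!
# In a simple closed ideal every nonzero positive element is full

Helper module.
-/

set_option autoImplicit false

namespace Pool.Agent.H327R4.NJ

universe u

namespace FULLJ

variable {A : Type u} [CStarAlgebra A]

/-- the finite sums `∑ x_i c y_i` -/
def Ps (c : A) : Set A := {z | ∃ (n : ℕ) (x y : Fin n → A), z = ∑ i, x i * c * y i}

/-- the finite sums `∑ y_i^* c y_i` -/
def Sm (c : A) : Set A := {z | ∃ (n : ℕ) (y : Fin n → A), z = ∑ i, star (y i) * c * y i}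

lemma Ps_zero (c : A) : (0 : A) ∈ Ps c := ⟨0, Fin.elim0, Fin.elim0, by simp⟩

lemma Ps_add (c : A) {z w : A} (hz : z ∈ Ps c) (hw : w ∈ Ps c) : z + w ∈ Ps c := by
  obtain ⟨n, x, y, rfl⟩ := hz
  obtain ⟨m, x', y', rfl⟩ := hw
  refine ⟨n + m, Fin.append x x', Fin.append y y', ?_⟩
  rw [Fin.sum_univ_add]
  simp

lemma Ps_mul_left (c a : A) {z : A} (hz : z ∈ Ps c) : a * z ∈ Ps c := by
  obtain ⟨n, x, y, rfl⟩ := hz
  refine ⟨n, fun i => a * x i, y, ?_⟩
  rw [Finset.mul_sum]
  refine Finset.sum_congr rfl fun i _ => ?_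
  simp only [mul_assoc]

lemma Ps_mul_right (c a : A) {z : A} (hz : z ∈ Ps c) : z * a ∈ Ps c := by
  obtain ⟨n, x, y, rfl⟩ := hz
  refine ⟨n, x, fun i => y i * a, ?_⟩
  rw [Finset.sum_mul]
  refine Finset.sum_congr rfl fun i _ => ?_
  simp only [mul_assoc]

lemma isId_closure_Ps (c : A) : IsId (closure (Ps c)) := by
  refine ⟨subset_closure (Ps_zero c), ?_, ?_, isClosed_closure⟩
  · intro x hx y hy
    exact map_mem_closure₂ continuous_add hx hy fun a ha b hb => Ps_add c ha hb
  · intro x hx a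
    refine ⟨?_, ?_⟩
    · exact map_mem_closure (f := fun z : A => a * z) (continuous_const.mul continuous_id)
        hx fun z hz => Ps_mul_left c a hz
    · exact map_mem_closure (f := fun z : A => z * a) (continuous_id.mul continuous_const)
        hx fun z hz => Ps_mul_right c a hz

lemma Sm_zero (c : A) : (0 : A) ∈ Sm c := ⟨0, Fin.elim0, by simp⟩

lemma Sm_add (c : A) {z w : A} (hz : z ∈ Sm c) (hw : w ∈ Sm c) : z + w ∈ Sm c := by
  obtain ⟨n, y, rfl⟩ := hz
  obtain ⟨m, y', rfl⟩ := hw
  refine ⟨n + m, Fin.append y y', ?_⟩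
  rw [Fin.sum_univ_add]
  simp

lemma Sm_conj (c w : A) {z : A} (hz : z ∈ Sm c) : star w * z * w ∈ Sm c := by
  obtain ⟨n, y, rfl⟩ := hz
  refine ⟨n, fun i => y i * w, ?_⟩
  rw [Finset.mul_sum, Finset.sum_mul]
  refine Finset.sum_congr rfl fun i _ => ?_
  simp only [star_mul, mul_assoc]

lemma Sm_one (c w : A) : star w * c * w ∈ Sm c := ⟨1, fun _ => w, by simp⟩

lemma Sm_sum (c : A) {n : ℕ} (f : Fin n → A) (hf : ∀ i, f i ∈ Sm c) : ∑ i, f i ∈ Sm c := by
  induction n with
  | zero => simpa using Sm_zero c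
  | succ n ih =>
    rw [Fin.sum_univ_succ]
    exact Sm_add c (hf 0) (ih _ fun i => hf _)

variable [PartialOrder A] [StarOrderedRing A]

lemma Sm_nonneg {c : A} (hc : 0 ≤ c) {z : A} (hz : z ∈ Sm c) : 0 ≤ z := by
  obtain ⟨n, y, rfl⟩ := hz
  exact Finset.sum_nonneg fun i _ => star_left_conjugate_nonneg hc (y i)

omit [PartialOrder A] [StarOrderedRing A] in
lemma Sm_half (c : A) {z : A} (hz : z ∈ Sm c) : (1 / 2 : ℝ) • z ∈ Sm c := by
  have h := Sm_conj c (algebraMap ℝ A (Real.sqrt (1 / 2))) hz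
  have e : star (algebraMap ℝ A (Real.sqrt (1 / 2))) = algebraMap ℝ A (Real.sqrt (1 / 2)) := by
    rw [← algebraMap_star_comm]; simp
  rw [e, mul_assoc, ← Algebra.commutes, ← mul_assoc, ← map_mul,
    Real.mul_self_sqrt (by norm_num : (0 : ℝ) ≤ 1 / 2), ← Algebra.smul_def] at h
  exact h

lemma cross_le {c : A} (hc : 0 ≤ c) (x y : A) :
    x * c * y + star y * c * star x ≤ x * c * star x + star y * c * y := by
  have h : 0 ≤ star (star x - y) * c * (star x - y) := star_left_conjugate_nonneg hc _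
  have e : star (star x - y) * c * (star x - y)
      = x * c * star x + star y * c * y - (x * c * y + star y * c * star x) := by
    simp only [star_sub, star_star, sub_mul, mul_sub]
    abel
  rw [e] at h
  exact sub_nonneg.1 h

end FULLJ

open FULLJ in
theorem t_FULLJ : StFULLJ.{u} := by
  intro A _ _ _ J hJ hS c hcJ hc hc0 u huJ hu δ hδ
  -- the ideal generated by `c`
  have hsub : closure (Ps c) ⊆ J := by
    refine closure_minimal ?_ hJ.2.2.2
    rintro z ⟨n, x, y, rfl⟩
    have key : ∀ (n : ℕ) (f : Fin n → A), (∀ i, f i ∈ J) → ∑ i, f i ∈ J := by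
      intro n
      induction n with
      | zero => intro f _; simpa using hJ.1
      | succ n ih =>
        intro f hf
        rw [Fin.sum_univ_succ]
        exact hJ.2.1 _ (hf 0) _ (ih _ fun i => hf _)
    exact key n _ fun i => ((hJ.2.2.1 _ ((hJ.2.2.1 c hcJ (x i)).1) (y i)).2)
  have hcm : c ∈ closure (Ps c) := subset_closure ⟨1, fun _ => 1, fun _ => 1, by simp⟩
  have heq : closure (Ps c) = J := by
    rcases hS.2 _ (isId_closure_Ps c) hsub with h | h
    · exact absurd (by rw [h] at hcm; exact hcm) hc0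
    · exact h
  have hum : u ∈ closure (Ps c) := by rw [heq]; exact huJ
  obtain ⟨z, ⟨n, x, y, rfl⟩, hz⟩ := Metric.mem_closure_iff.1 hum δ hδ
  rw [dist_eq_norm] at hz
  set z : A := ∑ i, x i * c * y i with hzdef
  -- the positive majorant
  set s : A := (1 / 2 : ℝ) • (∑ i, (x i * c * star (x i) + star (y i) * c * y i)) with hs
  have hsm : s ∈ Sm c := by
    refine Sm_half c (Sm_sum c _ fun i => Sm_add c ?_ (Sm_one c _))
    have := Sm_one c (star (x i))
    rwa [star_star] at this
  have hs0 : 0 ≤ s := Sm_nonneg hc hsm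
  have husa : star u = u := (IsSelfAdjoint.of_nonneg hu).star_eq
  have hcsa : star c = c := (IsSelfAdjoint.of_nonneg hc).star_eq
  have hzs : z + star z = ∑ i, (x i * c * y i + star (y i) * c * star (x i)) := by
    rw [hzdef, star_sum, ← Finset.sum_add_distrib]
    refine Finset.sum_congr rfl fun i _ => ?_
    simp only [star_mul, hcsa, mul_assoc]
  have hzle : (1 / 2 : ℝ) • (z + star z) ≤ s := by
    rw [hs, hzs]
    refine smul_le_smul_of_nonneg_left ?_ (by norm_num)
    exact Finset.sum_le_sum fun i _ => cross_le hc (x i) (y i)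
  have hdiff : u - (1 / 2 : ℝ) • (z + star z) ≤ algebraMap ℝ A δ := by
    have hsa : IsSelfAdjoint (u - (1 / 2 : ℝ) • (z + star z)) := by
      rw [isSelfAdjoint_iff, star_sub, star_smul, star_add, star_star, husa, add_comm (star z) z]
      simp
    have hn : ‖u - (1 / 2 : ℝ) • (z + star z)‖ ≤ δ := by
      have e : u - (1 / 2 : ℝ) • (z + star z)
          = (1 / 2 : ℝ) • ((u - z) + star (u - z)) := by
        rw [star_sub, husa]
        have : u = (1 / 2 : ℝ) • (u + u) := by
          rw [← two_smul ℝ u, smul_smul]; norm_num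
        conv_lhs => rw [this]
        rw [← smul_sub]
        congr 1
        abel
      rw [e, norm_smul]
      have h1 : ‖(u - z) + star (u - z)‖ ≤ ‖u - z‖ + ‖u - z‖ := by
        refine (norm_add_le _ _).trans ?_
        rw [norm_star]
      have h2 : ‖(1 / 2 : ℝ)‖ = 1 / 2 := by norm_num
      rw [h2]
      linarith
    refine (hsa.le_algebraMap_norm_self).trans ?_
    exact algebraMap_mono A hn
  have hule : u ≤ s + algebraMap ℝ A δ := by
    have := add_le_add hdiff hzle
    rw [sub_add_cancel] at this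
    rwa [add_comm] at this
  set r : A := s + algebraMap ℝ A δ with hr
  have hδp : IsStrictlyPositive (algebraMap ℝ A δ) := by
    refine ⟨?_, ?_⟩
    · have := algebraMap_mono A hδ.le
      simpa using this
    · exact (IsUnit.mk0 δ hδ.ne').map (algebraMap ℝ A)
  have hrp : IsStrictlyPositive r := IsStrictlyPositive.nonneg_add hs0 hδp
  set T : A := CFC.sqrt u * r ^ (-(1 / 2) : ℝ) with hT
  have hTn : ‖T‖ ≤ 1 := (le_iff_norm_sqrt_mul_rpow u r hu hrp).1 hule
  have hstarT : star T = r ^ (-(1 / 2) : ℝ) * CFC.sqrt u := by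
    rw [hT, star_mul, (IsSelfAdjoint.of_nonneg (CFC.sqrt_nonneg u)).star_eq,
      (IsSelfAdjoint.of_nonneg CFC.rpow_nonneg).star_eq]
  have hTr : T * r * star T = u := by
    have h1 := CFC.conjugate_rpow_neg_one_half r hrp
    calc T * r * star T = CFC.sqrt u * (r ^ (-(1 / 2) : ℝ) * r * r ^ (-(1 / 2) : ℝ)) * CFC.sqrt u := by
          rw [hstarT, hT]; simp only [mul_assoc]
      _ = u := by rw [h1, mul_one, CFC.sqrt_mul_sqrt_self u hu]
  have hmem : T * s * star T ∈ Sm c := by
    have := Sm_conj c (star T) hsm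
    rwa [star_star] at this
  obtain ⟨m, w, hw⟩ := hmem
  refine ⟨m, w, ?_⟩
  rw [← hw]
  have e : u - T * s * star T = δ • (T * star T) := by
    conv_lhs => rw [← hTr]
    rw [hr, mul_add, add_mul, add_sub_cancel_left, ← Algebra.commutes, mul_assoc,
      ← Algebra.smul_def]
  rw [e, norm_smul, Real.norm_of_nonneg hδ.le]
  have h3 : ‖T * star T‖ ≤ 1 := by
    refine (norm_mul_le _ _).trans ?_
    rw [norm_star]
    nlinarith [norm_nonneg T]
  nlinarith

end Pool.Agent.H327R4.NJ
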