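import Pool.Agent.H327R4.NJ.Stubs

/-!
# Closed two-sided ideals of C*-algebras are self-adjoint (task IST, helper120)
-/

set_option autoImplicit false

namespace Pool.Agent.H327R4.NJ

universe u

theorem t_IST : StIST.{u} := by
  intro A _ J hJ x hx
  obtain ⟨h0, hadd, hmul, hcl⟩ := hJ
  have hb : IsSelfAdjoint (x * star x) := IsSelfAdjoint.mul_star_self x
  have hspec : ∀ t ∈ spectrum ℝ (x * star x), 0 ≤ t := by
    intro t ht
    have := spectrum_star_mul_self_nonneg (b := star x) t (by rwa [star_star])
    exact this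
  have key : ∀ e : ℝ, 0 < e → ∃ z ∈ J, ‖star x - z‖ ^ 2 ≤ e := by
    intro e he
    have hpos : ∀ t ∈ spectrum ℝ (x * star x), 0 < t + e := fun t ht => by
      have := hspec t ht; linarith
    have hc1 : ContinuousOn (fun t : ℝ => 1 / (t + e)) (spectrum ℝ (x * star x)) := by
      apply ContinuousOn.div continuousOn_const (by fun_prop)
      intro t ht; exact (hpos t ht).ne'
    have hc2 : ContinuousOn (fun t : ℝ => e / (t + e)) (spectrum ℝ (x * star x)) := by
      apply ContinuousOn.div continuousOn_const (by fun_prop)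
      intro t ht; exact (hpos t ht).ne'
    set b : A := x * star x with hbdef
    set v : A := cfc (fun t : ℝ => 1 / (t + e)) b with hv
    set w : A := cfc (fun t : ℝ => e / (t + e)) b with hw
    have h1 : 1 - b * v = w := by
      have e1 : b * v = cfc (fun t : ℝ => t * (1 / (t + e))) b := by
        rw [cfc_mul (fun t : ℝ => t) (fun t : ℝ => 1 / (t + e)) b (by fun_prop) hc1, cfc_id' ℝ b hb]
      have e2 : (1 : A) = cfc (fun _ : ℝ => (1 : ℝ)) b := (cfc_const_one ℝ b hb).symm
      rw [e1, e2, ← cfc_sub (fun _ : ℝ => (1 : ℝ)) (fun t : ℝ => t * (1 / (t + e))) b (by fun_prop)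
        (by exact ContinuousOn.mul (by fun_prop) hc1), hw]
      apply cfc_congr
      intro t ht
      have := (hpos t ht).ne'
      show 1 - t * (1 / (t + e)) = e / (t + e)
      field_simp
      ring
    have hwsa : star w = w := by
      have : IsSelfAdjoint w := by rw [hw]; exact cfc_predicate _ _
      exact this
    refine ⟨star x * (b * v), (hmul _ ((hmul _ ((hmul x hx (star x)).2) v).2) (star x)).1, ?_⟩
    have h2 : star x - star x * (b * v) = star x * w := by
      rw [← h1, mul_sub, mul_one]
    rw [h2, sq, ← CStarRing.norm_star_mul_self]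
    have h3 : star (star x * w) * (star x * w) = w * b * w := by
      rw [star_mul, star_star, hwsa, hbdef]
      simp only [mul_assoc]
    rw [h3]
    have h4 : w * b * w = cfc (fun t : ℝ => e / (t + e) * t * (e / (t + e))) b := by
      rw [cfc_mul (fun t : ℝ => e / (t + e) * t) (fun t : ℝ => e / (t + e)) b
        (ContinuousOn.mul hc2 (by fun_prop)) hc2,
        cfc_mul (fun t : ℝ => e / (t + e)) (fun t : ℝ => t) b hc2 (by fun_prop), cfc_id' ℝ b hb]
    rw [h4]
    apply norm_cfc_le he.le
    intro t ht
    have ht0 := hspec t ht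
    have htp := hpos t ht
    rw [Real.norm_of_nonneg (by positivity)]
    have : e / (t + e) * t * (e / (t + e)) = e * ((e * t) / ((t + e) * (t + e))) := by
      field_simp
    rw [this]
    have h5 : (e * t) / ((t + e) * (t + e)) ≤ 1 := by
      rw [div_le_one (by positivity)]
      nlinarith [mul_nonneg ht0 ht0, mul_pos he he, mul_nonneg he.le ht0]
    nlinarith
  rw [← hcl.closure_eq, Metric.mem_closure_iff]
  intro δ hδ
  obtain ⟨z, hz, hle⟩ := key ((δ / 2) ^ 2) (by positivity)
  refine ⟨z, hz, ?_⟩
  rw [dist_eq_norm]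
  have := abs_le_of_sq_le_sq' hle (by positivity)
  linarith [this.2]

end Pool.Agent.H327R4.NJ
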