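import Pool.Agent.H327R4.NJ.Stubs
import Pool.Agent.H327R4.SI.TLB

/-! LBJ: lower bounds, ideal version (helper634, adapted from SI/TLB of helper141) -/

set_option autoImplicit false

namespace Pool.Agent.H327R4.NJ

open Filter Topology Pool.Agent.H327R4.Pure
open Pool.Agent.H327R4.NU (TrSet St re n2)

universe u

namespace LBJaux

variable {A : Type u} [CStarAlgebra A] [PartialOrder A] [StarOrderedRing A]

/-- `T(g w g) ≤ c` if `w ≤ c` and `g` is a positive contraction -/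
lemma tr_conj_le (T : TS A) (g w : A) (c : ℝ) (hc : 0 ≤ c) (hg0 : 0 ≤ g) (hg : ‖g‖ ≤ 1)
    (hw : w ≤ (c : ℂ) • (1 : A)) : (T.1.f (g * w * g)).re ≤ c := by
  have hgsa : star g = g := hg0.isSelfAdjoint.star_eq
  have h1 := star_left_conjugate_le_conjugate hw g
  rw [hgsa, mul_smul_comm, mul_one, smul_mul_assoc] at h1
  have h2 : (T.1.f (g * w * g)).re ≤ (T.1.f ((c : ℂ) • (g * g))).re := (mt' A T.1).1 _ _ h1
  have h3 : (T.1.f (g * g)).re ≤ 1 := by
    have h4 := SI.LBaux.tr_sq_le T g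
    rw [hgsa] at h4
    exact h4.trans (pow_le_one₀ (norm_nonneg _) hg)
  rw [map_smul, smul_eq_mul, Complex.re_ofReal_mul] at h2
  calc (T.1.f (g * w * g)).re ≤ c * (T.1.f (g * g)).re := h2
    _ ≤ c * 1 := mul_le_mul_of_nonneg_left h3 hc
    _ = c := mul_one c

/-- `T(g w g) ≤ T(w)` if `w ≥ 0` and `g` is a positive contraction -/
lemma tr_conj_le' (T : TS A) (g w : A) (hg0 : 0 ≤ g) (hg : ‖g‖ ≤ 1) (hw : 0 ≤ w) :
    (T.1.f (g * w * g)).re ≤ (T.1.f w).re := by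
  have hgsa : star g = g := hg0.isSelfAdjoint.star_eq
  obtain ⟨r, hr⟩ := CStarAlgebra.nonneg_iff_eq_star_mul_self.1 hw
  have h1 : T.1.f (g * w * g) = T.1.f (r * (g * g) * star r) := by
    have e : g * w * g = (g * star r) * (r * g) := by rw [hr]; noncomm_ring
    rw [e, T.1.tr]
    congr 1
    noncomm_ring
  have h2 : T.1.f w = T.1.f (r * 1 * star r) := by rw [hr, T.1.tr, mul_one]
  rw [h1, h2]
  apply (mt' A T.1).1
  apply star_right_conjugate_le_conjugate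
  have h3 : (0 : A) ≤ g * g := by
    have := star_mul_self_nonneg g
    rwa [hgsa] at this
  rw [← CStarAlgebra.norm_le_one_iff_of_nonneg _ h3]
  exact (norm_mul_le _ _).trans (mul_le_one₀ hg (norm_nonneg _) hg)

end LBJaux

open SI.LBaux LBJaux in
theorem t_LBJ : StLBJ.{u} := by
  intro A _ _ _ _ J hD h hJ h0 hne
  have hsa : IsSelfAdjoint h := h0.isSelfAdjoint
  have hhh : (0 : A) ≤ h * h := by
    have := mul_star_self_nonneg h
    rwa [hsa.star_eq] at this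
  have hhne : h * h ≠ 0 := by
    intro e
    apply hne
    have : ‖h‖ * ‖h‖ = 0 := by
      rw [← CStarRing.norm_star_mul_self, hsa.star_eq, e, norm_zero]
    exact norm_eq_zero.1 (mul_self_eq_zero.1 this)
  have hhJ : h * h ∈ J := (hD.d0.id.2.2.1 h hJ h).1
  obtain ⟨u, huJ, hu0, hu1, huT⟩ := hD.cs (1 / 32) (by norm_num)
  obtain ⟨n, y, hy⟩ := hD.full (h * h) hhJ hhh hhne u huJ hu0 (1 / 32) (by norm_num)
  set S : A := ∑ i, star (y i) * (h * h) * y i with hS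
  have hSsa : IsSelfAdjoint S := by
    rw [hS]
    refine isSelfAdjoint_sum _ fun i _ => ?_
    rw [isSelfAdjoint_iff, star_mul, star_mul, star_star, star_mul, hsa.star_eq]
    noncomm_ring
  have huS : u - S ≤ ((1 / 32 : ℝ) : ℂ) • (1 : A) := by
    have h1 : u - S ≤ algebraMap ℝ A ‖u - S‖ :=
      (hu0.isSelfAdjoint.sub hSsa).le_algebraMap_norm_self
    refine h1.trans ?_
    rw [Algebra.algebraMap_eq_smul_one, Complex.coe_smul]
    have h2 : (0 : A) ≤ 1 := zero_le_one' A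
    exact smul_le_smul_of_nonneg_right hy h2
  set C : ℝ := 1 + ∑ i, ‖y i‖ ^ 2 with hC
  have hC1 : 1 ≤ C := by
    have : 0 ≤ ∑ i, ‖y i‖ ^ 2 := Finset.sum_nonneg fun i _ => by positivity
    linarith
  refine ⟨n, y, 1 / (32 * C), by positivity, ?_⟩
  intro K
  -- choose δ with 2 n (‖h‖ K δ)^2 ≤ 1/8
  obtain ⟨δ, hδ, hδ2⟩ : ∃ δ : ℝ, 0 < δ ∧ 2 * n * (‖h‖ * (K * δ)) ^ 2 ≤ 1 / 8 := by
    set M : ℝ := ‖h‖ * K with hM
    have hM0 : 0 ≤ M := by positivity
    refine ⟨1 / (4 * (n + 1) * (M + 1)), by positivity, ?_⟩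
    have e : ‖h‖ * ((K : ℝ) * (1 / (4 * (n + 1) * (M + 1)))) =
        (M / (M + 1)) * (1 / (4 * (n + 1))) := by
      rw [hM]; field_simp
    rw [e]
    have h1 : 0 ≤ M / (M + 1) := by positivity
    have h2 : M / (M + 1) ≤ 1 := by rw [div_le_one (by positivity)]; linarith
    have h3 : M / (M + 1) * (1 / (4 * ((n : ℝ) + 1))) ≤ 1 / (4 * (n + 1)) := by
      calc M / (M + 1) * (1 / (4 * ((n : ℝ) + 1))) ≤ 1 * (1 / (4 * ((n : ℝ) + 1))) :=
            mul_le_mul_of_nonneg_right h2 (by positivity)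
        _ = _ := one_mul _
    have h4 : (M / (M + 1) * (1 / (4 * ((n : ℝ) + 1)))) ^ 2 ≤ (1 / (4 * (n + 1))) ^ 2 :=
      pow_le_pow_left₀ (by positivity) h3 2
    have h5 : 2 * (n : ℝ) * (1 / (4 * ((n : ℝ) + 1))) ^ 2 ≤ 1 / 8 := by
      rw [div_pow, one_pow, mul_one_div, div_le_div_iff₀ (by positivity) (by norm_num)]
      nlinarith [Nat.cast_nonneg (α := ℝ) n]
    calc 2 * (n : ℝ) * (M / (M + 1) * (1 / (4 * ((n : ℝ) + 1)))) ^ 2
        ≤ 2 * (n : ℝ) * (1 / (4 * (n + 1))) ^ 2 := mul_le_mul_of_nonneg_left h4 (by positivity)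
      _ ≤ 1 / 8 := h5
  refine ⟨δ, hδ, ?_⟩
  intro f hf0 hf1 hfy T0 h14
  obtain ⟨T, hT⟩ : ∃ T : TS A, T.1 = T0.1 := ⟨⟨T0.1, T0.2.1⟩, rfl⟩
  have huT' : 1 - 1 / 32 ≤ (T.1.f u).re := by
    rw [hT]
    exact huT T0.1 T0.2
  rw [← hT] at h14 ⊢
  have hfsa : IsSelfAdjoint f := hf0.isSelfAdjoint
  have hfn : ‖f‖ ≤ 1 := (CStarAlgebra.norm_le_one_iff_of_nonneg f hf0).2 hf1
  have hgsa : star (f ^ K) = f ^ K := by rw [star_pow, hfsa.star_eq]
  have hgg : f ^ (2 * K) = f ^ K * f ^ K := by rw [two_mul, pow_add]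
  have hg0 : 0 ≤ f ^ K := CStarAlgebra.pow_nonneg hf0 K
  have hgn : ‖f ^ K‖ ≤ 1 := by
    rcases Nat.eq_zero_or_pos K with rfl | hK
    · rw [pow_zero]
      exact (CStarAlgebra.norm_le_one_iff_of_nonneg (1 : A) (zero_le_one' A)).2 le_rfl
    · exact (norm_pow_le' f hK).trans (pow_le_one₀ (norm_nonneg _) hfn)
  -- the small parts
  set q : Fin n → A := fun i => h * (y i * f ^ K - f ^ K * y i) with hq
  set p : Fin n → A := fun i => h * f ^ K * y i with hp
  have hpq : ∀ i, h * y i * f ^ K = p i + q i := by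
    intro i; simp only [hp, hq]; noncomm_ring
  have hqn : ∀ i, ‖q i‖ ≤ ‖h‖ * (K * δ) := by
    intro i
    refine (norm_mul_le _ _).trans (mul_le_mul_of_nonneg_left ?_ (norm_nonneg _))
    rw [norm_sub_rev]
    exact comm_pow f (y i) hfn δ (hfy i) K
  have hsum : f ^ K * S * f ^ K = ∑ i, star (h * y i * f ^ K) * (h * y i * f ^ K) := by
    rw [hS, Finset.mul_sum, Finset.sum_mul]
    refine Finset.sum_congr rfl fun i _ => ?_
    rw [star_mul, star_mul, hgsa, hsa.star_eq]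
    noncomm_ring
  have hB : T.1.f (h * f ^ (2 * K) * h) = T.1.f ((h * f ^ K) * star (h * f ^ K)) := by
    rw [star_mul, hgsa, hsa.star_eq, hgg]
    congr 1
    noncomm_ring
  set b : ℝ := (T.1.f (h * f ^ (2 * K) * h)).re with hb
  have hb0 : 0 ≤ b := by
    rw [hb, hB]
    exact ((mt' A T.1).2.1 _ (mul_star_self_nonneg _)).1
  have h1 : (T.1.f (f ^ K * S * f ^ K)).re ≤ ∑ i, (2 * (‖y i‖ ^ 2 * b) +
      2 * (‖h‖ * (K * δ)) ^ 2) := by
    rw [hsum, map_sum, Complex.re_sum]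
    refine Finset.sum_le_sum fun i _ => ?_
    rw [hpq]
    refine (tr_parallel T (p i) (q i)).trans ?_
    refine add_le_add ?_ ?_
    · refine mul_le_mul_of_nonneg_left ?_ (by norm_num)
      rw [T.1.tr]
      have e : p i * star (p i) = (h * f ^ K) * (y i * star (y i)) * star (h * f ^ K) := by
        simp only [hp, star_mul]; noncomm_ring
      rw [e]
      have h2 := star_right_conjugate_le_conjugate
        (CStarAlgebra.mul_star_le_algebraMap_norm_sq (a := y i)) (h * f ^ K)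
      have h3 : (algebraMap ℝ A) (‖y i‖ ^ 2) = ((‖y i‖ ^ 2 : ℝ) : ℂ) • (1 : A) := by
        rw [Algebra.algebraMap_eq_smul_one, Complex.coe_smul]
      rw [h3, mul_smul_comm, smul_mul_assoc, mul_one] at h2
      refine ((mt' A T.1).1 _ _ h2).trans (le_of_eq ?_)
      rw [map_smul, ← hB, smul_eq_mul, Complex.re_ofReal_mul]
    · refine mul_le_mul_of_nonneg_left ?_ (by norm_num)
      exact (tr_sq_le T (q i)).trans (pow_le_pow_left₀ (norm_nonneg _) (hqn i) 2)
  rw [Finset.sum_add_distrib, Finset.sum_const, Finset.card_univ, Fintype.card_fin,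
    nsmul_eq_mul, ← Finset.mul_sum, ← Finset.sum_mul] at h1
  have h2 : (n : ℝ) * (2 * (‖h‖ * (K * δ)) ^ 2) ≤ 1 / 8 := by linarith
  -- decomposition of f^(2K)
  have hdec : f ^ (2 * K) = f ^ K * (1 - u) * f ^ K + f ^ K * (u - S) * f ^ K +
      f ^ K * S * f ^ K := by
    rw [hgg]; noncomm_ring
  have h6 : (T.1.f (f ^ K * (1 - u) * f ^ K)).re ≤ 1 / 32 := by
    refine (tr_conj_le' T (f ^ K) (1 - u) hg0 hgn (sub_nonneg.2 hu1)).trans ?_
    rw [map_sub, T.2, Complex.sub_re, Complex.one_re]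
    linarith
  have h7 : (T.1.f (f ^ K * (u - S) * f ^ K)).re ≤ 1 / 32 :=
    tr_conj_le T (f ^ K) (u - S) (1 / 32) (by norm_num) hg0 hgn huS
  rw [hdec, map_add, map_add, Complex.add_re, Complex.add_re] at h14
  have h3 : 1 / 16 ≤ 2 * (C * b) := by
    have h5 : (∑ i, ‖y i‖ ^ 2) * b ≤ C * b :=
      mul_le_mul_of_nonneg_right (by linarith) hb0
    linarith
  rw [div_le_iff₀ (by positivity)]
  linarith

end Pool.Agent.H327R4.NJ
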