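import Pool.Agent.H327R4.NJ.Stubs

/-!
# Simple ideals are prime (task PRJ, written by helper656)
-/

set_option autoImplicit false

namespace Pool.Agent.H327R4.NJ

universe u

theorem t_PRJ (hIST : StIST.{u}) : StPRJ.{u} := by
  intro A _ _ _ J hJ hS a ha b hb ha0 hb0
  by_contra hc
  push Not at hc
  obtain ⟨hJ0, hJa, hJm, hJc⟩ := hJ
  have hI : IsId {x : A | x ∈ J ∧ ∀ y : A, x * y * b = 0} := by
    refine ⟨⟨hJ0, fun y => by rw [zero_mul, zero_mul]⟩, ?_, ?_, ?_⟩
    · rintro x ⟨hx, hx2⟩ y ⟨hy, hy2⟩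
      refine ⟨hJa x hx y hy, fun z => ?_⟩
      rw [add_mul, add_mul, hx2, hy2, add_zero]
    · rintro x ⟨hx, hx2⟩ c
      refine ⟨⟨(hJm x hx c).1, fun z => ?_⟩, ⟨(hJm x hx c).2, fun z => ?_⟩⟩
      · rw [mul_assoc c x z, mul_assoc c (x * z) b, hx2, mul_zero]
      · rw [mul_assoc x c z, hx2]
    · have h1 : {x : A | x ∈ J ∧ ∀ y : A, x * y * b = 0} =
          J ∩ ⋂ y : A, {x : A | x * y * b = 0} := by
        ext x
        simp only [Set.mem_setOf_eq, Set.mem_inter_iff, Set.mem_iInter]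
      rw [h1]
      refine hJc.inter (isClosed_iInter fun y => ?_)
      exact isClosed_eq (by fun_prop) continuous_const
  rcases hS.2 _ hI (fun x hx => hx.1) with h | h
  · have : a ∈ ({0} : Set A) := by
      rw [← h]
      exact ⟨ha, fun y => hc y⟩
    exact ha0 this
  · have hb' : star b ∈ {x : A | x ∈ J ∧ ∀ y : A, x * y * b = 0} := by
      rw [h]
      exact hIST A J ⟨hJ0, hJa, hJm, hJc⟩ b hb
    have h2 := hb'.2 1
    rw [mul_one] at h2
    exact hb0 (CStarRing.star_mul_self_eq_zero_iff b |>.mp h2)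

end Pool.Agent.H327R4.NJ
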