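import Pool.Agent.H327R4.NJ.Stubs
import Pool.Agent.H327R4.Pure.TMT
import Pool.Agent.H327R4.Pure.TCT
import Pool.Agent.H327R4.Pure.TRK
import Pool.Agent.H327R4.Pure.TORTH
import Pool.Agent.H327R4.Pure.TSWAP
import Pool.Agent.H327R4.Pure.TMON
import Pool.Agent.H327R4.Pure.TADD
import Pool.Agent.H327R4.Pure.TSMALL

/-! small positive elements of an ideal with nilpotents -/

set_option autoImplicit false

namespace Pool.Agent.H327R4.NJ

open Filter Topology Pool.Agent.H327R4.Pure
open Pool.Agent.H327R4.SI (RI StRIB)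

universe u

namespace TSMJ

theorem ri_sub {A : Type u} [CStarAlgebra A] {J : Set A} (hJ : IsId J) {c : A} (hc : c ∈ J) :
    RI c ⊆ J := by
  obtain ⟨-, -, h3, h4⟩ := hJ
  refine closure_minimal ?_ h4
  rintro _ ⟨t, rfl⟩
  exact (h3 c hc t).2

theorem smj_holds (hmon : StMON.{u}) (hadd : StADD.{u}) (hsw : StSWAP.{u}) (hrk : StRK.{u})
    (hmt : StMT.{u}) (hct : StCT.{u}) (hR : StRIB.{u}) : StSMJ.{u} := by
  intro A _ _ _ J hD N
  have key : ∀ k : ℕ, ∃ c ∈ J, 0 ≤ c ∧ c ≠ 0 ∧
      ∀ T : Tr A, (2 : ℝ) ^ k * rk T c ≤ (T.f 1).re := by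
    intro k
    induction k with
    | zero =>
      obtain ⟨c, hcJ, hc0, hcn⟩ := hD.nz
      refine ⟨c, hcJ, hc0, hcn, fun T => ?_⟩
      have hpos : 0 < ‖c‖ := norm_pos_iff.mpr hcn
      have hle : c ≤ ‖c‖ • (1 : A) := by
        have := IsSelfAdjoint.le_algebraMap_norm_self (A := A) (a := c) (.of_nonneg hc0)
        rwa [Algebra.algebraMap_eq_smul_one] at this
      have h1 := hmon A T c 1 ‖c‖ hc0 zero_le_one hpos hle
      have h2 := small_rk_one hrk hmt hct A T
      rw [pow_zero, one_mul]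
      exact h1.trans h2
    | succ k ih =>
      obtain ⟨c, hcJ, hc0, hcn, hc⟩ := ih
      obtain ⟨x, M, hM, hx, hxx, h1, h2⟩ := hD.nil c hcJ hc0 hcn
      have hxJ : x ∈ J := ri_sub hD.id hcJ ((hR A).2.2.2.2.2.2.2.1 c x M hc0 h2)
      refine ⟨star x * x, (hD.id.2.2.1 x hxJ (star x)).1, star_mul_self_nonneg x, ?_, fun T => ?_⟩
      · intro h
        exact hx (CStarRing.star_mul_self_eq_zero_iff x |>.mp h)
      · have horth : (star x * x) * (x * star x) = 0 := by
          rw [mul_assoc, ← mul_assoc x x, hxx, zero_mul, mul_zero]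
        have ha := hadd A T (star x * x) (x * star x) (star_mul_self_nonneg x)
          (mul_star_self_nonneg x) horth
        have hs := small_rk_swap hsw A T x
        have hle : star x * x + x * star x ≤ (2 * M) • c := by
          rw [two_mul, add_smul]
          exact add_le_add h1 h2
        have hm := hmon A T (star x * x + x * star x) c (2 * M)
          (add_nonneg (star_mul_self_nonneg x) (mul_star_self_nonneg x)) hc0 (by linarith) hle
        have hcT := hc T
        have hpos : (0 : ℝ) ≤ 2 ^ k := by positivity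
        have h5 : 2 * rk T (star x * x) ≤ rk T c := by linarith
        calc (2 : ℝ) ^ (k + 1) * rk T (star x * x) = 2 ^ k * (2 * rk T (star x * x)) := by ring
          _ ≤ 2 ^ k * rk T c := mul_le_mul_of_nonneg_left h5 hpos
          _ ≤ _ := hcT
  obtain ⟨c, hcJ, hc0, hcn, hc⟩ := key N
  refine ⟨c, hcJ, hc0, hcn, fun T => ?_⟩
  have h1 : (N : ℝ) ≤ 2 ^ N := by exact_mod_cast (Nat.lt_two_pow_self (n := N)).le
  exact (mul_le_mul_of_nonneg_right h1 (hrk A T c hc0).2.2.2).trans (hc T)

end TSMJ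

theorem t_SMJ (hR : StRIB.{u}) : StSMJ.{u} :=
  TSMJ.smj_holds (mon_holds mt_holds (rk_holds mt_holds))
    (add_holds orth_holds (rk_holds mt_holds)) swap_holds (rk_holds mt_holds) mt_holds ct_holds hR

end Pool.Agent.H327R4.NJ
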