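import Pool.Agent.H327R4.NJ.Stubs

/-!
# Excision of states of an ideal (helper205, after SI/TX7.lean by helper59)
-/

set_option autoImplicit false

namespace Pool.Agent.H327R4.NJ

open Filter Topology Pool.Agent.H327R4.Pure
open Pool.Agent.H327R4.SI (RI Ex Dc CPto CPF StRIB)
open Pool.Agent.H327R4.NU (TrSet St re n2)

universe u

namespace X7x

theorem RI_sub {B : Type u} [CStarAlgebra B] {J : Set B} (hJ : IsId J) {a : B} (ha : a ∈ J) :
    RI a ⊆ J := by
  refine closure_minimal ?_ hJ.2.2.2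
  rintro _ ⟨t, rfl⟩
  exact (hJ.2.2.1 a ha t).2

theorem smul_mem {B : Type u} [CStarAlgebra B] {J : Set B} (hJ : IsId J) (c : ℂ) {x : B}
    (hx : x ∈ J) : c • x ∈ J := by
  have h := (hJ.2.2.1 x hx (c • (1 : B))).1
  rwa [smul_mul_assoc, one_mul] at h

theorem sum_mem {B : Type u} [CStarAlgebra B] {J : Set B} (hJ : IsId J) {n : ℕ} (x : Fin n → B)
    (hx : ∀ m, x m ∈ J) : ∑ m, x m ∈ J := by
  classical
  have key : ∀ s : Finset (Fin n), ∑ m ∈ s, x m ∈ J := by
    intro s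
    induction s using Finset.induction_on with
    | empty => simpa using hJ.1
    | insert i s hi ih =>
      rw [Finset.sum_insert hi]
      exact hJ.2.1 _ (hx i) _ ih
  exact key _

end X7x

open X7x in
/-- X7 -/
theorem t_X7J (hRIB : StRIB.{u}) (hX3 : StX3J.{u}) (hX5 : StX5J.{u}) (hX6 : StX6J.{u}) :
    StX7J.{u} := by
  intro B _ _ _ J hD0 Ψ k y ε hΨ hε
  have hJ := hD0.id
  obtain ⟨-, -, -, -, r5, -⟩ := hRIB B
  obtain ⟨n, w, ω, hw0, hw1, hex, happ⟩ := hX3 B J hD0 Ψ k y (ε / 3) hΨ (by positivity)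
  choose a haJ ha0 hane haE using fun m => hex m (ε / 3) (by positivity)
  set e2 : ℝ := ε / (3 * ((n : ℝ) ^ 2 + 1)) with he2
  have he2p : 0 < e2 := by positivity
  obtain ⟨a', ha', hDc⟩ := hX5 B J hD0 n k a y e2 (fun m => ⟨haJ m, ha0 m, hane m⟩) he2p
  obtain ⟨g, x, hgJ, hg0, hg1, hx⟩ := hX6 B J hD0 n a'
    (fun m => ⟨RI_sub hJ (haJ m) (ha' m).2.2, (ha' m).1, (ha' m).2.1⟩)
  have hxn : ∀ m, ‖x m‖ = 1 := by
    intro m
    have h1 : ‖star (x m) * x m‖ = ‖x m‖ * ‖x m‖ := CStarRing.norm_star_mul_self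
    rw [(hx m).2, hg1] at h1
    nlinarith [norm_nonneg (x m)]
  have hwle : ∀ m, w m ≤ 1 := fun m => by
    rw [← hw1]
    exact Finset.single_le_sum (fun i _ => hw0 i) (Finset.mem_univ m)
  have hE : ∀ m i, ‖star (x m) * y i * x m - ω m i • g‖ ≤ ε / 3 := by
    intro m i
    have hxa : x m ∈ RI (a m) := r5 (a m) (a' m) (ha' m).2.2 (hx m).1
    have h := haE m i (x m) hxa
    rw [(hx m).2, hxn m] at h
    simpa using h
  have hD : ∀ m m', m ≠ m' → ∀ i, ‖star (x m) * y i * x m'‖ ≤ e2 := by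
    intro m m' hm i
    have h := hDc m m' hm i (x m) (hx m).1 (x m') (hx m').1
    rw [hxn m, hxn m'] at h
    simpa using h
  have hxJ : ∀ m, x m ∈ J := fun m => RI_sub hJ (haJ m)
    (r5 (a m) (a' m) (ha' m).2.2 (hx m).1)
  have hHJ : (∑ m, ((Real.sqrt (w m) : ℝ) : ℂ) • x m) ∈ J :=
    sum_mem hJ _ fun m => smul_mem hJ _ (hxJ m)
  refine ⟨∑ m, ((Real.sqrt (w m) : ℝ) : ℂ) • x m, hHJ, g, hgJ, hg0, hg1, fun i => ?_⟩
  have e1 : star (∑ m, ((Real.sqrt (w m) : ℝ) : ℂ) • x m) * y i *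
      (∑ m, ((Real.sqrt (w m) : ℝ) : ℂ) • x m) =
      ∑ m, ∑ m', ((Real.sqrt (w m) * Real.sqrt (w m') : ℝ) : ℂ) • (star (x m) * y i * x m') := by
    rw [star_sum, Finset.sum_mul, Finset.sum_mul]
    refine Finset.sum_congr rfl fun m _ => ?_
    rw [Finset.mul_sum]
    refine Finset.sum_congr rfl fun m' _ => ?_
    rw [star_smul, smul_mul_assoc, smul_mul_assoc, mul_smul_comm, smul_smul]
    congr 1
    rw [Complex.star_def, Complex.conj_ofReal, Complex.ofReal_mul]
  have e3 : ∑ m, ∑ m', ((Real.sqrt (w m) * Real.sqrt (w m') : ℝ) : ℂ) • (star (x m) * y i * x m') =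
      ∑ m, (w m : ℂ) • (star (x m) * y i * x m) +
      ∑ m, ∑ m', (if m = m' then 0 else
        ((Real.sqrt (w m) * Real.sqrt (w m') : ℝ) : ℂ) • (star (x m) * y i * x m')) := by
    rw [← Finset.sum_add_distrib]
    refine Finset.sum_congr rfl fun m _ => ?_
    have h1 : (w m : ℂ) • (star (x m) * y i * x m) = ∑ m', (if m = m' then
        ((Real.sqrt (w m) * Real.sqrt (w m') : ℝ) : ℂ) • (star (x m) * y i * x m') else 0) := by
      rw [Finset.sum_ite_eq]
      simp only [Finset.mem_univ, if_true]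
      rw [Real.mul_self_sqrt (hw0 m)]
    rw [h1, ← Finset.sum_add_distrib]
    refine Finset.sum_congr rfl fun m' _ => ?_
    split_ifs <;> simp
  have e4 : ∑ m, (w m : ℂ) • (star (x m) * y i * x m) - Ψ (y i) • g =
      ∑ m, (w m : ℂ) • (star (x m) * y i * x m - ω m i • g) +
      (∑ m, (w m : ℂ) * ω m i - Ψ (y i)) • g := by
    simp only [smul_sub, Finset.sum_sub_distrib, sub_smul, Finset.sum_smul, smul_smul]
    abel
  rw [e1, e3, add_sub_right_comm, e4]
  have n1 : ‖∑ m, (w m : ℂ) • (star (x m) * y i * x m - ω m i • g)‖ ≤ ε / 3 := by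
    refine (norm_sum_le _ _).trans ?_
    calc ∑ m, ‖(w m : ℂ) • (star (x m) * y i * x m - ω m i • g)‖ ≤ ∑ m, w m * (ε / 3) := by
          refine Finset.sum_le_sum fun m _ => ?_
          rw [norm_smul, Complex.norm_real, Real.norm_eq_abs, abs_of_nonneg (hw0 m)]
          exact mul_le_mul_of_nonneg_left (hE m i) (hw0 m)
      _ = ε / 3 := by rw [← Finset.sum_mul, hw1, one_mul]
  have n2 : ‖(∑ m, (w m : ℂ) * ω m i - Ψ (y i)) • g‖ ≤ ε / 3 := by
    rw [norm_smul, hg1, mul_one]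
    exact happ i
  have n3 : ‖∑ m, ∑ m', (if m = m' then (0 : B) else
        ((Real.sqrt (w m) * Real.sqrt (w m') : ℝ) : ℂ) • (star (x m) * y i * x m'))‖ ≤ ε / 3 := by
    have hterm : ∀ m m' : Fin n, ‖(if m = m' then (0 : B) else
        ((Real.sqrt (w m) * Real.sqrt (w m') : ℝ) : ℂ) • (star (x m) * y i * x m'))‖ ≤ e2 := by
      intro m m'
      split_ifs with h
      · rw [norm_zero]; exact he2p.le
      · rw [norm_smul, Complex.norm_real, Real.norm_eq_abs, abs_of_nonneg (by positivity)]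
        have h1 : Real.sqrt (w m) * Real.sqrt (w m') ≤ 1 := by
          have a1 : Real.sqrt (w m) ≤ 1 := Real.sqrt_le_one.2 (hwle m)
          have a2 : Real.sqrt (w m') ≤ 1 := Real.sqrt_le_one.2 (hwle m')
          exact mul_le_one₀ a1 (Real.sqrt_nonneg _) a2
        calc Real.sqrt (w m) * Real.sqrt (w m') * ‖star (x m) * y i * x m'‖
            ≤ 1 * e2 := mul_le_mul h1 (hD m m' h i) (norm_nonneg _) zero_le_one
          _ = e2 := one_mul _
    refine (norm_sum_le _ _).trans ?_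
    calc ∑ m, ‖∑ m', (if m = m' then (0 : B) else
        ((Real.sqrt (w m) * Real.sqrt (w m') : ℝ) : ℂ) • (star (x m) * y i * x m'))‖
        ≤ ∑ _m : Fin n, ∑ _m' : Fin n, e2 := by
          refine Finset.sum_le_sum fun m _ => ?_
          exact (norm_sum_le _ _).trans (Finset.sum_le_sum fun m' _ => hterm m m')
      _ = (n : ℝ) ^ 2 * e2 := by
          simp only [Finset.sum_const, Finset.card_univ, Fintype.card_fin, nsmul_eq_mul]
          ring
      _ ≤ ε / 3 := by
          rw [he2]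
          have : (n : ℝ) ^ 2 * (ε / (3 * ((n : ℝ) ^ 2 + 1))) = ε / 3 * ((n : ℝ) ^ 2 / ((n : ℝ) ^ 2 + 1)) := by
            field_simp
          rw [this]
          refine mul_le_of_le_one_right (by positivity) ?_
          rw [div_le_one (by positivity)]
          linarith
  refine (norm_add_le _ _).trans ?_
  have n4 := norm_add_le (∑ m, (w m : ℂ) • (star (x m) * y i * x m - ω m i • g))
    ((∑ m, (w m : ℂ) * ω m i - Ψ (y i)) • g)
  linarith

end Pool.Agent.H327R4.NJ
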