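import Pool.Agent.H327R4.NJ.UMA
import Pool.Agent.H327R4.NJ.TLIFTX
import Pool.Agent.H327R4.NJ.TFINJ
import Pool.Agent.H327R4.NJ.TFULLJ
import Pool.Agent.H327R4.NJ.TGLJ
import Pool.Agent.H327R4.NJ.TIST
import Pool.Agent.H327R4.NJ.TLBJ
import Pool.Agent.H327R4.NJ.TORTJ
import Pool.Agent.H327R4.NJ.TPRJ
import Pool.Agent.H327R4.NJ.TROWSJ
import Pool.Agent.H327R4.NJ.TSMJ
import Pool.Agent.H327R4.NJ.TX4J
import Pool.Agent.H327R4.NJ.TX5J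
import Pool.Agent.H327R4.NJ.TX7J
import Pool.Agent.H327R4.SI.TRIB
import Pool.Agent.H327R4.SI.TX1
import Pool.Agent.H327R4.SI.TX2
import Pool.Agent.H327R4.SI.TDN

/-!
# Ideals with continuous scale: assembly
-/

set_option autoImplicit false

namespace Pool.Agent.H327R4.NJ

open Filter Topology Pool.Agent.H327R4.Pure
open Pool.Agent.H327R4.SI (RI Ex Dc CPto CPF StRIB)
open Pool.Agent.H327R4.NU (TrSet St re n2)

universe u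

/-- the tracial states of `A` of norm one on `J` -/
def OnJ {A : Type u} [CStarAlgebra A] [PartialOrder A] (J : Set A) (T : Tr A) : Prop :=
  ∀ ε : ℝ, 0 < ε → ∃ u ∈ J, 0 ≤ u ∧ u ≤ 1 ∧ 1 - ε ≤ (T.f u).re

/-- strict comparison for positive matrices over `J` by the tracial states of norm one on `J` -/
def SCJ {A : Type u} [CStarAlgebra A] [PartialOrder A] [StarOrderedRing A] (J : Set A) : Prop :=
  ∀ (n : ℕ) (a b : MM n A), (∀ p q, a p q ∈ J) → (∀ p q, b p q ∈ J) → 0 ≤ a → 0 ≤ b → b ≠ 0 →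
    (∀ T : Tr A, T.f 1 = 1 → OnJ J T → ∃ d d' : ℝ, IsRank (trM T (Fin n)) a d ∧
      IsRank (trM T (Fin n)) b d' ∧ d < d') → Cz a b

theorem a_X2 : SI.StX2.{u} := SI.t_X2 SI.t_RIB (SI.t_X1 SI.t_RIB)

theorem dt_of (hNILJ : StNILJ.{u}) (A : Type u) [CStarAlgebra A] [PartialOrder A]
    [StarOrderedRing A] (J : Set A) (hid : IsId J) (hsim : SimJ J) (hne : NEl J)
    (hT : ∃ T : Tr A, T.f 1 = 1 ∧ OnJ J T)
    (hcs : ∀ ε : ℝ, 0 < ε → ∃ u ∈ J, 0 ≤ u ∧ u ≤ 1 ∧ ∀ T : Tr A, T.f 1 = 1 → OnJ J T →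
      1 - ε ≤ (T.f u).re) (hsc : SCJ J) :
    @Dt A _ _ _ ⟨OnJ J⟩ J := by
  letI : TrSet A := ⟨OnJ J⟩
  have hst := t_IST A J hid
  have hpr := t_PRJ t_IST A J hid hsim
  refine ⟨⟨hid, hst, ?_, hpr, hNILJ A J hid hne hpr⟩, ?_, ?_, t_FULLJ A J hid hsim, ?_⟩
  · obtain ⟨c, hc, hc0⟩ := hsim.1
    exact ⟨star c * c, (hid.2.2.1 c hc (star c)).1, star_mul_self_nonneg c,
      fun h => hc0 (CStarRing.star_mul_self_eq_zero_iff c |>.mp h)⟩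
  · obtain ⟨T, h1, h2⟩ := hT
    exact ⟨T, h1, h2⟩
  · intro ε hε
    obtain ⟨u, hu, h0, h1, h2⟩ := hcs ε hε
    exact ⟨u, hu, h0, h1, fun T hT => h2 T hT.1 hT.2⟩
  · intro n a b ha hb ha0 hb0 hbn h
    exact hsc n a b ha hb ha0 hb0 hbn fun T h1 h2 => h T ⟨h1, h2⟩

theorem tw_ideal (hSIJ : StSIJ.{u}) (hDIVJ : StDIVJ.{u}) (hNILJ : StNILJ.{u})
    (A : Type u) [CStarAlgebra A] [PartialOrder A]
    [StarOrderedRing A] (J : Set A) (hid : IsId J) (hsim : SimJ J) (hne : NEl J)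
    (hT : ∃ T : Tr A, T.f 1 = 1 ∧ OnJ J T)
    (hcs : ∀ ε : ℝ, 0 < ε → ∃ u ∈ J, 0 ≤ u ∧ u ≤ 1 ∧ ∀ T : Tr A, T.f 1 = 1 → OnJ J T →
      1 - ε ≤ (T.f u).re) (hsc : SCJ J) (hd : Pool.Agent.H735TW.Decomp A) : ZSJ A J := by
  letI : TrSet A := ⟨OnJ J⟩
  have hD : Dt A J := dt_of hNILJ A J hid hsim hne hT hcs hsc
  have hd' : Pool.Agent.H327R4.NU.Decomp A := hd
  exact main_of hSIJ t_FINJ t_LIFTX hDIVJ (fun A _ _ _ _ h1 h2 =>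
    Pool.Agent.H327R4.NU.um_of_div A h1 h2) A J hD (SI.t_DN A hd) hd'

end Pool.Agent.H327R4.NJ
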