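import Pool.Agent.H327R4.NJ.Stubs
import Pool.Agent.H327R4.Pure.TMT

/-! uniform lower bound for traces (non-unital case) -/

set_option autoImplicit false

namespace Pool.Agent.H327R4.NJ

open Filter Topology Pool.Agent.H327R4.Pure
open Pool.Agent.H327R4.NU (TrSet St re n2)

universe u

theorem t_LOWJ : StLOWJ.{u} := by
  intro A _ _ _ _ J hD c hcJ hc hc0
  obtain ⟨u, huJ, hu0, hu1, hu⟩ := hD.cs (1 / 4) (by norm_num)
  obtain ⟨n, y, hy⟩ := hD.full c hcJ hc hc0 u huJ hu0 (1 / 4) (by norm_num)
  set s := CFC.sqrt c with hs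
  have hss : s * s = c := CFC.sqrt_mul_sqrt_self c hc
  have hsa : star s = s := (CFC.sqrt_nonneg c).isSelfAdjoint.star_eq
  set M : ℝ := ∑ i, ‖y i * star (y i)‖ with hM
  have hM0 : 0 ≤ M := Finset.sum_nonneg fun i _ => norm_nonneg _
  refine ⟨(1 / 2) / (1 + M), by positivity, fun T hT => ?_⟩
  obtain ⟨hmono, hpos, _⟩ := mt_holds A T
  have hcT := (hpos c hc).1
  have key : ∀ i, (T.f (star (y i) * c * y i)).re ≤ ‖y i * star (y i)‖ * (T.f c).re := by
    intro i
    have e1 : star (y i) * c * y i = (star (y i) * s) * (s * y i) := by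
      rw [← hss]; simp only [mul_assoc]
    rw [e1, T.tr]
    have e2 : s * y i * (star (y i) * s) = star s * (y i * star (y i)) * s := by
      rw [hsa]; simp only [mul_assoc]
    rw [e2]
    have h3 : star s * (y i * star (y i)) * s ≤ ‖y i * star (y i)‖ • (star s * s) :=
      CStarAlgebra.star_left_conjugate_le_norm_smul (IsSelfAdjoint.mul_star_self (y i))
    have h4 := hmono _ _ h3
    rw [hsa, hss] at h4
    rw [hsa]
    refine h4.trans (le_of_eq ?_)
    have : (‖y i * star (y i)‖ • c : A) = ((‖y i * star (y i)‖ : ℝ) : ℂ) • c := by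
      simp
    rw [this, map_smul]
    simp
  have h1 : (T.f (∑ i, star (y i) * c * y i)).re ≤ M * (T.f c).re := by
    rw [map_sum, Complex.re_sum, hM, Finset.sum_mul]
    exact Finset.sum_le_sum fun i _ => key i
  have hsum : IsSelfAdjoint (∑ i, star (y i) * c * y i) := by
    refine isSelfAdjoint_sum _ fun i _ => ?_
    have := hc.isSelfAdjoint.star_eq
    rw [IsSelfAdjoint]
    simp only [star_mul, star_star, this, mul_assoc]
  have hd : IsSelfAdjoint (u - ∑ i, star (y i) * c * y i) := hu0.isSelfAdjoint.sub hsum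
  have h2 : u - ∑ i, star (y i) * c * y i ≤ algebraMap ℝ A ‖u - ∑ i, star (y i) * c * y i‖ :=
    IsSelfAdjoint.le_algebraMap_norm_self hd
  have h3 : (T.f (u - ∑ i, star (y i) * c * y i)).re ≤ 1 / 4 := by
    refine (hmono _ _ h2).trans ?_
    have h4 : (algebraMap ℝ A ‖u - ∑ i, star (y i) * c * y i‖) =
        ((‖u - ∑ i, star (y i) * c * y i‖ : ℝ) : ℂ) • (1 : A) := by
      rw [Algebra.algebraMap_eq_smul_one]
      simp
    rw [h4, map_smul, hT.1]
    simpa using hy
  have h5 : 3 / 4 ≤ (T.f u).re := by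
    have := hu T hT
    unfold re at this
    linarith
  have h6 : (T.f (u - ∑ i, star (y i) * c * y i)).re =
      (T.f u).re - (T.f (∑ i, star (y i) * c * y i)).re := by
    rw [map_sub, Complex.sub_re]
  have h7 : 1 / 2 ≤ M * (T.f c).re := by linarith
  unfold re
  rw [div_le_iff₀ (by positivity)]
  nlinarith

end Pool.Agent.H327R4.NJ
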