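import Pool.Agent.H327R4.NJ.Stubs
import Pool.Agent.H327R4.Pure.TMT
import Pool.Agent.H327R4.Pure.TCT
import Pool.Agent.H327R4.Pure.TRK
import Pool.Agent.H327R4.Pure.TMON
import Pool.Agent.H327R4.Pure.TSWAP
import Pool.Agent.H327R4.Pure.TCNJ
import Pool.Agent.H327R4.Pure.TCAKE

/-! M1J: all ranks almost occur, in an ideal. -/

set_option autoImplicit false

namespace Pool.Agent.H327R4.NJ

open Filter Topology Pool.Agent.H327R4.Pure
open Pool.Agent.H327R4.NU (TrSet St re n2)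

universe u

namespace M1JAux

variable {A : Type u} [CStarAlgebra A] [PartialOrder A] [StarOrderedRing A]

/-- `cut ε g` is a multiple of `g` -/
theorem cut_eq_mul (g : A) (hg : 0 ≤ g) (ε : ℝ) (hε : 0 < ε) :
    ∃ k : A, cut ε g = g * k := by
  have hsa : IsSelfAdjoint g := IsSelfAdjoint.of_nonneg hg
  have hk : Continuous (fun x : ℝ => max (x - ε) 0 / max x ε) := by
    refine Continuous.div (by fun_prop) (by fun_prop) fun x => ?_
    exact (lt_of_lt_of_le hε (le_max_right _ _)).ne'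
  refine ⟨cfc (fun x : ℝ => max (x - ε) 0 / max x ε) g, ?_⟩
  have h1 : cut ε g = cfc (fun x : ℝ => max (x - ε) 0) g := by
    unfold cut
    exact cfcₙ_eq_cfc (hf := by fun_prop) (hf0 := by simp [hε.le])
  have h2 : (fun x : ℝ => max (x - ε) 0) = fun x : ℝ => x * (max (x - ε) 0 / max x ε) := by
    funext x
    have hm : max x ε ≠ 0 := (lt_of_lt_of_le hε (le_max_right _ _)).ne'
    rcases le_total x ε with h | h
    · rw [max_eq_right (by linarith)]
      simp
    · rw [max_eq_left h, max_eq_left (by linarith)]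
      have : x ≠ 0 := by
        have := lt_of_lt_of_le hε h
        exact this.ne'
      field_simp
  rw [h1, h2, cfc_mul (fun x : ℝ => x) (fun x : ℝ => max (x - ε) 0 / max x ε) g
    (by fun_prop) hk.continuousOn, cfc_id' ℝ g]

theorem tr_le (T : Tr A) (a w : A) (c : ℝ) (ha : 0 ≤ a) (hw : w ≤ c • (1 : A)) :
    (T.f (a * w)).re ≤ c * (T.f a).re := by
  have hmt := (mt_holds A T).1
  have hs0 : 0 ≤ CFC.sqrt a := CFC.sqrt_nonneg a
  have hss : CFC.sqrt a * CFC.sqrt a = a := CFC.sqrt_mul_sqrt_self a ha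
  have h1 : CFC.sqrt a * w * CFC.sqrt a ≤ CFC.sqrt a * (c • (1 : A)) * CFC.sqrt a :=
    conjugate_le_conjugate_of_nonneg hw hs0
  have h2 : CFC.sqrt a * (c • (1 : A)) * CFC.sqrt a = c • a := by
    rw [mul_smul_comm, mul_one, smul_mul_assoc, hss]
  rw [h2] at h1
  have h3 := hmt _ _ h1
  have h4 : T.f (CFC.sqrt a * w * CFC.sqrt a) = T.f (a * w) := by
    rw [T.tr, ← mul_assoc, hss]
  have h5 : (T.f (c • a)).re = c * (T.f a).re := by
    rw [← Complex.coe_smul c a, map_smul, smul_eq_mul, Complex.re_ofReal_mul]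
  rw [h4, h5] at h3
  exact h3

end M1JAux

open M1JAux in
theorem t_M1J (hSM : StSMJ.{u}) : StM1J.{u} := by
  intro A _ _ _ _ J hD h ε hh hε
  have hmt : StMT.{u} := mt_holds
  have hct : StCT.{u} := ct_holds
  have hrk : StRK.{u} := rk_holds hmt
  have hmon : StMON.{u} := mon_holds hmt hrk
  have hcnj : StCNJ.{u} := cnj_holds swap_holds hmon
  have hcake : StCAKE.{u} := cake_holds hmt hrk hct
  set δ : ℝ := ε / (3 * (‖h‖ + 1)) with hδ
  have hn : 0 ≤ ‖h‖ := norm_nonneg h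
  have hδ0 : 0 < δ := by positivity
  have hδh : δ * ‖h‖ ≤ ε / 3 := by
    have : δ * (‖h‖ + 1) = ε / 3 := by
      rw [hδ]
      field_simp
    nlinarith
  obtain ⟨N, hN⟩ := exists_nat_gt (3 / ε)
  have hN0 : (0 : ℝ) < N := lt_trans (by positivity) hN
  have hNε : 1 ≤ (N : ℝ) * (ε / 3) := by
    have := (div_lt_iff₀ hε).mp hN
    linarith
  obtain ⟨c, hcJ, hc0, hcne, hcT⟩ := hSM A J hD.d0 N
  obtain ⟨u, huJ, hu0, hu1, huT⟩ := hD.cs δ hδ0
  obtain ⟨n, y, hy⟩ := hD.full c hcJ hc0 hcne u huJ hu0 δ hδ0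
  set Y : A := ∑ i, y i * h * star (y i) with hY
  have hY0 : 0 ≤ Y := by
    apply Finset.sum_nonneg
    intro i _
    have := star_left_conjugate_nonneg hh (star (y i))
    rwa [star_star] at this
  set r : A := CFC.sqrt Y with hr
  have hr0 : 0 ≤ r := CFC.sqrt_nonneg Y
  have hrr : r * r = Y := CFC.sqrt_mul_sqrt_self Y hY0
  have hrstar : star r = r := (IsSelfAdjoint.of_nonneg hr0).star_eq
  set g : A := r * c * star r with hg
  have hg0 : 0 ≤ g := by
    have := star_left_conjugate_nonneg hc0 (star r)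
    rwa [star_star] at this
  have hgJ : g ∈ J := (hD.d0.id.2.2.1 _ (hD.d0.id.2.2.1 c hcJ r).1 (star r)).2
  set Z : A := ∑ i, star (y i) * c * y i with hZ
  have hgT : ∀ T : Tr A, T.f g = T.f (h * Z) := by
    intro T
    calc T.f g = T.f (r * c * r) := by rw [hg, hrstar]
      _ = T.f (r * (r * c)) := T.tr _ _
      _ = T.f (Y * c) := by rw [← mul_assoc, hrr]
      _ = ∑ i, T.f (y i * (h * star (y i) * c)) := by
          rw [hY, Finset.sum_mul, map_sum]
          refine Finset.sum_congr rfl (fun i _ => ?_)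
          congr 1
          simp only [mul_assoc]
      _ = ∑ i, T.f (h * (star (y i) * c * y i)) := by
          refine Finset.sum_congr rfl (fun i _ => ?_)
          rw [T.tr]
          congr 1
          simp only [mul_assoc]
      _ = T.f (h * Z) := by
          rw [← map_sum, ← Finset.mul_sum]
  have hZsa : IsSelfAdjoint Z := by
    refine IsSelfAdjoint.of_nonneg (Finset.sum_nonneg fun i _ => ?_)
    exact star_left_conjugate_nonneg hc0 (y i)
  have husa : IsSelfAdjoint u := IsSelfAdjoint.of_nonneg hu0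
  have hone : ∀ (w : A), IsSelfAdjoint w → ∀ e : ℝ, ‖w‖ ≤ e → w ≤ e • (1 : A) := by
    intro w hw e he
    have h1 : w ≤ algebraMap ℝ A ‖w‖ := IsSelfAdjoint.le_algebraMap_norm_self hw
    rw [Algebra.algebraMap_eq_smul_one] at h1
    exact h1.trans (smul_le_smul_of_nonneg_right he zero_le_one)
  -- the trace of `g`
  have hmain : ∀ T : Tr A, St T → |re T g - re T h| ≤ 2 * (ε / 3) := by
    intro T hT
    have hT1 : (T.f (1 : A)).re = 1 := by rw [hT.1]; simp
    have hTh : re T h ≤ ‖h‖ := by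
      have := (hmt A T).1 h (‖h‖ • (1 : A)) (hone h (IsSelfAdjoint.of_nonneg hh) _ le_rfl)
      have h5 : (T.f (‖h‖ • (1 : A))).re = ‖h‖ * (T.f 1).re := by
        rw [← Complex.coe_smul ‖h‖ (1 : A), map_smul, smul_eq_mul, Complex.re_ofReal_mul]
      rw [h5, hT1, mul_one] at this
      exact this
    have hTh0 : 0 ≤ re T h := ((hmt A T).2.1 h hh).1
    have e1 : re T (h * (Z - u)) ≤ δ * re T h :=
      tr_le T h (Z - u) δ hh (hone _ (hZsa.sub husa) _ (by rw [norm_sub_rev]; exact hy))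
    have e2 : re T (h * (u - Z)) ≤ δ * re T h :=
      tr_le T h (u - Z) δ hh (hone _ (husa.sub hZsa) _ hy)
    have e3 : re T ((1 - u) * h) ≤ ‖h‖ * re T (1 - u) :=
      tr_le T (1 - u) h ‖h‖ (sub_nonneg.2 hu1) (hone h (IsSelfAdjoint.of_nonneg hh) _ le_rfl)
    have e4 : re T ((1 - u) * (-h)) ≤ 0 * re T (1 - u) :=
      tr_le T (1 - u) (-h) 0 (sub_nonneg.2 hu1) (by rw [zero_smul]; exact neg_nonpos.2 hh)
    have e5 : re T (1 - u) ≤ δ := by
      have h6 := huT T hT
      have h7 : re T (1 - u) = 1 - re T u := by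
        unfold re
        rw [map_sub, Complex.sub_re, hT1]
      linarith
    have e6 : re T (h * (Z - u)) = re T g - re T (h * u) := by
      unfold re
      rw [mul_sub, map_sub, Complex.sub_re, hgT]
    have e7 : re T (h * (u - Z)) = re T (h * u) - re T g := by
      unfold re
      rw [mul_sub, map_sub, Complex.sub_re, hgT]
    have e8 : re T ((1 - u) * h) = re T h - re T (h * u) := by
      unfold re
      rw [sub_mul, one_mul, map_sub, Complex.sub_re, T.tr u h]
    have e9 : re T ((1 - u) * (-h)) = - (re T h - re T (h * u)) := by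
      rw [← e8]
      unfold re
      rw [mul_neg, map_neg, Complex.neg_re]
    have e10 : δ * re T h ≤ δ * ‖h‖ := mul_le_mul_of_nonneg_left hTh hδ0.le
    have e11 : ‖h‖ * re T (1 - u) ≤ ‖h‖ * δ := mul_le_mul_of_nonneg_left e5 hn
    rw [zero_mul] at e4
    rw [abs_le]
    constructor <;> nlinarith
  have hgrk : ∀ T : Tr A, St T → rk T g ≤ ε / 3 := by
    intro T hT
    have hT1 : (T.f (1 : A)).re = 1 := by rw [hT.1]; simp
    have h1 := hcnj A T r c hc0
    have h2 := hcT T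
    rw [hT1] at h2
    have h4 : (N : ℝ) * rk T g ≤ (N : ℝ) * (ε / 3) := by
      calc (N : ℝ) * rk T g ≤ (N : ℝ) * rk T c := by
            apply mul_le_mul_of_nonneg_left h1 hN0.le
        _ ≤ 1 := h2
        _ ≤ _ := hNε
    exact le_of_mul_le_mul_left h4 hN0
  refine ⟨⌈‖g‖⌉₊, fun j => cut ((j : ℝ) + 1) g, fun j => ⟨(hct A g hg0).1 _, ?_⟩, ?_⟩
  · obtain ⟨k, hk⟩ := cut_eq_mul g hg0 (((j : ℕ) : ℝ) + 1) (by positivity)
    show cut (((j : ℕ) : ℝ) + 1) g ∈ J
    rw [hk]
    exact (hD.d0.id.2.2.1 g hgJ k).2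
  intro T hT
  have hk := hcake A T g ⌈‖g‖⌉₊ hg0 (Nat.le_ceil _)
  have e : ∑ j : Fin ⌈‖g‖⌉₊, rk T (cut (((j : ℕ) : ℝ) + 1) g) =
      ∑ j ∈ Finset.range ⌈‖g‖⌉₊, rk T (cut ((j : ℝ) + 1) g) :=
    (Finset.sum_range (fun j : ℕ => rk T (cut ((j : ℝ) + 1) g))).symm
  have h5 := hgrk T hT
  have h6 := abs_le.1 (hmain T hT)
  have h7 : (T.f g).re = re T g := rfl
  rw [h7] at hk
  constructor
  · show _ ≤ ∑ j : Fin ⌈‖g‖⌉₊, rk T (cut (((j : ℕ) : ℝ) + 1) g)
    rw [e]
    linarith [hk.2, h6.1]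
  · show ∑ j : Fin ⌈‖g‖⌉₊, rk T (cut (((j : ℕ) : ℝ) + 1) g) ≤ _
    rw [e]
    linarith [hk.1, h6.2]

end Pool.Agent.H327R4.NJ
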