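import Pool.Agent.H327R4.NJ.Stubs
import Pool.Agent.H327R4.Pure.TNIL

/-!
# Ideals of unital C*-algebras: nilpotents in hereditary subalgebras
-/

set_option autoImplicit false

namespace Pool.Agent.H327R4.NJ

open Pool.Agent.H327R4.Pure

universe u

namespace NILJaux

variable {A : Type u} [CStarAlgebra A] [PartialOrder A] [StarOrderedRing A]

lemma one_point {J : Set A} (hJ : IsId J)
    (hpr : ∀ a ∈ J, ∀ b ∈ J, a ≠ 0 → b ≠ 0 → ∃ y : A, a * y * b ≠ 0) (s : A) (hsJ : s ∈ J)
    (hnil : ∀ z : A, (s * z * s) * (s * z * s) = 0 → s * z * s = 0)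
    (b b0 : A) (hb : b = s * b0 * s) (hbs : IsSelfAdjoint b) (l m : ℝ)
    (hl : l ∈ spectrum ℝ b) (hm : m ∈ spectrum ℝ b) (hl0 : l ≠ 0) (hm0 : m ≠ 0) : l = m := by
  by_contra hne
  set e : ℝ := |l - m| / 2 with he
  have he0 : 0 < e := by
    have : 0 < |l - m| := abs_pos.mpr (sub_ne_zero.mpr hne)
    positivity
  have he2 : 2 * e ≤ |l - m| := by rw [he]; linarith
  set K : A := cfc (NILaux.tent l e) b with hK
  set L : A := cfc (NILaux.tent m e) b with hL
  have hid : cfc (fun x : ℝ => x) b = b := cfc_id' ℝ b hbs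
  set U : A := cfc (fun x : ℝ => x * NILaux.tent l e x) b with hU
  set V : A := cfc (fun x : ℝ => NILaux.tent m e x * x) b with hV
  have hUe : U = b * K := by
    rw [hU, cfc_mul (fun x : ℝ => x) (NILaux.tent l e) b continuousOn_id
      (NILaux.tent_cont l e).continuousOn, hid]
  have hVe : V = L * b := by
    rw [hV, cfc_mul (NILaux.tent m e) (fun x : ℝ => x) b (NILaux.tent_cont m e).continuousOn
      continuousOn_id, hid]
  have hVU : V * U = 0 := by
    rw [hU, hV, ← cfc_mul (fun x : ℝ => NILaux.tent m e x * x)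
      (fun x : ℝ => x * NILaux.tent l e x) b
      (((NILaux.tent_cont m e).mul continuous_id).continuousOn)
      ((continuous_id.mul (NILaux.tent_cont l e)).continuousOn)]
    have : (fun x : ℝ => NILaux.tent m e x * x * (x * NILaux.tent l e x)) = fun _ => 0 := by
      funext x
      have h1 := NILaux.tent_mul l m e x he0 he2
      calc NILaux.tent m e x * x * (x * NILaux.tent l e x)
          = (NILaux.tent m e x * NILaux.tent l e x) * (x * x) := by ring
        _ = 0 := by rw [h1, zero_mul]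
    rw [this]
    exact cfc_const_zero ℝ b
  have hUyV : ∀ y : A, U * y * V = 0 := by
    intro y
    have h1 : U * y * V = s * (b0 * s * K * y * L * s * b0) * s := by
      rw [hUe, hVe]
      conv_lhs => rw [hb]
      simp only [mul_assoc]
    have h2 : (U * y * V) * (U * y * V) = 0 := by
      calc (U * y * V) * (U * y * V) = U * y * (V * U) * y * V := by simp only [mul_assoc]
        _ = 0 := by rw [hVU]; simp
    rw [h1] at h2 ⊢
    exact hnil _ h2
  have hU0 : U ≠ 0 := NILaux.cfc_ne_zero_of_mem b hbs _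
    (continuous_id.mul (NILaux.tent_cont l e)) l hl (by
      simp only [NILaux.tent_self, mul_one]
      exact hl0)
  have hV0 : V ≠ 0 := NILaux.cfc_ne_zero_of_mem b hbs _
    ((NILaux.tent_cont m e).mul continuous_id) m hm (by
      simp only [NILaux.tent_self, one_mul]
      exact hm0)
  have hbJ : b ∈ J := by
    rw [hb, mul_assoc]
    exact (hJ.2.2.1 _ (hJ.2.2.1 s hsJ b0).1 s).1
  have hUJ : U ∈ J := by rw [hUe]; exact (hJ.2.2.1 b hbJ K).2
  have hVJ : V ∈ J := by rw [hVe]; exact (hJ.2.2.1 b hbJ L).1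
  obtain ⟨y, hy⟩ := hpr U hUJ V hVJ hU0 hV0
  exact hy (hUyV y)

lemma sq_mul {J : Set A} (hJ : IsId J)
    (hpr : ∀ a ∈ J, ∀ b ∈ J, a ≠ 0 → b ≠ 0 → ∃ y : A, a * y * b ≠ 0) (s : A) (hsJ : s ∈ J)
    (hnil : ∀ z : A, (s * z * s) * (s * z * s) = 0 → s * z * s = 0)
    (b b0 : A) (hb : b = s * b0 * s) (hbs : IsSelfAdjoint b) :
    ∃ l : ℝ, b * b = l • b := by
  have hid : cfc (fun x : ℝ => x) b = b := cfc_id' ℝ b hbs
  have key : ∀ l : ℝ, (∀ x ∈ spectrum ℝ b, x = 0 ∨ x = l) → b * b = l • b := by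
    intro l hl
    have h1 : b * b = cfc (fun x : ℝ => x * x) b := by
      rw [cfc_mul (fun x : ℝ => x) (fun x : ℝ => x) b continuousOn_id continuousOn_id, hid]
    have h2 : l • b = cfc (fun x : ℝ => l * x) b := by
      rw [cfc_const_mul l (fun x : ℝ => x) b continuousOn_id, hid]
    rw [h1, h2]
    refine cfc_congr fun x hx => ?_
    rcases hl x hx with h | h
    · simp [h]
    · simp [h]
  by_cases h : ∃ l ∈ spectrum ℝ b, l ≠ 0
  · obtain ⟨l, hl, hl0⟩ := h
    refine ⟨l, key l fun x hx => ?_⟩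
    by_cases hx0 : x = 0
    · exact Or.inl hx0
    · exact Or.inr (one_point hJ hpr s hsJ hnil b b0 hb hbs x l hx hl hx0 hl0)
  · push Not at h
    exact ⟨0, key 0 fun x hx => Or.inl (h x hx)⟩

/-- without nilpotents there is a minimal projection -/
lemma minproj {J : Set A} (hJ : IsId J)
    (hpr : ∀ a ∈ J, ∀ b ∈ J, a ≠ 0 → b ≠ 0 → ∃ y : A, a * y * b ≠ 0) (s c : A) (hsJ : s ∈ J)
    (hs : IsSelfAdjoint s) (hsc : s * s = c) (hc0 : c ≠ 0)
    (hnil : ∀ z : A, (s * z * s) * (s * z * s) = 0 → s * z * s = 0) :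
    ∃ p ∈ J, p ≠ 0 ∧ star p = p ∧ p * p = p ∧ ∀ a : A, ∃ k : ℂ, p * a * p = k • p := by
  have hcs : IsSelfAdjoint c := by
    rw [← hsc, IsSelfAdjoint, star_mul, hs.star_eq]
  have hsq := sq_mul hJ hpr s hsJ hnil
  obtain ⟨l0, hl0⟩ := hsq c 1 (by rw [mul_one, hsc]) hcs
  have hl00 : l0 ≠ 0 := by
    intro h
    rw [h, zero_smul] at hl0
    have h1 : star c * c = 0 := by rw [hcs.star_eq]; exact hl0
    exact hc0 ((CStarRing.star_mul_self_eq_zero_iff c).mp h1)
  -- real multiples
  have hreal : ∀ w : A, IsSelfAdjoint w → ∃ k : ℝ, c * w * c = k • c := by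
    intro w hw
    set b : A := c * w * c with hb
    have hbs : IsSelfAdjoint b := by
      rw [IsSelfAdjoint, hb, star_mul, star_mul, hcs.star_eq, hw.star_eq, mul_assoc]
    have hbc : b * c = l0 • b := by
      rw [hb]
      calc c * w * c * c = c * w * (c * c) := by rw [mul_assoc]
        _ = l0 • (c * w * c) := by rw [hl0, mul_smul_comm]
    have hcb : c * b = l0 • b := by
      rw [hb]
      calc c * (c * w * c) = (c * c) * w * c := by simp only [mul_assoc]
        _ = l0 • (c * w * c) := by rw [hl0, smul_mul_assoc, smul_mul_assoc]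
    have hform : ∀ t : ℝ, b + t • c = s * (s * w * s + t • (1 : A)) * s := by
      intro t
      rw [mul_add, add_mul, mul_smul_comm, mul_one, smul_mul_assoc, hsc, hb, ← hsc]
      simp only [mul_assoc]
    have hsa : ∀ t : ℝ, IsSelfAdjoint (b + t • c) := fun t =>
      hbs.add (IsSelfAdjoint.smul (IsSelfAdjoint.all t) hcs)
    have hquad : ∀ t : ℝ, ∃ m : ℝ,
        b * b + (2 * t * l0) • b + (t * t * l0) • c = m • b + (m * t) • c := by
      intro t
      obtain ⟨m, hm⟩ := hsq _ _ (hform t) (hsa t)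
      refine ⟨m, ?_⟩
      have h1 : (b + t • c) * (b + t • c) = b * b + (2 * t * l0) • b + (t * t * l0) • c := by
        rw [add_mul, mul_add, mul_add, mul_smul_comm, smul_mul_assoc, smul_mul_assoc,
          mul_smul_comm, hbc, hcb, hl0]
        module
      rw [← h1, hm]
      module
    obtain ⟨a0, h0⟩ := hquad 0
    obtain ⟨a1, h1⟩ := hquad 1
    obtain ⟨a2, h2⟩ := hquad 2
    have e0 : b * b = a0 • b := by
      have := h0
      simp only [mul_zero, zero_mul, zero_smul, add_zero] at this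
      exact this
    rw [e0] at h1 h2
    by_cases hx : a0 + 2 * l0 - a1 = 0
    · have h3 : (l0 - a1) • c = 0 := by
        have : (a0 + 2 * l0 - a1) • b + (l0 - a1) • c = 0 := by
          have h4 : (a0 + 2 * l0 - a1) • b + (l0 - a1) • c =
            (a0 • b + (2 * 1 * l0) • b + (1 * 1 * l0) • c) - (a1 • b + (a1 * 1) • c) := by module
          rw [h4, h1, sub_self]
        rwa [hx, zero_smul, zero_add] at this
      have h5 : l0 - a1 = 0 := by
        rcases smul_eq_zero.mp h3 with h | h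
        · exact h
        · exact absurd h hc0
      by_cases hy : a0 + 4 * l0 - a2 = 0
      · exfalso
        have h6 : (4 * l0 - 2 * a2) • c = 0 := by
          have : (a0 + 4 * l0 - a2) • b + (4 * l0 - 2 * a2) • c = 0 := by
            have h4 : (a0 + 4 * l0 - a2) • b + (4 * l0 - 2 * a2) • c =
              (a0 • b + (2 * 2 * l0) • b + (2 * 2 * l0) • c) - (a2 • b + (a2 * 2) • c) := by
              module
            rw [h4, h2, sub_self]
          rwa [hy, zero_smul, zero_add] at this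
        have h7 : 4 * l0 - 2 * a2 = 0 := by
          rcases smul_eq_zero.mp h6 with h | h
          · exact h
          · exact absurd h hc0
        apply hl00
        linarith
      · refine ⟨-(4 * l0 - 2 * a2) / (a0 + 4 * l0 - a2), ?_⟩
        have h4 : (a0 + 4 * l0 - a2) • b = (-(4 * l0 - 2 * a2)) • c := by
          have : (a0 + 4 * l0 - a2) • b = (-(4 * l0 - 2 * a2)) • c +
              ((a0 • b + (2 * 2 * l0) • b + (2 * 2 * l0) • c) - (a2 • b + (a2 * 2) • c)) := by
            module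
          rw [this, h2, sub_self, add_zero]
        rw [div_eq_inv_mul, mul_smul, ← h4, smul_smul, inv_mul_cancel₀ hy, one_smul]
    · refine ⟨-(l0 - a1) / (a0 + 2 * l0 - a1), ?_⟩
      have h4 : (a0 + 2 * l0 - a1) • b = (-(l0 - a1)) • c := by
        have : (a0 + 2 * l0 - a1) • b = (-(l0 - a1)) • c +
            ((a0 • b + (2 * 1 * l0) • b + (1 * 1 * l0) • c) - (a1 • b + (a1 * 1) • c)) := by
          module
        rw [this, h1, sub_self, add_zero]
      rw [div_eq_inv_mul, mul_smul, ← h4, smul_smul, inv_mul_cancel₀ hx, one_smul]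
  -- complex multiples
  have hcomplex : ∀ w : A, ∃ k : ℂ, c * w * c = k • c := by
    intro w
    obtain ⟨k1, h1⟩ := hreal (realPart w : A) (realPart w).2
    obtain ⟨k2, h2⟩ := hreal (imaginaryPart w : A) (imaginaryPart w).2
    refine ⟨(k1 : ℂ) + Complex.I * (k2 : ℂ), ?_⟩
    have hw : w = (realPart w : A) + Complex.I • (imaginaryPart w : A) :=
      (realPart_add_I_smul_imaginaryPart w).symm
    conv_lhs => rw [hw]
    rw [mul_add, add_mul, mul_smul_comm, smul_mul_assoc, h1, h2, add_smul, mul_smul]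
    congr 1
  have hcJ : c ∈ J := by rw [← hsc]; exact (hJ.2.2.1 s hsJ s).1
  refine ⟨l0⁻¹ • c, ?_, ?_, ?_, ?_, fun a => ?_⟩
  · have h1 : l0⁻¹ • c = (l0⁻¹ • (1 : A)) * c := by rw [smul_mul_assoc, one_mul]
    rw [h1]
    exact (hJ.2.2.1 c hcJ _).1
  · exact smul_ne_zero (inv_ne_zero hl00) hc0
  · rw [star_smul, hcs.star_eq, star_trivial]
  · rw [smul_mul_assoc, mul_smul_comm, hl0, smul_smul, smul_smul]
    congr 1
    field_simp
  · obtain ⟨k, hk⟩ := hcomplex a
    refine ⟨(l0⁻¹ : ℝ) • k, ?_⟩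
    rw [smul_mul_assoc, smul_mul_assoc, mul_smul_comm, hk, smul_assoc]
    congr 1
    exact smul_comm _ _ _

end NILJaux

theorem t_NILJ : StNILJ.{u} := by
  intro A _ _ _ J hJ hNE hpr c hcJ hc hc0
  have hcs : IsSelfAdjoint c := IsSelfAdjoint.of_nonneg hc
  have hcc0 : c * c ≠ 0 := by
    intro h
    have h1 : star c * c = 0 := by rw [hcs.star_eq]; exact h
    exact hc0 ((CStarRing.star_mul_self_eq_zero_iff c).mp h1)
  by_cases hnil : ∀ z : A, (c * z * c) * (c * z * c) = 0 → c * z * c = 0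
  · exact absurd (NILJaux.minproj hJ hpr c (c * c) hcJ hcs rfl hcc0 hnil) hNE
  push Not at hnil
  obtain ⟨z, hz, hz0⟩ := hnil
  have hsq : c * c ≤ ‖c‖ • c := by
    have h1 := CStarAlgebra.star_left_conjugate_le_norm_smul (a := CFC.sqrt c) (b := c) (hb := hcs)
    have h2 : IsSelfAdjoint (CFC.sqrt c) := IsSelfAdjoint.of_nonneg (CFC.sqrt_nonneg c)
    have h3 : CFC.sqrt c * CFC.sqrt c = c := CFC.sqrt_mul_sqrt_self c hc
    rw [h2.star_eq, h3] at h1
    refine le_trans (le_of_eq ?_) h1
    calc c * c = (CFC.sqrt c * CFC.sqrt c) * (CFC.sqrt c * CFC.sqrt c) := by rw [h3]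
      _ = CFC.sqrt c * (CFC.sqrt c * CFC.sqrt c) * CFC.sqrt c := by simp only [mul_assoc]
      _ = CFC.sqrt c * c * CFC.sqrt c := by rw [h3]
  have key : ∀ w : A, IsSelfAdjoint w → c * w * c ≤ (‖w‖ * ‖c‖) • c := by
    intro w hw
    have h1 := CStarAlgebra.star_left_conjugate_le_norm_smul (a := c) (b := w) (hb := hw)
    rw [hcs.star_eq] at h1
    refine h1.trans ?_
    rw [mul_smul]
    exact smul_le_smul_of_nonneg_left hsq (norm_nonneg _)
  have hle : ∀ (w : A) (M : ℝ), IsSelfAdjoint w → ‖w‖ * ‖c‖ ≤ M → c * w * c ≤ M • c :=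
    fun w M hw hM => (key w hw).trans (smul_le_smul_of_nonneg_right hM hc)
  have hccs : IsSelfAdjoint (c * c) := by rw [IsSelfAdjoint, star_mul, hcs.star_eq]
  refine ⟨c * z * c, ‖star z * (c * c) * z‖ * ‖c‖ + ‖z * (c * c) * star z‖ * ‖c‖ + 1,
    by positivity, hz0, hz, ?_, ?_⟩
  · have h1 : star (c * z * c) * (c * z * c) = c * (star z * (c * c) * z) * c := by
      rw [star_mul, star_mul, hcs.star_eq]
      simp only [mul_assoc]
    rw [h1]
    refine hle _ _ (hccs.conjugate' z) ?_
    have : 0 ≤ ‖z * (c * c) * star z‖ * ‖c‖ := by positivity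
    linarith
  · have h1 : (c * z * c) * star (c * z * c) = c * (z * (c * c) * star z) * c := by
      rw [star_mul, star_mul, hcs.star_eq]
      simp only [mul_assoc]
    rw [h1]
    refine hle _ _ (hccs.conjugate z) ?_
    have : 0 ≤ ‖star z * (c * c) * z‖ * ‖c‖ := by positivity
    linarith

end Pool.Agent.H327R4.NJ
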