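import Pool.Agent.H327R4.NJ.Stubs
import Pool.Agent.H703R4.QC.QCU

/-!
# Quasicentral approximate units of closed ideals
-/

set_option autoImplicit false

namespace Pool.Agent.H327R4.NJ

open Pool.Agent.H327R4.Pure Pool.Agent.H703R4.QC

universe u

namespace TQCU

variable {A : Type u} [CStarAlgebra A]

lemma real_smul_mem {J : Set A} (hJ : IsId J) (c : ℝ) {x : A} (hx : x ∈ J) : c • x ∈ J := by
  have : c • x = (c • (1 : A)) * x := by rw [smul_mul_assoc, one_mul]
  rw [this]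
  exact (hJ.2.2.1 x hx _).1

lemma sum_mem {ι : Type} {J : Set A} (hJ : IsId J) (s : Finset ι) (f : ι → A)
    (hf : ∀ i ∈ s, f i ∈ J) : ∑ i ∈ s, f i ∈ J := by
  classical
  induction s using Finset.induction_on with
  | empty => simpa using hJ.1
  | insert i s hi ih =>
    rw [Finset.sum_insert hi]
    exact hJ.2.1 _ (hf i (Finset.mem_insert_self _ _)) _
      (ih fun j hj => hf j (Finset.mem_insert_of_mem hj))

variable [PartialOrder A] [StarOrderedRing A]

lemma ee_mem {J : Set A} (hJ : IsId J) {d : ℝ} (hd : 0 < d) {h : A} (hh : 0 ≤ h) (hm : h ∈ J) :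
    ee d h ∈ J := by
  have hcl : closure J = J := hJ.2.2.2.closure_eq
  rw [← hcl, Metric.mem_closure_iff]
  intro ε hε
  have hsa : IsSelfAdjoint h := IsSelfAdjoint.of_nonneg hh
  set δ : ℝ := ε * d / 2 with hδ
  have hδ0 : 0 < δ := by positivity
  have c1 : Continuous (fun t : ℝ => gg d t / (|t| + δ)) :=
    (gg_cont d).div (by fun_prop) (fun t => by positivity)
  refine ⟨h * cfc (fun t : ℝ => gg d t / (|t| + δ)) h, (hJ.2.2.1 h hm _).2, ?_⟩
  have e1 : h * cfc (fun t : ℝ => gg d t / (|t| + δ)) h =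
      cfc (fun t : ℝ => t * (gg d t / (|t| + δ))) h := by
    rw [cfc_mul (R := ℝ) (fun t : ℝ => t) (fun t => gg d t / (|t| + δ)) h continuousOn_id
      c1.continuousOn, cfc_id' ℝ h]
  have e2 : ee d h - h * cfc (fun t : ℝ => gg d t / (|t| + δ)) h =
      cfc (fun t : ℝ => gg d t - t * (gg d t / (|t| + δ))) h := by
    rw [e1, cfc_sub (R := ℝ) (gg d) (fun t => t * (gg d t / (|t| + δ))) h
      (gg_cont d).continuousOn (continuous_id.mul c1).continuousOn]
    rfl
  rw [dist_eq_norm, e2]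
  refine lt_of_le_of_lt (norm_cfc_le (c := ε / 2) (by positivity) ?_) (by linarith)
  intro t ht
  have h0 : 0 ≤ t := spectrum_nonneg_of_nonneg hh ht
  have h1 : 0 ≤ gg d t := by
    unfold gg
    exact le_min zero_le_one (div_nonneg h0 hd.le)
  have h2 : gg d t ≤ t / d := by
    unfold gg
    exact min_le_right _ _
  rw [abs_of_nonneg h0]
  have h3 : gg d t - t * (gg d t / (t + δ)) = gg d t * (δ / (t + δ)) := by
    field_simp
    ring
  rw [h3, Real.norm_of_nonneg (by positivity)]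
  calc gg d t * (δ / (t + δ)) ≤ (t / d) * (δ / (t + δ)) :=
        mul_le_mul_of_nonneg_right h2 (by positivity)
    _ = (δ / d) * (t / (t + δ)) := by ring
    _ ≤ (δ / d) * 1 := by
        apply mul_le_mul_of_nonneg_left _ (by positivity)
        rw [div_le_one (by positivity)]
        linarith
    _ = ε / 2 := by rw [hδ]; field_simp

lemma hq_mem {J : Set A} (hJ : IsId J) {d : ℝ} (hd : 0 < d) {r : ℕ} {j0 : A} (b : Fin r → A)
    (h0 : 0 ≤ j0) (hm : j0 ∈ J) (k : ℕ) : hq d j0 b k ∈ J := by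
  induction k with
  | zero => exact hm
  | succ k ih =>
    have he := ee_mem hJ hd (hq_nonneg hd h0 (b := b) k) ih
    unfold hq
    refine hJ.2.1 _ (hJ.2.1 _ hm _ he) _ (sum_mem hJ _ _ fun i _ => hJ.2.1 _ ?_ _ ?_)
    · exact (hJ.2.2.1 _ (hJ.2.2.1 _ he _).1 _).2
    · exact (hJ.2.2.1 _ (hJ.2.2.1 _ he _).1 _).2

end TQCU

open TQCU in
theorem t_QCU : StQCU.{u} := by
  intro A _ _ _ I hI m r j b ε hj hε
  -- parameters
  set B' : ℝ := ∑ i, ‖b i‖ with hB'
  have hB'0 : 0 ≤ B' := Finset.sum_nonneg fun i _ => norm_nonneg _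
  have hb' : ∀ i, ‖b i‖ ≤ B' := fun i =>
    Finset.single_le_sum (f := fun i => ‖b i‖) (fun i _ => norm_nonneg _) (Finset.mem_univ i)
  obtain ⟨n0, hn0⟩ := exists_nat_gt (24 * B' ^ 2 / ε ^ 2)
  set n : ℕ := n0 + 1 with hn
  have hnpos : (0 : ℝ) < n := by rw [hn]; positivity
  have hn1 : 12 * B' ^ 2 / n ≤ ε ^ 2 / 2 := by
    rw [div_le_iff₀ hnpos]
    have : 24 * B' ^ 2 / ε ^ 2 < n := hn0.trans (by rw [hn]; push_cast; linarith)
    rw [div_lt_iff₀ (by positivity)] at this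
    linarith
  set D : ℝ := 4 * n * (B' ^ 2 + B') + 1 with hD
  have hD0 : 0 < D := by positivity
  set s : ℝ := min ε (ε ^ 2 / (2 * D)) with hs
  have hs0 : 0 < s := lt_min hε (by positivity)
  have hsε : s ≤ ε := min_le_left _ _
  have hsD : s * D ≤ ε ^ 2 / 2 := by
    have : s ≤ ε ^ 2 / (2 * D) := min_le_right _ _
    calc s * D ≤ ε ^ 2 / (2 * D) * D := mul_le_mul_of_nonneg_right this hD0.le
      _ = ε ^ 2 / 2 := by field_simp
  set d : ℝ := s ^ 2 with hd
  have hd0 : 0 < d := by positivity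
  have hsd : Real.sqrt d = s := by rw [hd]; exact Real.sqrt_sq hs0.le
  set J : A := ∑ i, (j i * star (j i) + star (j i) * j i) with hJdef
  have hJ : 0 ≤ J := Finset.sum_nonneg fun i _ =>
    add_nonneg (mul_star_self_nonneg _) (star_mul_self_nonneg _)
  have hJI : J ∈ I := sum_mem hI _ _ fun i _ =>
    hI.2.1 _ (hI.2.2.1 _ (hj i) _).2 _ (hI.2.2.1 _ (hj i) _).1
  set E : ℕ → A := fun k => ee d (hq d J b k) with hE
  have hh0 : ∀ k, 0 ≤ hq d J b k := fun k => hq_nonneg hd0 hJ k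
  have hEI : ∀ k, E k ∈ I := fun k => ee_mem hI hd0 (hh0 k) (hq_mem hI hd0 b hJ hJI k)
  have hE0 : ∀ k, 0 ≤ E k := fun k => ee_nonneg hd0 (hh0 k)
  have hE1 : ∀ k, E k ≤ 1 := fun k => ee_le_one (hh0 k)
  have hEsa : ∀ k, star (E k) = E k := fun k => ee_sa.star_eq
  have hEn : ∀ k, ‖E k‖ ≤ 1 := fun k =>
    (CStarAlgebra.norm_le_one_iff_of_nonneg _ (hE0 k)).2 (hE1 k)
  have hun : ∀ k, ‖1 - E k‖ ≤ 1 := fun k =>
    (CStarAlgebra.norm_le_one_iff_of_nonneg _ (sub_nonneg.2 (hE1 k))).2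
      (sub_le_self _ (hE0 k))
  have hj1 : ∀ i k, ‖(1 - E k) * j i‖ ≤ s := by
    intro i k
    rw [← hsd]
    apply norm_unit_le hd0 (hh0 k)
    refine le_trans ?_ (J_le hd0 hJ k)
    refine le_trans ?_ (Finset.single_le_sum (f := fun i => j i * star (j i) + star (j i) * j i)
      (fun i _ => add_nonneg (mul_star_self_nonneg _) (star_mul_self_nonneg _))
      (Finset.mem_univ i))
    exact le_add_of_nonneg_right (star_mul_self_nonneg _)
  have hj2 : ∀ i k, ‖(1 - E k) * star (j i)‖ ≤ s := by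
    intro i k
    rw [← hsd]
    apply norm_unit_le hd0 (hh0 k)
    refine le_trans ?_ (J_le hd0 hJ k)
    refine le_trans ?_ (Finset.single_le_sum (f := fun i => j i * star (j i) + star (j i) * j i)
      (fun i _ => add_nonneg (mul_star_self_nonneg _) (star_mul_self_nonneg _))
      (Finset.mem_univ i))
    rw [star_star]
    exact le_add_of_nonneg_left (mul_star_self_nonneg _)
  have hninv : (0 : ℝ) < (n : ℝ)⁻¹ := inv_pos.2 hnpos
  set e : A := ((n : ℝ)⁻¹) • ∑ k ∈ Finset.range n, E k with he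
  have hcard : ((n : ℝ)⁻¹) • ∑ k ∈ Finset.range n, (1 : A) = 1 := by
    rw [Finset.sum_const, Finset.card_range, ← Nat.cast_smul_eq_nsmul ℝ, smul_smul,
      inv_mul_cancel₀ hnpos.ne', one_smul]
  have heI : e ∈ I := real_smul_mem hI _ (sum_mem hI _ _ fun k _ => hEI k)
  have he0 : 0 ≤ e := smul_nonneg hninv.le (Finset.sum_nonneg fun k _ => hE0 k)
  have he1 : e ≤ 1 := by
    rw [← hcard, he]
    exact smul_le_smul_of_nonneg_left (Finset.sum_le_sum fun k _ => hE1 k) hninv.le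
  have hesub : 1 - e = ((n : ℝ)⁻¹) • ∑ k ∈ Finset.range n, (1 - E k) := by
    rw [Finset.sum_sub_distrib, smul_sub, hcard]
  have havg : ∀ (f : ℕ → A) (c : ℝ), (∀ k, ‖f k‖ ≤ c) →
      ‖((n : ℝ)⁻¹) • ∑ k ∈ Finset.range n, f k‖ ≤ c := by
    intro f c hf
    rw [norm_smul, Real.norm_of_nonneg hninv.le]
    have : ‖∑ k ∈ Finset.range n, f k‖ ≤ n * c := by
      refine (norm_sum_le _ _).trans ((Finset.sum_le_sum fun k _ => hf k).trans (le_of_eq ?_))
      rw [Finset.sum_const, Finset.card_range, nsmul_eq_mul]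
    calc (n : ℝ)⁻¹ * ‖∑ k ∈ Finset.range n, f k‖ ≤ (n : ℝ)⁻¹ * (n * c) :=
          mul_le_mul_of_nonneg_left this hninv.le
      _ = c := by field_simp
  have hesa : star (1 - e) = 1 - e := by
    rw [star_sub, star_one, (IsSelfAdjoint.of_nonneg he0).star_eq]
  have hunit : ∀ y : A, (∀ k, ‖(1 - E k) * y‖ ≤ s) → ‖(1 - e) * y‖ ≤ ε := by
    intro y hy
    have : (1 - e) * y = ((n : ℝ)⁻¹) • ∑ k ∈ Finset.range n, ((1 - E k) * y) := by
      rw [hesub, smul_mul_assoc, Finset.sum_mul]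
    rw [this]
    exact (havg _ _ hy).trans hsε
  refine ⟨e, heI, he0, he1, ?_, ?_⟩
  · intro i
    constructor
    · have h1 := hunit _ (hj1 i)
      rw [sub_mul, one_mul, norm_sub_rev] at h1
      exact h1
    · have h1 := hunit _ (hj2 i)
      have h2 : ‖j i * (1 - e)‖ = ‖(1 - e) * star (j i)‖ := by
        rw [← norm_star, star_mul, hesa]
      rw [← h2, mul_sub, mul_one, norm_sub_rev] at h1
      exact h1
  · intro k
    have h1 : ∀ l, ‖(1 - E (l + 1)) * E l‖ ≤ s := fun l => by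
      rw [← hsd]; exact uE hd0 hJ l
    have h2 : ∀ l, ‖(1 - E (l + 1)) * (star (b k) * E l)‖ ≤ s := fun l => by
      rw [← hsd]; exact ubsE hd0 hJ l k
    have h3 : ∀ l, ‖(1 - E (l + 1)) * (b k * E l)‖ ≤ s := fun l => by
      rw [← hsd]; exact ubE hd0 hJ l k
    have hS := comm_sum hEsa hEn hun h1 (hb' k) h2 h3 n
    have e1 : e * b k - b k * e = ((n : ℝ)⁻¹) • ∑ l ∈ Finset.range n, (E l * b k - b k * E l) := by
      rw [he, smul_mul_assoc, mul_smul_comm, Finset.sum_mul, Finset.mul_sum, ← smul_sub,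
        ← Finset.sum_sub_distrib]
    have e2 : ‖e * b k - b k * e‖ ^ 2 ≤ ε ^ 2 := by
      rw [e1, norm_smul, Real.norm_of_nonneg hninv.le, mul_pow]
      calc ((n : ℝ)⁻¹) ^ 2 * ‖∑ l ∈ Finset.range n, (E l * b k - b k * E l)‖ ^ 2 ≤
          ((n : ℝ)⁻¹) ^ 2 * ((n : ℝ) ^ 2 * (4 * s * n * (B' ^ 2 + B')) + 12 * n * B' ^ 2) :=
            mul_le_mul_of_nonneg_left hS (by positivity)
        _ = s * (4 * n * (B' ^ 2 + B')) + 12 * B' ^ 2 / n := by field_simp
        _ ≤ s * D + 12 * B' ^ 2 / n := by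
            have : s * (4 * n * (B' ^ 2 + B')) ≤ s * D := by
              apply mul_le_mul_of_nonneg_left _ hs0.le
              rw [hD]; linarith
            linarith
        _ ≤ ε ^ 2 / 2 + ε ^ 2 / 2 := add_le_add hsD hn1
        _ = ε ^ 2 := by ring
    exact abs_le_of_sq_le_sq' e2 hε.le |>.2

end Pool.Agent.H327R4.NJ
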