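import Pool.Agent.H327R4.NJ.Stubs
import Pool.Agent.H327R4.SI.TGL
import Pool.Agent.H327R4.SI.TSI

/-!
# Property (SI) for an ideal (helper205, after SI/TSI.lean)
-/

set_option autoImplicit false

namespace Pool.Agent.H327R4.NJ

open Filter Topology Pool.Agent.H327R4.Pure
open Pool.Agent.H327R4.SI (RI Ex Dc CPto CPF StRIB SI_s SI_step1 SI_step2 SI_step3 SI_f SI_cut)
open Pool.Agent.H327R4.NU (TrSet St re n2)

universe u

namespace SIJx

section a

variable {A : Type u} [CStarAlgebra A] [PartialOrder A] [StarOrderedRing A]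

theorem norm_E {N : ℕ} (p q : Fin N) (a : A) : ‖SI.TGL.E p q a‖ ≤ N * ‖a‖ := by
  have h1 := SI.TGL.norm_le_sum (star (SI.TGL.E p q a) * SI.TGL.E p q a) (star_mul_self_nonneg _)
  have h2 : ∀ κ : Fin N, ‖(star (SI.TGL.E p q a) * SI.TGL.E p q a : MM N A) κ κ‖ ≤
      N * (‖a‖ * ‖a‖) := by
    intro κ
    rw [CStarMatrix.mul_apply]
    refine (norm_sum_le _ _).trans ?_
    have h3 : ∀ l ∈ (Finset.univ : Finset (Fin N)),
        ‖(star (SI.TGL.E p q a) : MM N A) κ l * SI.TGL.E p q a l κ‖ ≤ ‖a‖ * ‖a‖ := by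
      intro l _
      rw [CStarMatrix.star_apply, SI.TGL.E_apply]
      refine (norm_mul_le _ _).trans ?_
      rw [norm_star]
      split_ifs
      · exact le_rfl
      · rw [norm_zero, zero_mul]
        positivity
    refine (Finset.sum_le_sum h3).trans (le_of_eq ?_)
    rw [Finset.sum_const, Finset.card_univ, Fintype.card_fin, nsmul_eq_mul]
  have h4 := h1.trans (Finset.sum_le_sum fun κ _ => h2 κ)
  rw [Finset.sum_const, Finset.card_univ, Fintype.card_fin, nsmul_eq_mul,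
    CStarRing.norm_star_mul_self] at h4
  have h5 : ‖SI.TGL.E p q a‖ ^ 2 ≤ (N * ‖a‖) ^ 2 := by
    calc ‖SI.TGL.E p q a‖ ^ 2 = ‖SI.TGL.E p q a‖ * ‖SI.TGL.E p q a‖ := sq _
      _ ≤ N * (N * (‖a‖ * ‖a‖)) := h4
      _ = (N * ‖a‖) ^ 2 := by ring
  exact (sq_le_sq₀ (norm_nonneg _) (by positivity)).1 h5

open scoped ComplexOrder in
theorem bdd {N : ℕ} (ρ : A →ₗ[ℂ] Matrix (Fin N) (Fin N) ℂ) (hρ : CPto ρ) :
    ∃ C : ℝ, 0 ≤ C ∧ ∀ x p q, ‖ρ x p q‖ ≤ C * ‖x‖ := by
  have hpos : ∀ M : MM N A, 0 ≤ M → 0 ≤ SI.TGL.Ps ρ M := by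
    intro M hM
    obtain ⟨x, rfl⟩ := SI.TGL.exs M hM
    have h := SI.TGL.Ps_pos ρ hρ x
    rw [Complex.nonneg_iff]
    exact ⟨h.1, h.2.symm⟩
  obtain ⟨C, hC⟩ := PositiveLinearMap.exists_norm_apply_le
    (PositiveLinearMap.mk₀ (SI.TGL.Ps ρ) hpos)
  refine ⟨C * N, by positivity, fun x p q => ?_⟩
  have h1 := hC (SI.TGL.E p q x)
  have h2 : (PositiveLinearMap.mk₀ (SI.TGL.Ps ρ) hpos) (SI.TGL.E p q x) = ρ x p q :=
    SI.TGL.Ps_E ρ p q x
  rw [h2] at h1
  calc ‖ρ x p q‖ ≤ C * ‖SI.TGL.E p q x‖ := h1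
    _ ≤ C * (N * ‖x‖) := by
      gcongr
      exact norm_E p q x
    _ = C * N * ‖x‖ := by ring

/-- compression by `u` -/
def cj (u : A) : A →ₗ[ℂ] A where
  toFun x := u * x * u
  map_add' x y := by rw [mul_add, add_mul]
  map_smul' c x := by rw [mul_smul_comm, smul_mul_assoc, RingHom.id_apply]

theorem cj_apply (u x : A) : cj u x = u * x * u := rfl

theorem cpto {N : ℕ} (ρ : A →ₗ[ℂ] Matrix (Fin N) (Fin N) ℂ) (hρ : CPto ρ) (u : A)
    (hu : star u = u) : CPto (ρ.comp (cj u)) := by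
  intro x
  have h := hρ (fun p => x p * u)
  have e : ∀ p q, (ρ.comp (cj u)) (star (x p) * x q) = ρ (star (x p * u) * (x q * u)) := by
    intro p q
    rw [LinearMap.comp_apply, cj_apply, star_mul, hu]
    simp only [mul_assoc]
  simp only [e]
  exact h

theorem carJ {J : Set A} {N : ℕ} (hQCU : StQCU.{u}) (hJ : IsId J)
    (ρ : A →ₗ[ℂ] Matrix (Fin N) (Fin N) ℂ) (hρ : CPto ρ) (u : A) (huJ : u ∈ J) (hu1 : ‖u‖ ≤ 1) :
    CarJ J (ρ.comp (cj u)) := by
  intro ε hε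
  obtain ⟨C, hC0, hC⟩ := bdd ρ hρ
  obtain ⟨v, hvJ, hv0, hv1, hv, -⟩ := hQCU A J hJ 1 0 (fun _ => u) (fun i => i.elim0)
    (ε / (C + 1)) (fun _ => huJ) (by positivity)
  refine ⟨v, hvJ, hv0, hv1, fun p q => ?_⟩
  rw [LinearMap.comp_apply, cj_apply]
  refine (hC _ p q).trans ?_
  have e : u * (1 - v) * u = -(u * (v * u - u)) := by
    noncomm_ring
  have h1 : ‖u * (1 - v) * u‖ ≤ 1 * (ε / (C + 1)) := by
    rw [e, norm_neg]
    exact norm_mul_le_of_le hu1 (hv 0).1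
  calc C * ‖u * (1 - v) * u‖ ≤ C * (1 * (ε / (C + 1))) := by gcongr
    _ = ε * (C / (C + 1)) := by ring
    _ ≤ ε * 1 := by
      gcongr
      rw [div_le_one (by positivity)]
      linarith
    _ = ε := mul_one _

theorem sq_le_one' (v : A) (h0 : 0 ≤ v) (h1 : v ≤ 1) : v * v ≤ 1 := by
  have h := CStarAlgebra.pow_antitone h0 h1 (show 0 ≤ 2 by norm_num)
  simpa [pow_two] using h

theorem tr_conj (T : Tr A) (v e : A) (h0 : 0 ≤ v) (h1 : v ≤ 1) (he : 0 ≤ e) :
    (T.f (v * e * v)).re ≤ (T.f e).re := by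
  obtain ⟨d, hd⟩ := CStarAlgebra.nonneg_iff_eq_star_mul_self.1 he
  obtain ⟨b, hb⟩ := CStarAlgebra.nonneg_iff_eq_star_mul_self.1
    (sub_nonneg.2 (sq_le_one' v h0 h1))
  have h2 := (T.pos (b * star d)).1
  have e1 : star (b * star d) * (b * star d) = d * star d - d * (v * v) * star d := by
    rw [star_mul, star_star]
    calc d * star b * (b * star d) = d * (star b * b) * star d := by simp only [mul_assoc]
      _ = d * (1 - v * v) * star d := by rw [← hb]
      _ = _ := by noncomm_ring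
  rw [e1, map_sub, Complex.sub_re] at h2
  have e2 : T.f (d * star d) = T.f e := by rw [T.tr, ← hd]
  have e3 : T.f (d * (v * v) * star d) = T.f (v * e * v) := by
    rw [T.tr, ← mul_assoc, ← mul_assoc, ← hd, mul_assoc v e v, T.tr v (e * v)]
  rw [e2, e3] at h2
  linarith

end a

section b

variable {A : Type u} [CStarAlgebra A]

theorem conj_est (u z e v : A) (B δ η : ℝ) (hu : ‖u‖ ≤ 1) (he : ‖e‖ ≤ 1) (hv : ‖v‖ ≤ 1)
    (hz : ‖z‖ ≤ B) (huv : ‖u * v - u‖ ≤ η) (hue : ‖e * u - u * e‖ ≤ δ) :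
    ‖u * z * u * (v * e * v) - u * z * u * e‖ ≤ 2 * B * (δ + η) := by
  have e1 : u * z * u * (v * e * v) - u * z * u * e =
      u * z * (u * v - u) * e * v - u * z * (e * u - u * e) * v + u * z * e * (u * v - u) +
        u * z * (e * u - u * e) := by
    noncomm_ring
  rw [e1]
  have hB : 0 ≤ B := (norm_nonneg _).trans hz
  have a1 := norm_mul_le_of_le hu hz
  have b1 := norm_mul_le_of_le (norm_mul_le_of_le (norm_mul_le_of_le a1 huv) he) hv
  have b2 := norm_mul_le_of_le (norm_mul_le_of_le a1 hue) hv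
  have b3 := norm_mul_le_of_le (norm_mul_le_of_le a1 he) huv
  have b4 := norm_mul_le_of_le a1 hue
  refine (norm_add_le _ _).trans ?_
  have c1 := norm_add_le (u * z * (u * v - u) * e * v - u * z * (e * u - u * e) * v)
    (u * z * e * (u * v - u))
  have c2 := norm_sub_le (u * z * (u * v - u) * e * v) (u * z * (e * u - u * e) * v)
  linarith

theorem com_conj (e v c : A) (δ η : ℝ) (he : ‖e‖ ≤ 1) (hv : ‖v‖ ≤ 1)
    (hvc : ‖v * c - c * v‖ ≤ η) (hec : ‖e * c - c * e‖ ≤ δ) :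
    ‖(v * e * v) * c - c * (v * e * v)‖ ≤ δ + 2 * η := by
  have e1 : (v * e * v) * c - c * (v * e * v) =
      v * e * (v * c - c * v) + v * (e * c - c * e) * v + (v * c - c * v) * e * v := by
    noncomm_ring
  rw [e1]
  have b1 := norm_mul_le_of_le (norm_mul_le_of_le hv he) hvc
  have b2 := norm_mul_le_of_le (norm_mul_le_of_le hv hec) hv
  have b3 := norm_mul_le_of_le (norm_mul_le_of_le hvc he) hv
  have c1 := norm_add_le (v * e * (v * c - c * v) + v * (e * c - c * e) * v)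
    ((v * c - c * v) * e * v)
  have c2 := norm_add_le (v * e * (v * c - c * v)) (v * (e * c - c * e) * v)
  linarith

/-- the commutator -/
theorem comm (s a e : A) (η : ℝ) (h1 : ‖star s * s * a - a * e‖ ≤ η)
    (h2 : ‖star s * a * s - a * e‖ ≤ η) (h3 : ‖star s * star a * s - star a * e‖ ≤ η)
    (h4 : ‖star s * (star a * a) * s - star a * a * e‖ ≤ η) (h5 : ‖e * a - a * e‖ ≤ η) :
    ‖s * a - a * s‖ ^ 2 ≤ η * (4 * ‖a‖ + 1) := by
  have hη : 0 ≤ η := (norm_nonneg _).trans h1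
  rw [pow_two, ← CStarRing.norm_star_mul_self]
  have key : star (s * a - a * s) * (s * a - a * s) =
      star a * (star s * s * a - a * e) - star a * (star s * a * s - a * e) -
        (star s * star a * s - star a * e) * a + (star s * (star a * a) * s - star a * a * e) -
        star a * (e * a - a * e) := by
    simp only [star_sub, star_mul]
    noncomm_ring
  rw [key]
  have hs : ‖star a‖ ≤ ‖a‖ := by rw [norm_star]
  have e1 := norm_mul_le_of_le hs h1
  have e2 := norm_mul_le_of_le hs h2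
  have e3 := norm_mul_le_of_le h3 (le_refl ‖a‖)
  have e5 := norm_mul_le_of_le hs h5
  have c1 := norm_sub_le (star a * (star s * s * a - a * e) - star a * (star s * a * s - a * e) -
        (star s * star a * s - star a * e) * a + (star s * (star a * a) * s - star a * a * e))
        (star a * (e * a - a * e))
  have c2 := norm_add_le (star a * (star s * s * a - a * e) - star a * (star s * a * s - a * e) -
        (star s * star a * s - star a * e) * a) (star s * (star a * a) * s - star a * a * e)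
  have c3 := norm_sub_le (star a * (star s * s * a - a * e) - star a * (star s * a * s - a * e))
        ((star s * star a * s - star a * e) * a)
  have c4 := norm_sub_le (star a * (star s * s * a - a * e)) (star a * (star s * a * s - a * e))
  nlinarith

/-- `u x u` is close to `x` -/
theorem uxu (u x : A) (η : ℝ) (hu : ‖u‖ ≤ 1) (h1 : ‖u * x - x‖ ≤ η) (h2 : ‖x * u - x‖ ≤ η) :
    ‖u * x * u - x‖ ≤ 2 * η := by
  have e1 : u * x * u - x = u * (x * u - x) + (u * x - x) := by noncomm_ring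
  rw [e1]
  have b1 := norm_mul_le_of_le hu h2
  have c1 := norm_add_le (u * (x * u - x)) (u * x - x)
  linarith

/-- `(u² - 1) e a` is small -/
theorem uea (u e a : A) (η δ : ℝ) (hu : ‖u‖ ≤ 1) (he : ‖e‖ ≤ 1) (h1 : ‖u * a - a‖ ≤ η)
    (h2 : ‖e * a - a * e‖ ≤ δ) : ‖(u * u * e - e) * a‖ ≤ 2 * δ + 2 * η := by
  have e1 : (u * u * e - e) * a = u * (u * (e * a - a * e)) - (e * a - a * e) +
      (u * ((u * a - a) * e) + (u * a - a) * e) := by noncomm_ring
  rw [e1]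
  have b1 := norm_mul_le_of_le hu (norm_mul_le_of_le hu h2)
  have b3 := norm_mul_le_of_le h1 he
  have b4 := norm_mul_le_of_le hu b3
  have c1 := norm_add_le (u * (u * (e * a - a * e)) - (e * a - a * e))
    (u * ((u * a - a) * e) + (u * a - a) * e)
  have c2 := norm_sub_le (u * (u * (e * a - a * e))) (e * a - a * e)
  have c3 := norm_add_le (u * ((u * a - a) * e)) ((u * a - a) * e)
  linarith

end b

end SIJx

open SIJx in
theorem t_SIJ (hGL : StGLJ.{u}) (hSIR : StSIRJ.{u}) (hQCU : StQCU.{u}) : StSIJ.{u} := by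
  intro A _ _ _ _ J hDt hcpf m a ε haJ hε
  classical
  have hJ : IsId J := hDt.d0.id
  have hsJ : ∀ x ∈ J, star x ∈ J := hDt.d0.st
  -- the finite set
  obtain ⟨wl, hwl⟩ : ∃ wl : List A, wl = List.ofFn a ++ List.ofFn (fun j => star (a j)) ++
    List.ofFn (fun j => star (a j) * a j) := ⟨_, rfl⟩
  have hwa : ∀ j, a j ∈ wl := by
    intro j
    rw [hwl, List.mem_append, List.mem_append]
    left; left
    rw [List.mem_ofFn]
    exact ⟨j, rfl⟩
  have hws : ∀ j, star (a j) ∈ wl := by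
    intro j
    rw [hwl, List.mem_append, List.mem_append]
    left; right
    rw [List.mem_ofFn]
    exact ⟨j, rfl⟩
  have hwq : ∀ j, star (a j) * a j ∈ wl := by
    intro j
    rw [hwl, List.mem_append]
    right
    rw [List.mem_ofFn]
    exact ⟨j, rfl⟩
  have hwJ : ∀ x ∈ wl, x ∈ J := by
    intro x hx
    rw [hwl, List.mem_append, List.mem_append, List.mem_ofFn, List.mem_ofFn, List.mem_ofFn] at hx
    rcases hx with (⟨j, rfl⟩ | ⟨j, rfl⟩) | ⟨j, rfl⟩
    · exact haJ j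
    · exact hsJ _ (haJ j)
    · exact (hJ.2.2.1 _ (haJ j) _).1
  obtain ⟨zl, hzl⟩ : ∃ zl : List A, zl = 1 :: wl := ⟨_, rfl⟩
  have hz1 : (1 : A) ∈ zl := by rw [hzl]; exact List.mem_cons_self
  have hzw : ∀ x ∈ wl, x ∈ zl := by
    intro x hx
    rw [hzl]
    exact List.mem_cons_of_mem _ hx
  -- constants
  obtain ⟨Am, hAm⟩ : ∃ Am : ℝ, Am = ∑ j, ‖a j‖ := ⟨_, rfl⟩
  have hAm0 : 0 ≤ Am := by rw [hAm]; exact Finset.sum_nonneg fun j _ => norm_nonneg _
  have haAm : ∀ j, ‖a j‖ ≤ Am := by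
    intro j
    rw [hAm]
    exact Finset.single_le_sum (f := fun j => ‖a j‖) (fun j _ => norm_nonneg _) (Finset.mem_univ j)
  obtain ⟨B, hB⟩ : ∃ B : ℝ, B = ∑ i : Fin zl.length, ‖zl.get i‖ := ⟨_, rfl⟩
  have hB0 : 0 ≤ B := by rw [hB]; exact Finset.sum_nonneg fun j _ => norm_nonneg _
  have hBz : ∀ z ∈ zl, ‖z‖ ≤ B := by
    intro z hz
    obtain ⟨i, rfl⟩ := List.mem_iff_get.1 hz
    rw [hB]
    exact Finset.single_le_sum (f := fun i : Fin zl.length => ‖zl.get i‖)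
      (fun j _ => norm_nonneg _) (Finset.mem_univ i)
  obtain ⟨η, hη⟩ : ∃ η : ℝ, η = min 1 (min ε (ε ^ 2 / (4 * Am + 1))) := ⟨_, rfl⟩
  have hη0 : 0 < η := by rw [hη]; exact lt_min one_pos (lt_min hε (by positivity))
  have hη1 : η ≤ 1 := by rw [hη]; exact min_le_left _ _
  have hηε : η ≤ ε := by rw [hη]; exact (min_le_right _ _).trans (min_le_left _ _)
  have hηε2 : η * (4 * Am + 1) ≤ ε ^ 2 := by
    have : η ≤ ε ^ 2 / (4 * Am + 1) := by
      rw [hη]; exact (min_le_right _ _).trans (min_le_right _ _)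
    rwa [le_div_iff₀ (by positivity)] at this
  obtain ⟨μ, hμ⟩ : ∃ μ : ℝ, μ = η / (4 * (1 + Am)) := ⟨_, rfl⟩
  have hμ0 : 0 < μ := by rw [hμ]; positivity
  have hμA : μ * Am ≤ η / 4 := by
    have h1 : μ * (4 * (1 + Am)) = η := by rw [hμ]; field_simp
    nlinarith
  have hμη : μ ≤ η / 4 := by
    have h1 : μ * (4 * (1 + Am)) = η := by rw [hμ]; field_simp
    nlinarith
  -- the unit `u`
  obtain ⟨u, huJ, hu0, hu1, huw, -⟩ := hQCU A J hJ wl.length 0 wl.get (fun i => i.elim0) (η / 16)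
    (fun j => hwJ _ (List.get_mem _ _)) (by positivity)
  have hu1' : ‖u‖ ≤ 1 := (CStarAlgebra.norm_le_one_iff_of_nonneg u hu0).2 hu1
  have hus : star u = u := (IsSelfAdjoint.of_nonneg hu0).star_eq
  have huw' : ∀ x ∈ wl, ‖u * x - x‖ ≤ η / 16 ∧ ‖x * u - x‖ ≤ η / 16 := by
    intro x hx
    obtain ⟨i, rfl⟩ := List.mem_iff_get.1 hx
    exact huw i
  -- the approximation
  obtain ⟨N, L, ρ₀, c, hρ₀, hρc₀⟩ := hcpf zl.length (fun i => u * zl.get i * u) (μ / 8)
    (by positivity)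
  obtain ⟨ρ, hρdef⟩ : ∃ ρ : A →ₗ[ℂ] Matrix (Fin N) (Fin N) ℂ, ρ = ρ₀.comp (cj u) := ⟨_, rfl⟩
  have hρ : CPto ρ := by rw [hρdef]; exact cpto ρ₀ hρ₀ u hus
  have hρJ : CarJ J ρ := by rw [hρdef]; exact carJ hQCU hJ ρ₀ hρ₀ u huJ hu1'
  have hρc : ∀ j, ‖∑ l, ∑ p, ∑ q, ρ (zl.get j) p q • (star (c l p) * c l q) -
      u * zl.get j * u‖ ≤ μ / 8 := by
    intro j
    rw [hρdef]
    exact hρc₀ j
  obtain ⟨S, hS⟩ : ∃ S : ℝ, S = ∑ x : Fin L × Fin N, ‖c x.1 x.2‖ := ⟨_, rfl⟩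
  have hS0 : 0 ≤ S := by rw [hS]; exact Finset.sum_nonneg fun j _ => norm_nonneg _
  obtain ⟨ε₂, hε₂⟩ : ∃ ε₂ : ℝ, ε₂ = μ / (8 * (4 * S ^ 2 + 1)) := ⟨_, rfl⟩
  have hε₂0 : 0 < ε₂ := by rw [hε₂]; positivity
  obtain ⟨D, g, hDJ, hgJ, hg0, hg1, hD⟩ := hGL A J hDt.d0 N ρ zl.length zl.get ε₂ hρ hρJ hε₂0
  -- more constants
  obtain ⟨P, hP⟩ : ∃ P : ℝ, P = ∑ i : Fin zl.length,
    ∑ l, ∑ p, ∑ q, ‖ρ (zl.get i) p q‖ * ‖c l p‖ * ‖c l q‖ := ⟨_, rfl⟩
  obtain ⟨P', hP'⟩ : ∃ P' : ℝ, P' = ∑ i : Fin zl.length,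
    ∑ l, ∑ p, ∑ q : Fin N, ‖ρ (zl.get i) p q‖ * ‖c l p‖ := ⟨_, rfl⟩
  have hP0 : 0 ≤ P := by rw [hP]; positivity
  have hP'0 : 0 ≤ P' := by rw [hP']; positivity
  have hPi : ∀ i : Fin zl.length, ∑ l, ∑ p, ∑ q, ‖ρ (zl.get i) p q‖ * ‖c l p‖ * ‖c l q‖ ≤ P := by
    intro i
    rw [hP]
    exact Finset.single_le_sum (f := fun i : Fin zl.length =>
      ∑ l, ∑ p, ∑ q, ‖ρ (zl.get i) p q‖ * ‖c l p‖ * ‖c l q‖)
      (fun j _ => by positivity) (Finset.mem_univ i)
  have hP'i : ∀ i : Fin zl.length, ∑ l, ∑ p, ∑ q : Fin N, ‖ρ (zl.get i) p q‖ * ‖c l p‖ ≤ P' := by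
    intro i
    rw [hP']
    exact Finset.single_le_sum (f := fun i : Fin zl.length =>
      ∑ l, ∑ p, ∑ q : Fin N, ‖ρ (zl.get i) p q‖ * ‖c l p‖)
      (fun j _ => by positivity) (Finset.mem_univ i)
  obtain ⟨Q, hQ⟩ : ∃ Q : ℝ, Q = ∑ x : Fin L × Fin N, ‖D x.2‖ * ‖c x.1 x.2‖ := ⟨_, rfl⟩
  have hQ0 : 0 ≤ Q := by rw [hQ]; positivity
  obtain ⟨ε₃, hε₃⟩ : ∃ ε₃ : ℝ, ε₃ = min (μ / (8 * (P + 1))) (ε / (2 * (Q + 1))) := ⟨_, rfl⟩
  have hε₃0 : 0 < ε₃ := by rw [hε₃]; exact lt_min (by positivity) (by positivity)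
  obtain ⟨k₀, y₀, K, δ₁, hδ₁, hrow⟩ := hSIR A J hDt g hgJ L ε₃ hg0 hg1 hε₃0
  -- the second unit
  obtain ⟨ε₄, hε₄⟩ : ∃ ε₄ : ℝ, ε₄ = min (μ / (32 * (P' + 1))) (μ / (32 * (B + 1))) := ⟨_, rfl⟩
  have hε₄0 : 0 < ε₄ := by rw [hε₄]; exact lt_min (by positivity) (by positivity)
  have hε₄P : ε₄ * P' ≤ μ / 32 := by
    have h1 : ε₄ ≤ μ / (32 * (P' + 1)) := by rw [hε₄]; exact min_le_left _ _
    rw [le_div_iff₀ (by positivity)] at h1
    nlinarith
  have hε₄B : ε₄ * B ≤ μ / 32 := by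
    have h1 : ε₄ ≤ μ / (32 * (B + 1)) := by rw [hε₄]; exact min_le_right _ _
    rw [le_div_iff₀ (by positivity)] at h1
    nlinarith
  obtain ⟨v, hvJ, hv0, hv1, hvu, hvc⟩ := hQCU A J hJ 1 (L * N) (fun _ => u)
    (fun x => c (finProdFinEquiv.symm x).1 (finProdFinEquiv.symm x).2) ε₄ (fun _ => huJ) hε₄0
  have hv1' : ‖v‖ ≤ 1 := (CStarAlgebra.norm_le_one_iff_of_nonneg v hv0).2 hv1
  have hvs : star v = v := (IsSelfAdjoint.of_nonneg hv0).star_eq
  have hvc' : ∀ l p, ‖v * c l p - c l p * v‖ ≤ ε₄ := by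
    intro l p
    have h := hvc (finProdFinEquiv (l, p))
    rwa [Equiv.symm_apply_apply] at h
  obtain ⟨yl, hyl⟩ : ∃ yl : List A, yl = (List.ofFn y₀ ++ List.ofFn D ++
    List.ofFn (fun x : Fin (L * N) => c (finProdFinEquiv.symm x).1 (finProdFinEquiv.symm x).2)) ++
    (u :: List.ofFn a) :=
    ⟨_, rfl⟩
  obtain ⟨δ, hδ⟩ : ∃ δ : ℝ, δ = min (min δ₁ (η / 16)) (min (min (μ / (32 * (P' + 1)))
    (μ / (32 * (B + 1)))) (ε / (2 * (2 * S + 1)))) := ⟨_, rfl⟩
  have hδ0 : 0 < δ := by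
    rw [hδ]
    exact lt_min (lt_min hδ₁ (by positivity)) (lt_min (lt_min (by positivity) (by positivity))
      (by positivity))
  have hδ1 : δ ≤ δ₁ := by rw [hδ]; exact (min_le_left _ _).trans (min_le_left _ _)
  have hδη : δ ≤ η / 16 := by rw [hδ]; exact (min_le_left _ _).trans (min_le_right _ _)
  have hδP : δ * P' ≤ μ / 32 := by
    have h1 : δ ≤ μ / (32 * (P' + 1)) := by
      rw [hδ]; exact (min_le_right _ _).trans ((min_le_left _ _).trans (min_le_left _ _))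
    rw [le_div_iff₀ (by positivity)] at h1
    nlinarith
  have hδB : δ * B ≤ μ / 32 := by
    have h1 : δ ≤ μ / (32 * (B + 1)) := by
      rw [hδ]; exact (min_le_right _ _).trans ((min_le_left _ _).trans (min_le_right _ _))
    rw [le_div_iff₀ (by positivity)] at h1
    nlinarith
  have hδ3 : δ ≤ ε / (2 * (2 * S + 1)) := by
    rw [hδ]; exact (min_le_right _ _).trans (min_le_right _ _)
  refine ⟨yl.length, yl.get, K, δ, hδ0, ?_⟩
  intro e f he0 he1 hf0 hf1 hcomm hT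
  have hmem : ∀ y ∈ yl, ‖e * y - y * e‖ ≤ δ ∧ ‖f * y - y * f‖ ≤ δ := by
    intro y hy
    obtain ⟨j, rfl⟩ := List.mem_iff_get.1 hy
    exact hcomm j
  have hfy : ∀ j, ‖f * y₀ j - y₀ j * f‖ ≤ δ₁ := by
    intro j
    refine (hmem (y₀ j) ?_).2.trans hδ1
    rw [hyl, List.mem_append, List.mem_append, List.mem_append]
    left; left; left
    rw [List.mem_ofFn]
    exact ⟨j, rfl⟩
  have hfD : ∀ p, ‖f * D p - D p * f‖ ≤ δ := by
    intro p
    refine (hmem (D p) ?_).2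
    rw [hyl, List.mem_append, List.mem_append, List.mem_append]
    left; left; right
    rw [List.mem_ofFn]
    exact ⟨p, rfl⟩
  have hec : ∀ l p, ‖e * c l p - c l p * e‖ ≤ δ := by
    intro l p
    refine (hmem (c l p) ?_).1
    rw [hyl, List.mem_append, List.mem_append]
    left; right
    rw [List.mem_ofFn]
    refine ⟨finProdFinEquiv (l, p), ?_⟩
    rw [Equiv.symm_apply_apply]
  have heu : ‖e * u - u * e‖ ≤ δ := by
    refine (hmem u ?_).1
    rw [hyl, List.mem_append]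
    right
    exact List.mem_cons_self
  have hea : ∀ j, ‖e * a j - a j * e‖ ≤ δ := by
    intro j
    refine (hmem (a j) ?_).1
    rw [hyl, List.mem_append]
    right
    apply List.mem_cons_of_mem
    rw [List.mem_ofFn]
    exact ⟨j, rfl⟩
  have he1' : ‖e‖ ≤ 1 := (CStarAlgebra.norm_le_one_iff_of_nonneg e he0).2 he1
  -- the element `v e v`
  obtain ⟨e', he'⟩ : ∃ e' : A, e' = v * e * v := ⟨_, rfl⟩
  have heJ : e' ∈ J := by
    rw [he']
    exact (hJ.2.2.1 _ (hJ.2.2.1 v hvJ e).2 v).2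
  have he'0 : 0 ≤ e' := by
    have h := star_left_conjugate_nonneg he0 v
    rwa [hvs, ← he'] at h
  have he'1 : e' ≤ 1 := by
    have h := star_left_conjugate_le_conjugate he1 v
    rw [hvs, mul_one, ← he'] at h
    exact h.trans (sq_le_one' v hv0 hv1)
  have hTe : ∀ T : TX A, (T.1.f e').re ≤ δ₁ ∧ 1 / 4 ≤ (T.1.f (f ^ K)).re := by
    intro T
    refine ⟨?_, (hT T).2⟩
    rw [he']
    exact (tr_conj T.1 v e hv0 hv1 he0).trans ((hT T).1.trans hδ1)
  obtain ⟨r, hr2, hrf, hrr⟩ := hrow e' f heJ he'0 he'1 hf0 hf1 hfy hTe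
  have hk : ‖cut ε₃ e' - e'‖ ≤ ε₃ := SI_cut e' he'0 ε₃ hε₃0.le
  have he'n : ‖e'‖ ≤ 1 := (CStarAlgebra.norm_le_one_iff_of_nonneg e' he'0).2 he'1
  have hec' : ∀ l p, ‖e' * c l p - c l p * e'‖ ≤ δ + 2 * ε₄ := by
    intro l p
    rw [he']
    exact com_conj e v (c l p) δ ε₄ he1' hv1' (hvc' l p) (hec l p)
  have main : ∀ z ∈ zl, ‖star (SI_s D r c) * z * SI_s D r c - u * z * u * e‖ ≤ μ := by
    intro z hz
    obtain ⟨j, rfl⟩ := List.mem_iff_get.1 hz
    have s1 := SI_step1 D r r c (zl.get j) g (fun p q => ρ (zl.get j) p q) ε₂ hε₂0.le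
      (fun l => hr2 _) (fun l => hr2 _) (fun p q => hD j p q)
    have s2 := SI_step2 r r c g (cut ε₃ e') (fun p q => ρ (zl.get j) p q) True
      (fun l l' => by
        rw [hrr]
        simp only [true_and])
    rw [s2, ← hS, if_pos trivial] at s1
    have b1 : 4 * ε₂ * S ^ 2 ≤ μ / 8 := by
      have h5 : ε₂ * (8 * (4 * S ^ 2 + 1)) = μ := by rw [hε₂]; field_simp
      nlinarith
    have s3 := SI_step3 c (cut ε₃ e') e' (fun p q => ρ (zl.get j) p q) ε₃ (δ + 2 * ε₄) hk hec'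
      (by positivity)
    have s4 := hρc j
    have b2 : ε₃ * (∑ l, ∑ p, ∑ q, ‖ρ (zl.get j) p q‖ * ‖c l p‖ * ‖c l q‖) ≤ μ / 8 := by
      have h5 : ε₃ ≤ μ / (8 * (P + 1)) := by rw [hε₃]; exact min_le_left _ _
      calc ε₃ * (∑ l, ∑ p, ∑ q, ‖ρ (zl.get j) p q‖ * ‖c l p‖ * ‖c l q‖)
          ≤ μ / (8 * (P + 1)) * (P + 1) := by
            apply mul_le_mul h5 ((hPi j).trans (by linarith)) (by positivity) (by positivity)
        _ = μ / 8 := by field_simp
    have b3 : (δ + 2 * ε₄) * (∑ l, ∑ p, ∑ q : Fin N, ‖ρ (zl.get j) p q‖ * ‖c l p‖) ≤ μ / 8 := by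
      calc (δ + 2 * ε₄) * (∑ l, ∑ p, ∑ q : Fin N, ‖ρ (zl.get j) p q‖ * ‖c l p‖)
          ≤ (δ + 2 * ε₄) * P' := by
            apply mul_le_mul_of_nonneg_left (hP'i j) (by positivity)
        _ ≤ μ / 8 := by linarith
    have s5 : ‖(∑ l, ∑ p, ∑ q, ρ (zl.get j) p q • (star (c l p) * c l q)) * e' -
        u * zl.get j * u * e'‖ ≤ μ / 8 := by
      rw [← sub_mul]
      have := norm_mul_le_of_le s4 he'n
      linarith
    have s6 : ‖u * zl.get j * u * e' - u * zl.get j * u * e‖ ≤ μ / 8 := by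
      rw [he']
      refine (conj_est u (zl.get j) e v B δ ε₄ hu1' he1' hv1' (hBz _ hz) (hvu 0).2 heu).trans ?_
      linarith
    calc ‖star (SI_s D r c) * zl.get j * SI_s D r c - u * zl.get j * u * e‖
        = ‖(star (SI_s D r c) * zl.get j * SI_s D r c -
            ∑ l, ∑ p, ∑ q, ρ (zl.get j) p q • (star (c l p) * cut ε₃ e' * c l q)) +
          (∑ l, ∑ p, ∑ q, ρ (zl.get j) p q • (star (c l p) * cut ε₃ e' * c l q) -
            (∑ l, ∑ p, ∑ q, ρ (zl.get j) p q • (star (c l p) * c l q)) * e') +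
          ((∑ l, ∑ p, ∑ q, ρ (zl.get j) p q • (star (c l p) * c l q)) * e' -
            u * zl.get j * u * e') + (u * zl.get j * u * e' - u * zl.get j * u * e)‖ := by
          congr 1
          abel
      _ ≤ μ / 8 + (μ / 8 + μ / 8) + μ / 8 + μ / 8 := by
          refine (norm_add_le _ _).trans (add_le_add ?_ s6)
          refine (norm_add_le _ _).trans (add_le_add ?_ s5)
          refine (norm_add_le _ _).trans (add_le_add (s1.trans b1) (s3.trans ?_))
          exact add_le_add b2 b3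
      _ ≤ μ := by linarith
  -- consequences
  have m1 : ‖star (SI_s D r c) * SI_s D r c - u * u * e‖ ≤ μ := by
    have h := main 1 hz1
    simpa using h
  have m2 : ∀ x ∈ wl, ‖star (SI_s D r c) * x * SI_s D r c - x * e‖ ≤ η := by
    intro x hx
    have h1 := main x (hzw x hx)
    have h2 := uxu u x (η / 16) hu1' (huw' x hx).1 (huw' x hx).2
    have h3 := norm_mul_le_of_le h2 he1'
    have e1 : star (SI_s D r c) * x * SI_s D r c - x * e =
        (star (SI_s D r c) * x * SI_s D r c - u * x * u * e) + (u * x * u - x) * e := by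
      noncomm_ring
    rw [e1]
    have h4 := norm_add_le (star (SI_s D r c) * x * SI_s D r c - u * x * u * e)
      ((u * x * u - x) * e)
    linarith
  have m3 : ∀ j, ‖(star (SI_s D r c) * SI_s D r c - e) * a j‖ ≤ η / 2 := by
    intro j
    have e1 : (star (SI_s D r c) * SI_s D r c - e) * a j =
        (star (SI_s D r c) * SI_s D r c - u * u * e) * a j + (u * u * e - e) * a j := by
      noncomm_ring
    rw [e1]
    have h1 := norm_mul_le_of_le m1 (haAm j)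
    have h2 := uea u e (a j) (η / 16) δ hu1' he1' (huw' _ (hwa j)).1 (hea j)
    have h3 := norm_add_le ((star (SI_s D r c) * SI_s D r c - u * u * e) * a j)
      ((u * u * e - e) * a j)
    linarith
  have m4 : ∀ j, ‖star (SI_s D r c) * SI_s D r c * a j - a j * e‖ ≤ η := by
    intro j
    have e1 : star (SI_s D r c) * SI_s D r c * a j - a j * e =
        (star (SI_s D r c) * SI_s D r c - e) * a j + (e * a j - a j * e) := by
      noncomm_ring
    rw [e1]
    have h3 := norm_add_le ((star (SI_s D r c) * SI_s D r c - e) * a j) (e * a j - a j * e)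
    have h4 := m3 j
    have h5 := hea j
    linarith
  refine ⟨SI_s D r c, ?_, ?_, ?_⟩
  · have h1 : ‖star (SI_s D r c) * SI_s D r c‖ ≤ μ + 1 * 1 * 1 := by
      have e1 : star (SI_s D r c) * SI_s D r c =
          (star (SI_s D r c) * SI_s D r c - u * u * e) + u * u * e := by abel
      rw [e1]
      refine (norm_add_le _ _).trans (add_le_add m1 ?_)
      exact norm_mul_le_of_le (norm_mul_le_of_le hu1' hu1') he1'
    rw [CStarRing.norm_star_mul_self] at h1
    nlinarith [norm_nonneg (SI_s D r c)]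
  · have h1 := SI_f D r c f ε₃ δ hε₃0.le hδ0.le (fun l => hr2 _) (fun l => hrf _) hfD
    rw [← hQ, ← hS] at h1
    have h2 : ε₃ * Q ≤ ε / 2 := by
      have h5 : ε₃ ≤ ε / (2 * (Q + 1)) := by rw [hε₃]; exact min_le_right _ _
      calc ε₃ * Q ≤ ε / (2 * (Q + 1)) * (Q + 1) :=
            mul_le_mul h5 (by linarith) hQ0 (by positivity)
        _ = ε / 2 := by field_simp
    have h3 : δ * (2 * S) ≤ ε / 2 := by
      calc δ * (2 * S) ≤ ε / (2 * (2 * S + 1)) * (2 * S + 1) :=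
            mul_le_mul hδ3 (by linarith) (by positivity) (by positivity)
        _ = ε / 2 := by field_simp
    linarith
  · intro j
    refine ⟨?_, (m3 j).trans (by linarith)⟩
    have h1 := SIJx.comm (SI_s D r c) (a j) e η (m4 j) (m2 _ (hwa j)) (m2 _ (hws j))
      (m2 _ (hwq j)) ((hea j).trans (by linarith))
    have h2 : η * (4 * ‖a j‖ + 1) ≤ ε ^ 2 := by
      refine le_trans ?_ hηε2
      have := haAm j
      gcongr
    exact (sq_le_sq₀ (norm_nonneg _) hε.le).1 (h1.trans h2)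

end Pool.Agent.H327R4.NJ
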