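import Pool.Agent.H327R4.NJ.Stubs
import Pool.Agent.H327R4.SI.TX3

/-!
# X3J: states carried by an ideal are approximated by convex combinations of excised values
-/

set_option autoImplicit false

namespace Pool.Agent.H327R4.NJ.X3Jaux

open Filter Topology Pool.Agent.H327R4.Pure ComplexConjugate Pool.Agent.H327R4.NJ
open Pool.Agent.H327R4.SI (RI Ex StRIB StX1 StX2 IsSt)
open Pool.Agent.H327R4.SI.X3aux (Ex_mono Ex_near Ex_sum Ex_star Ex_re Ex_uniq Ex_bound st_star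
  st_nonneg functional)

universe u

section st

variable {B : Type u} [CStarAlgebra B] [PartialOrder B] [StarOrderedRing B]

lemma st_mono {Ψ : B →ₗ[ℂ] ℂ} (hΨ : IsSt Ψ) {x y : B} (h : x ≤ y) : (Ψ x).re ≤ (Ψ y).re := by
  have h1 := st_nonneg hΨ (sub_nonneg.2 h)
  rw [map_sub, Complex.sub_re] at h1
  linarith

lemma st_norm {Ψ : B →ₗ[ℂ] ℂ} (hΨ : IsSt Ψ) (z : B) : (Ψ (star z * z)).re ≤ ‖z‖ ^ 2 := by
  have h1 : star z * z ≤ algebraMap ℝ B ‖star z * z‖ :=
    (IsSelfAdjoint.star_mul_self z).le_algebraMap_norm_self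
  have h2 := st_mono hΨ h1
  have h3 : algebraMap ℝ B ‖star z * z‖ = ((‖star z * z‖ : ℝ) : ℂ) • (1 : B) := by
    rw [Algebra.algebraMap_eq_smul_one, Complex.coe_smul]
  rw [h3, map_smul, hΨ.1, CStarRing.norm_star_mul_self] at h2
  simp only [smul_eq_mul, mul_one, Complex.ofReal_re] at h2
  rw [sq]
  exact h2

omit [PartialOrder B] [StarOrderedRing B] in
/-- Cauchy-Schwarz with a parameter -/
lemma st_cs {Ψ : B →ₗ[ℂ] ℂ} (hΨ : IsSt Ψ) (a b : B) (lam : ℝ) (hl : 0 < lam) :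
    2 * (Ψ (star a * b)).re ≤ lam * (Ψ (star a * a)).re + lam⁻¹ * (Ψ (star b * b)).re := by
  set t : ℝ := Real.sqrt lam with ht
  have ht0 : 0 < t := Real.sqrt_pos.2 hl
  have htt : t * t = lam := Real.mul_self_sqrt hl.le
  have h1 := (hΨ.2 ((t : ℂ) • a - ((t⁻¹ : ℝ) : ℂ) • b)).1
  have h2 : star ((t : ℂ) • a - ((t⁻¹ : ℝ) : ℂ) • b) * ((t : ℂ) • a - ((t⁻¹ : ℝ) : ℂ) • b) =
      ((lam : ℝ) : ℂ) • (star a * a) + ((lam⁻¹ : ℝ) : ℂ) • (star b * b) -
        (star a * b + star b * a) := by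
    have e1 : ((t : ℂ)) * (t : ℂ) = ((lam : ℝ) : ℂ) := by
      rw [← Complex.ofReal_mul, htt]
    have e2 : (((t⁻¹ : ℝ) : ℂ)) * ((t⁻¹ : ℝ) : ℂ) = ((lam⁻¹ : ℝ) : ℂ) := by
      rw [← Complex.ofReal_mul, ← mul_inv, htt]
    have e3 : ((t : ℂ)) * ((t⁻¹ : ℝ) : ℂ) = 1 := by
      rw [← Complex.ofReal_mul, mul_inv_cancel₀ ht0.ne', Complex.ofReal_one]
    rw [star_sub, star_smul, star_smul, Complex.star_def, Complex.conj_ofReal,
      Complex.conj_ofReal, sub_mul, mul_sub, mul_sub, smul_mul_smul_comm, smul_mul_smul_comm,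
      smul_mul_smul_comm, smul_mul_smul_comm, e1, e2, e3, mul_comm (((t⁻¹ : ℝ) : ℂ)) (t : ℂ), e3,
      one_smul, one_smul]
    abel
  rw [h2] at h1
  have h3 : (Ψ (star b * a)).re = (Ψ (star a * b)).re := by
    have h4 : star b * a = star (star a * b) := by rw [star_mul, star_star]
    rw [h4, st_star hΨ, Complex.conj_re]
  rw [map_sub, map_add, map_add, map_smul, map_smul] at h1
  simp only [Complex.sub_re, Complex.add_re, smul_eq_mul, Complex.re_ofReal_mul] at h1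
  rw [h3] at h1
  linarith

end st

lemma RI_sub {B : Type u} [CStarAlgebra B] {J : Set B} (hJ : IsId J) {u : B} (hu : u ∈ J) :
    RI u ⊆ J := by
  refine closure_minimal ?_ hJ.2.2.2
  rintro _ ⟨t, rfl⟩
  exact (hJ.2.2.1 u hu t).2

/-- the set of values which are jointly excised in `J` -/
def V {B : Type u} [CStarAlgebra B] [PartialOrder B] {k : ℕ} (J : Set B) (y : Fin k → B) :
    Set (Fin k → ℂ) :=
  {v | ∀ ε' : ℝ, 0 < ε' → ∃ a ∈ J, 0 ≤ a ∧ a ≠ 0 ∧ ∀ i, Ex ε' a (y i) (v i)}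

/-- a good element of the ideal -/
lemma good {B : Type u} [CStarAlgebra B] [PartialOrder B] [StarOrderedRing B] {J : Set B}
    {Ψ : B →ₗ[ℂ] ℂ} (hΨ : IsStJ J Ψ) (yc : B) (hsa : IsSelfAdjoint yc) (η : ℝ) (hη : 0 < η) :
    ∃ u ∈ J, 0 ≤ u ∧ u ≠ 0 ∧ (Ψ yc).re - η / 2 ≤ (Ψ (star u * yc * u)).re ∧
      (Ψ (star u * u)).re ≤ 1 ∧ 1 - (Ψ (star u * u)).re ≤ η / (2 * (‖yc‖ + 1)) := by
  obtain ⟨hst, hcar⟩ := hΨ
  set M : ℝ := ‖yc‖ + 1 with hM
  have hM1 : 1 ≤ M := by
    have := norm_nonneg yc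
    linarith
  have hM0 : 0 < M := by linarith
  set lam : ℝ := 4 * M ^ 2 / η with hlam
  have hlam0 : 0 < lam := by positivity
  set ε : ℝ := min (1 / 2) (min (η / (4 * lam)) (η / (4 * M))) with hε
  have hε0 : 0 < ε := by
    refine lt_min (by norm_num) (lt_min (by positivity) (by positivity))
  have hε1 : ε ≤ 1 / 2 := min_le_left _ _
  have hε2 : ε ≤ η / (4 * lam) := (min_le_right _ _).trans (min_le_left _ _)
  have hε3 : ε ≤ η / (4 * M) := (min_le_right _ _).trans (min_le_right _ _)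
  obtain ⟨u, huJ, hu0, hu1, hΨu⟩ := hcar ε hε0
  have husa : star u = u := (IsSelfAdjoint.of_nonneg hu0).star_eq
  have h1u0 : 0 ≤ 1 - u := sub_nonneg.2 hu1
  have h1u1 : 1 - u ≤ 1 := by
    rw [sub_le_self_iff]
    exact hu0
  have h1usa : star (1 - u) = 1 - u := (IsSelfAdjoint.of_nonneg h1u0).star_eq
  have hsq : ∀ v : B, 0 ≤ v → v ≤ 1 → v * v ≤ v := by
    intro v hv0 hv1
    have := CStarAlgebra.pow_antitone hv0 hv1 (show 1 ≤ 2 by norm_num)
    simpa [sq] using this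
  have hone : (Ψ (1 : B)).re = 1 := by rw [hst.1]; simp
  have hd : (Ψ ((1 - u) * (1 - u))).re ≤ ε := by
    have h1 := st_mono hst (hsq _ h1u0 h1u1)
    rw [map_sub (f := Ψ) 1 u, Complex.sub_re, hone] at h1
    linarith
  have hq1 : (Ψ (u * u)).re ≤ 1 := by
    have h1 := st_mono hst ((hsq u hu0 hu1).trans hu1)
    rwa [hone] at h1
  have hq2 : 1 - 2 * ε ≤ (Ψ (u * u)).re := by
    have h1 := (hst.2 (1 - u)).1
    have h2 : star (1 - u) * (1 - u) = 1 - u - u + u * u := by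
      rw [h1usa]; noncomm_ring
    rw [h2, map_add, map_sub, map_sub] at h1
    simp only [Complex.add_re, Complex.sub_re] at h1
    rw [hone] at h1
    linarith
  have hune : u ≠ 0 := by
    rintro rfl
    rw [map_zero, Complex.zero_re] at hΨu
    linarith
  have hnu : ‖u‖ ≤ 1 := (CStarAlgebra.norm_le_one_iff_of_nonneg u hu0).2 hu1
  refine ⟨u, huJ, hu0, hune, ?_, ?_, ?_⟩
  · rw [husa]
    have e1 : yc = u * yc * u + star (1 - u) * yc + star (yc * u) * (1 - u) := by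
      rw [h1usa, star_mul, husa, hsa.star_eq]
      noncomm_ring
    have c1 := st_cs hst (1 - u) yc lam hlam0
    have c2 := st_cs hst (yc * u) (1 - u) lam⁻¹ (inv_pos.2 hlam0)
    rw [inv_inv] at c2
    rw [h1usa] at c1
    have n1 : (Ψ (star yc * yc)).re ≤ M ^ 2 := by
      refine (st_norm hst yc).trans ?_
      have := norm_nonneg yc
      nlinarith
    have n2 : (Ψ (star (yc * u) * (yc * u))).re ≤ M ^ 2 := by
      refine (st_norm hst (yc * u)).trans ?_
      have h3 : ‖yc * u‖ ≤ M := by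
        refine (norm_mul_le _ _).trans ?_
        have := norm_nonneg yc
        nlinarith [norm_nonneg u]
      have := norm_nonneg (yc * u)
      nlinarith
    have m1 : lam⁻¹ * (Ψ (star yc * yc)).re ≤ η / 4 := by
      calc lam⁻¹ * (Ψ (star yc * yc)).re ≤ lam⁻¹ * M ^ 2 :=
            mul_le_mul_of_nonneg_left n1 (inv_pos.2 hlam0).le
        _ = η / 4 := by rw [hlam]; field_simp
    have m2 : lam⁻¹ * (Ψ (star (yc * u) * (yc * u))).re ≤ η / 4 := by
      calc lam⁻¹ * (Ψ (star (yc * u) * (yc * u))).re ≤ lam⁻¹ * M ^ 2 :=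
            mul_le_mul_of_nonneg_left n2 (inv_pos.2 hlam0).le
        _ = η / 4 := by rw [hlam]; field_simp
    have m3 : lam * (Ψ ((1 - u) * (1 - u))).re ≤ η / 4 := by
      calc lam * (Ψ ((1 - u) * (1 - u))).re ≤ lam * (η / (4 * lam)) :=
            mul_le_mul_of_nonneg_left (hd.trans hε2) hlam0.le
        _ = η / 4 := by field_simp
    have m4 : (Ψ yc).re = (Ψ (u * yc * u)).re + (Ψ (star (1 - u) * yc)).re +
        (Ψ (star (yc * u) * (1 - u))).re := by
      conv_lhs => rw [e1]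
      rw [map_add, map_add, Complex.add_re, Complex.add_re]
    rw [h1usa] at m4 c2
    linarith
  · rw [husa]
    exact hq1
  · rw [husa]
    have h1 : 2 * ε ≤ η / (2 * M) := by
      calc 2 * ε ≤ 2 * (η / (4 * M)) := by linarith
        _ = η / (2 * M) := by field_simp; ring
    linarith

theorem mem_closure_hull (hRIB : StRIB.{u}) (hX2 : StX2.{u}) (B : Type u) [CStarAlgebra B]
    [PartialOrder B] [StarOrderedRing B] (J : Set B) (hJ : IsId J) (Ψ : B →ₗ[ℂ] ℂ) (k : ℕ)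
    (y : Fin k → B) (hΨ : IsStJ J Ψ) : (fun i => Ψ (y i)) ∈ closure (convexHull ℝ (V J y)) := by
  by_contra hcon
  obtain ⟨f, u, hfu, huf⟩ := geometric_hahn_banach_closed_point
    ((convex_convexHull ℝ (V J y)).closure) isClosed_closure hcon
  obtain ⟨γ, hγ⟩ := functional f
  set Y : B := ∑ i, γ i • y i with hY
  set yc : B := (1 / 2 : ℂ) • (Y + star Y) with hyc
  have hsa : IsSelfAdjoint yc := by
    rw [IsSelfAdjoint, hyc, star_smul, star_add, star_star, add_comm]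
    congr 1
    simp
  have hΨyc : (Ψ yc).re = f (fun i => Ψ (y i)) := by
    rw [hγ, hyc, map_smul, map_add, st_star hΨ.1, Complex.add_conj, hY, map_sum]
    simp
  have hη : 0 < (Ψ yc).re - u := by
    rw [hΨyc]
    linarith
  obtain ⟨u0, hu0J, hu00, hu0ne, hg1, hg2, hg3⟩ := good hΨ yc hsa _ hη
  have hx2 : ∀ n : ℕ, ∃ (a : B) (l : ℝ) (μ : Fin k → ℂ), a ∈ J ∧ 0 ≤ a ∧ a ≠ 0 ∧
      Ex (1 / ((n : ℝ) + 1)) a yc l ∧ (∀ i, Ex (1 / ((n : ℝ) + 1)) a (y i) (μ i)) ∧
      u ≤ l := by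
    intro n
    obtain ⟨a, l, μ, h0, h1, haR, h3, h4, h5⟩ := hX2 B u0 yc k y (1 / ((n : ℝ) + 1)) hu00
      hu0ne hsa (by positivity)
    refine ⟨a, l, μ, RI_sub hJ hu0J haR, h0, h1, h3, h4, ?_⟩
    have h6 := h5 u0 ((hRIB B).1 u0)
    have h8 := st_mono hΨ.1 h6
    have h9 : (Ψ (l • (star u0 * u0))).re = l * (Ψ (star u0 * u0)).re := by
      have : l • (star u0 * u0) = (l : ℂ) • (star u0 * u0) := by
        rw [Complex.coe_smul]
      rw [this, map_smul, smul_eq_mul, Complex.re_ofReal_mul]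
    rw [h9] at h8
    have hlb : ‖(l : ℂ)‖ ≤ ‖yc‖ + 1 := by
      refine (Ex_bound hRIB h1 h3).trans ?_
      have : 1 / ((n : ℝ) + 1) ≤ 1 := by
        rw [div_le_one (by positivity)]
        have : (0 : ℝ) ≤ n := Nat.cast_nonneg n
        linarith
      linarith
    rw [Complex.norm_real, Real.norm_eq_abs] at hlb
    have hyp : 0 < ‖yc‖ + 1 := by
      have := norm_nonneg yc
      linarith
    have h10 : |l| * (1 - (Ψ (star u0 * u0)).re) ≤ ((Ψ yc).re - u) / 2 := by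
      calc |l| * (1 - (Ψ (star u0 * u0)).re)
          ≤ (‖yc‖ + 1) * (((Ψ yc).re - u) / (2 * (‖yc‖ + 1))) :=
            mul_le_mul hlb hg3 (by linarith) hyp.le
        _ = ((Ψ yc).re - u) / 2 := by field_simp
    have h11 : -(|l| * (1 - (Ψ (star u0 * u0)).re)) ≤ l * (1 - (Ψ (star u0 * u0)).re) := by
      rw [← neg_mul]
      exact mul_le_mul_of_nonneg_right (neg_abs_le l) (by linarith)
    nlinarith
  choose a l μ haJ ha0 ha1 hExc hEx hl using hx2
  -- |l n - f (μ n)| ≤ (1 + C) / (n+1)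
  set C : ℝ := ∑ i, ‖γ i‖ with hC
  have hCnn : 0 ≤ C := Finset.sum_nonneg fun i _ => norm_nonneg _
  have hlf : ∀ n, |l n - f (μ n)| ≤ (1 + C) * (1 / ((n : ℝ) + 1)) := by
    intro n
    have h1 := Ex_re (Ex_sum γ (hEx n))
    have h2 := Ex_uniq hRIB (ha1 n) (hExc n) h1
    rw [← Complex.ofReal_sub, Complex.norm_real, Real.norm_eq_abs, ← hγ] at h2
    refine h2.trans (le_of_eq ?_)
    ring
  -- boundedness
  have hbd : ∀ n i, ‖μ n i‖ ≤ ‖y i‖ + 1 := by
    intro n i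
    refine (Ex_bound hRIB (ha1 n) (hEx n i)).trans ?_
    have : 1 / ((n : ℝ) + 1) ≤ 1 := by
      rw [div_le_one (by positivity)]
      have : (0 : ℝ) ≤ n := Nat.cast_nonneg n
      linarith
    linarith
  set R : ℝ := ∑ i, (‖y i‖ + 1) with hR
  have hRnn : 0 ≤ R := Finset.sum_nonneg fun i _ => by positivity
  have hball : ∀ n, μ n ∈ Metric.closedBall (0 : Fin k → ℂ) R := by
    intro n
    rw [mem_closedBall_zero_iff, pi_norm_le_iff_of_nonneg hRnn]
    intro i
    refine (hbd n i).trans ?_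
    exact Finset.single_le_sum (f := fun i => ‖y i‖ + 1) (fun i _ => by positivity)
      (Finset.mem_univ i)
  obtain ⟨v, -, φ, hφ, hlim⟩ := (isCompact_closedBall (0 : Fin k → ℂ) R).tendsto_subseq hball
  have hvV : v ∈ V J y := by
    intro ε' hε'
    have h1 : ∀ᶠ n in atTop, ‖μ (φ n) - v‖ < ε' / 2 := by
      have := (Metric.tendsto_nhds.mp hlim) (ε' / 2) (by positivity)
      simpa [dist_eq_norm] using this
    have h2 : ∀ᶠ n in atTop, 1 / ((φ n : ℝ) + 1) < ε' / 2 := by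
      have h3 : Tendsto (fun n : ℕ => 1 / ((n : ℝ) + 1)) atTop (𝓝 0) :=
        tendsto_one_div_add_atTop_nhds_zero_nat
      exact (h3.comp hφ.tendsto_atTop).eventually_lt_const (by positivity)
    obtain ⟨n, hn1, hn2⟩ := (h1.and h2).exists
    refine ⟨a (φ n), haJ _, ha0 _, ha1 _, fun i => ?_⟩
    have h4 : ‖μ (φ n) i - v i‖ ≤ ε' / 2 :=
      (norm_le_pi_norm (μ (φ n) - v) i).trans hn1.le
    exact Ex_mono (Ex_near (hEx (φ n) i) h4) (by linarith)
  have hfv : u ≤ f v := by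
    have h1 : Tendsto (fun n => f (μ (φ n)) + (1 + C) * (1 / ((φ n : ℝ) + 1))) atTop
        (𝓝 (f v + (1 + C) * 0)) := by
      refine Tendsto.add ((f.continuous.tendsto v).comp hlim) (Tendsto.const_mul _ ?_)
      exact tendsto_one_div_add_atTop_nhds_zero_nat.comp hφ.tendsto_atTop
    have h2 : u ≤ f v + (1 + C) * 0 := by
      refine ge_of_tendsto h1 (Eventually.of_forall fun n => ?_)
      have h3 := abs_le.mp (hlf (φ n))
      have h4 := hl (φ n)
      linarith [h3.2]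
    simpa using h2
  have h1 := hfu v (subset_closure (subset_convexHull ℝ _ hvV))
  linarith

end Pool.Agent.H327R4.NJ.X3Jaux

namespace Pool.Agent.H327R4.NJ

open Filter Topology Pool.Agent.H327R4.Pure
open Pool.Agent.H327R4.SI (RI Ex StRIB StX1 StX2)

universe u

set_option linter.unusedVariables false in
theorem t_X3J (hRIB : StRIB.{u}) (hX1 : StX1.{u}) (hX2 : StX2.{u}) : StX3J.{u} := by
  intro B _ _ _ J hD Ψ k y ε hΨ hε
  have hmem := X3Jaux.mem_closure_hull hRIB hX2 B J hD.id Ψ k y hΨ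
  obtain ⟨p, hp, hdist⟩ := Metric.mem_closure_iff.mp hmem ε hε
  rw [mem_convexHull_iff_exists_fintype] at hp
  obtain ⟨ι, hι, w, z, hw0, hw1, hz, hsum⟩ := hp
  let e := Fintype.equivFin ι
  refine ⟨Fintype.card ι, fun m => w (e.symm m), fun m => z (e.symm m), fun m => hw0 _, ?_,
    fun m ε' hε' => hz (e.symm m) ε' hε', fun i => ?_⟩
  · rw [Equiv.sum_comp e.symm w]
    exact hw1
  · have h1 : ∑ m, (((w (e.symm m) : ℝ)) : ℂ) * z (e.symm m) i = p i := by
      rw [Equiv.sum_comp e.symm (fun j => ((w j : ℝ) : ℂ) * z j i), ← hsum, Finset.sum_apply]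
      refine Finset.sum_congr rfl fun j _ => ?_
      simp
    rw [h1]
    have h2 : ‖(fun i => Ψ (y i)) - p‖ < ε := by
      rw [← dist_eq_norm]; exact hdist
    have h3 := norm_le_pi_norm ((fun i => Ψ (y i)) - p) i
    rw [Pi.sub_apply, norm_sub_rev] at h3
    linarith

end Pool.Agent.H327R4.NJ
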