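import Pool.Agent.H327R4.NJ.Stubs
import Pool.Agent.H327R4.SI.TX8
import Pool.Agent.H327R4.Pure.TCT
import Pool.Agent.H327R4.Pure.TMAT1

/-! Task X8J: matrices with entries in an ideal. -/

set_option autoImplicit false
set_option linter.unusedSectionVars false

namespace Pool.Agent.H327R4.NJ

open Filter Topology Pool.Agent.H327R4.Pure
open Pool.Agent.H327R4.SI (RI StRIB)
open Pool.Agent.H327R4.SI.TX8 (en en_apply en_sandwich en_mul en_inj)

universe u

namespace TX8J

variable {A : Type u} [CStarAlgebra A] [PartialOrder A] [StarOrderedRing A]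

theorem sum_mem {J : Set A} (hJ : IsId J) {ι : Type*} (s : Finset ι) (f : ι → A)
    (h : ∀ i ∈ s, f i ∈ J) : ∑ i ∈ s, f i ∈ J := by
  classical
  induction s using Finset.induction_on with
  | empty => simpa using hJ.1
  | insert a s ha ih =>
    rw [Finset.sum_insert ha]
    exact hJ.2.1 _ (h a (Finset.mem_insert_self a s)) _
      (ih fun i hi => h i (Finset.mem_insert_of_mem hi))

theorem cont_entry {N : ℕ} (p q : Fin N) : Continuous (fun M : MM N A => M p q) := by
  refine (LipschitzWith.of_dist_le_mul (K := 1) fun M M' => ?_).continuous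
  rw [dist_eq_norm, dist_eq_norm, NNReal.coe_one, one_mul, ← CStarMatrix.sub_apply]
  exact CStarMatrix.norm_entry_le_norm

theorem id_MJ {J : Set A} (hJ : IsId J) (N : ℕ) : IsId (MJ N J) := by
  refine ⟨fun p q => hJ.1, fun x hx y hy p q => hJ.2.1 _ (hx p q) _ (hy p q),
    fun x hx a => ⟨fun p q => ?_, fun p q => ?_⟩, ?_⟩
  · rw [CStarMatrix.mul_apply]
    exact sum_mem hJ _ _ fun i _ => (hJ.2.2.1 _ (hx i q) (a p i)).1
  · rw [CStarMatrix.mul_apply]
    exact sum_mem hJ _ _ fun i _ => (hJ.2.2.1 _ (hx p i) (a i q)).2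
  · have : MJ N J = ⋂ p, ⋂ q, (fun M : MM N A => M p q) ⁻¹' J := by
      ext M
      simp [MJ]
    rw [this]
    exact isClosed_iInter fun p => isClosed_iInter fun q => hJ.2.2.2.preimage (cont_entry p q)

theorem ri_sub {J : Set A} (hJ : IsId J) {d : A} (hd : d ∈ J) : RI d ⊆ J := by
  refine closure_minimal ?_ hJ.2.2.2
  rintro _ ⟨t, rfl⟩
  exact (hJ.2.2.1 _ hd t).2

theorem en_star {N : ℕ} (p q : Fin N) (a : A) : star (en p q a) = en q p (star a) := by
  ext i j
  rw [CStarMatrix.star_apply, en_apply, en_apply]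
  by_cases hi : q = i <;> by_cases hj : p = j <;> simp [hi, hj]

theorem en_zero {N : ℕ} (p q : Fin N) : en p q (0 : A) = 0 := by
  ext i j
  simp [en_apply]

theorem en_nonneg {N : ℕ} (k : Fin N) (a : A) (ha : 0 ≤ a) : 0 ≤ en k k a := by
  obtain ⟨b, rfl⟩ := mat1_ex a ha
  have : en k k (star b * b) = star (en k k b) * en k k b := by
    rw [en_star, en_mul]
  rw [this]
  exact star_mul_self_nonneg _

theorem diag_ne {N : ℕ} (c : MM N A) (hc : 0 ≤ c) (hn : c ≠ 0) : ∃ k, c k k ≠ 0 := by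
  by_contra h
  push Not at h
  obtain ⟨X, rfl⟩ := mat1_ex c hc
  apply hn
  have hX : X = 0 := by
    ext j k
    have h1 := h k
    rw [CStarMatrix.mul_apply] at h1
    have h2 : ∀ i ∈ (Finset.univ : Finset (Fin N)), 0 ≤ star X k i * X i k := by
      intro i _
      rw [CStarMatrix.star_apply]
      exact star_mul_self_nonneg _
    have h3 := (Finset.sum_eq_zero_iff_of_nonneg h2).1 h1 j (Finset.mem_univ j)
    rw [CStarMatrix.star_apply] at h3
    rw [CStarMatrix.zero_apply]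
    exact CStarRing.star_mul_self_eq_zero_iff _ |>.1 h3
  rw [hX, mul_zero]

theorem bd {B : Type u} [CStarAlgebra B] [PartialOrder B] [StarOrderedRing B] (c z Q : B)
    (hz : z * star z ≤ c) (hQ : 0 ≤ Q) : z * Q * star z ≤ ‖Q‖ • c := by
  have h1 : Q ≤ algebraMap ℝ B ‖Q‖ := hQ.isSelfAdjoint.le_algebraMap_norm_self
  have h2 : z * Q * star z ≤ z * algebraMap ℝ B ‖Q‖ * star z :=
    star_right_conjugate_le_conjugate h1 z
  have h3 : z * algebraMap ℝ B ‖Q‖ * star z = ‖Q‖ • (z * star z) := by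
    rw [Algebra.algebraMap_eq_smul_one, mul_smul_comm, mul_one, smul_mul_assoc]
  rw [h3] at h2
  exact h2.trans (smul_le_smul_of_nonneg_left hz (norm_nonneg _))

theorem sq_ex {B : Type u} [CStarAlgebra B] [PartialOrder B] [StarOrderedRing B] (c : B)
    (hc : 0 ≤ c) : ∃ s : B, s * s = c ∧ star s = s :=
  ⟨CFC.sqrt c, CFC.sqrt_mul_sqrt_self c hc, (CFC.sqrt_nonneg c).isSelfAdjoint.star_eq⟩

theorem g_ex (d : A) (hd : 0 ≤ d) (δ : ℝ) (hδ : 0 < δ) : ∃ g : A, g * d * g = phi δ d := by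
  refine ⟨cfc (fun t : ℝ => (Real.sqrt (max t δ))⁻¹) d, ?_⟩
  have hsa : IsSelfAdjoint d := IsSelfAdjoint.of_nonneg hd
  have hne : ∀ t : ℝ, Real.sqrt (max t δ) ≠ 0 := fun t =>
    (Real.sqrt_pos.2 (lt_max_of_lt_right hδ)).ne'
  have hc : Continuous (fun t : ℝ => (Real.sqrt (max t δ))⁻¹) :=
    Continuous.inv₀ (by fun_prop) hne
  have e1 : cfc (fun t : ℝ => (Real.sqrt (max t δ))⁻¹) d * d *
      cfc (fun t : ℝ => (Real.sqrt (max t δ))⁻¹) d =
      cfc (fun t : ℝ => (Real.sqrt (max t δ))⁻¹ * t * (Real.sqrt (max t δ))⁻¹) d := by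
    rw [cfc_mul (fun t : ℝ => (Real.sqrt (max t δ))⁻¹ * t) (fun t : ℝ => (Real.sqrt (max t δ))⁻¹) d
      (hc.mul continuous_id).continuousOn hc.continuousOn,
      cfc_mul (fun t : ℝ => (Real.sqrt (max t δ))⁻¹) (fun t : ℝ => t) d hc.continuousOn
        (by fun_prop), cfc_id' ℝ d hsa]
  rw [e1]
  unfold phi
  rw [cfcₙ_eq_cfc (f := fun x : ℝ => min 1 (x / δ)) (by fun_prop) (by simp)]
  apply cfc_congr
  intro t ht
  have ht0 : 0 ≤ t := spectrum_nonneg_of_nonneg hd ht
  simp only []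
  have h3 : (Real.sqrt (max t δ))⁻¹ * t * (Real.sqrt (max t δ))⁻¹ = t / max t δ := by
    have h4 : 0 < max t δ := lt_max_of_lt_right hδ
    have h5 : (Real.sqrt (max t δ))⁻¹ * t * (Real.sqrt (max t δ))⁻¹ =
        t / (Real.sqrt (max t δ) * Real.sqrt (max t δ)) := by
      rw [div_eq_mul_inv, mul_inv]
      ring
    rw [h5, Real.mul_self_sqrt h4.le]
  rw [h3]
  rcases le_total t δ with h | h
  · rw [max_eq_right h, min_eq_right ((div_le_one hδ).2 h)]
  · have : 0 < t := hδ.trans_le h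
    rw [max_eq_left h, min_eq_left ((one_le_div hδ).2 h), div_self this.ne']

theorem nil_MJ (hR : StRIB.{u}) {J : Set A} (hD : D0 A J) (N : ℕ) :
    ∀ c ∈ MJ N J, 0 ≤ c → c ≠ 0 → ∃ (x : MM N A) (M : ℝ), 0 < M ∧ x ≠ 0 ∧ x * x = 0 ∧
      star x * x ≤ M • c ∧ x * star x ≤ M • c := by
  intro c hc hc0 hcn
  obtain ⟨k, hk⟩ := diag_ne c hc0 hcn
  obtain ⟨d, hd⟩ : ∃ d, d = c k k := ⟨_, rfl⟩
  have hd0 : 0 ≤ d := hd ▸ mat1_diag N c hc0 k
  have hdJ : d ∈ J := hd ▸ hc k k
  have hnd : 0 < ‖d‖ := norm_pos_iff.2 (hd ▸ hk)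
  obtain ⟨δ, hδ⟩ : ∃ δ : ℝ, δ = ‖d‖ / 2 := ⟨_, rfl⟩
  have hδ0 : 0 < δ := by rw [hδ]; positivity
  have hCT := ct_holds A d hd0
  obtain ⟨r1, r2, r3, r4, r5, r6, r7, r8, r9⟩ := hR A
  have h1 : cut δ d ≠ 0 := by
    intro h
    have h2 := hCT.2.2.2.2.2.1 δ hδ0.le
    rw [h, sub_zero] at h2
    linarith
  have h1' : 0 ≤ cut δ d := hCT.1 δ
  have h1J : cut δ d ∈ J := by
    refine ri_sub hD.id hdJ ?_
    exact r6 d (fun x : ℝ => max (x - δ) 0) hd0 (by fun_prop) (by simp [hδ0.le])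
  obtain ⟨x0, M0, hM0, hx0, hxx, hx1, hx2⟩ := hD.nil _ h1J h1' h1
  have hr1 : phi δ d * x0 = x0 :=
    r7 d x0 δ hd0 hδ0 (r8 (cut δ d) x0 M0 h1' hx2)
  have hr2 : phi δ d * star x0 = star x0 :=
    r7 d (star x0) δ hd0 hδ0 (r8 (cut δ d) (star x0) M0 h1' (by rw [star_star]; exact hx1))
  have hps : star (phi δ d) = phi δ d := (hCT.2.2.2.2.2.2.2.1 δ hδ0).1.isSelfAdjoint.star_eq
  have hr3 : x0 * phi δ d = x0 := by
    have := congrArg star hr2
    rwa [star_mul, star_star, hps] at this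
  obtain ⟨g, hg⟩ := g_ex d hd0 δ hδ0
  obtain ⟨w, hw⟩ : ∃ w, w = g * x0 * g := ⟨_, rfl⟩
  have hwdw : w * d * w = 0 := by
    calc w * d * w = g * (x0 * (g * d * g) * x0) * g := by rw [hw]; simp only [mul_assoc]
      _ = 0 := by rw [hg, hr3, hxx, mul_zero, zero_mul]
  have hgw : g * d * w * d * g = x0 := by
    calc g * d * w * d * g = (g * d * g) * x0 * (g * d * g) := by rw [hw]; simp only [mul_assoc]
      _ = x0 := by rw [hg, hr1, hr3]
  obtain ⟨s, hss, hs'⟩ := sq_ex c hc0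
  obtain ⟨z, hz⟩ : ∃ z : MM N A, z = s * en k k 1 := ⟨_, rfl⟩
  have hzs : star z = en k k 1 * s := by
    rw [hz, star_mul, hs', en_star, star_one]
  have hzz : star z * z = en k k d := by
    rw [hzs, hz]
    calc en k k 1 * s * (s * en k k 1) = en k k 1 * (s * s) * en k k 1 := by
          simp only [mul_assoc]
      _ = en k k d := by rw [hss, en_sandwich, hd]
  have hzz2 : z * star z ≤ c := by
    have e1 : (en k k 1 : MM N A) ≤ 1 := by
      have e2 : (1 : MM N A) - en k k 1 = star (1 - en k k 1) * (1 - en k k 1) := by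
        rw [star_sub, star_one, en_star, star_one, sub_mul, one_mul, mul_sub, mul_one, en_mul,
          mul_one, sub_self, sub_zero]
      have e3 : (0 : MM N A) ≤ 1 - en k k 1 := by
        rw [e2]; exact star_mul_self_nonneg _
      exact sub_nonneg.1 e3
    have e4 : z * star z = s * en k k 1 * star s := by
      rw [hzs, hz, hs']
      calc s * en k k 1 * (en k k 1 * s) = s * (en k k 1 * en k k 1) * s := by
            simp only [mul_assoc]
        _ = s * en k k 1 * s := by rw [en_mul, mul_one]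
    rw [e4]
    have e5 := star_right_conjugate_le_conjugate e1 s
    rw [mul_one, hs', hss] at e5
    rw [hs']
    exact e5
  obtain ⟨W, hW⟩ : ∃ W : MM N A, W = en k k w := ⟨_, rfl⟩
  obtain ⟨Q, hQ⟩ : ∃ Q : MM N A, Q = (W * star z) * star (W * star z) := ⟨_, rfl⟩
  obtain ⟨Q', hQ'⟩ : ∃ Q' : MM N A, Q' = star (z * W) * (z * W) := ⟨_, rfl⟩
  have hQ0 : 0 ≤ Q := by rw [hQ]; exact mul_star_self_nonneg _
  have hQ0' : 0 ≤ Q' := by rw [hQ']; exact star_mul_self_nonneg _
  have hM : ∀ r : ℝ, r ≤ ‖Q‖ + ‖Q'‖ + 1 → r • c ≤ (‖Q‖ + ‖Q'‖ + 1) • c := by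
    intro r hr
    rw [← sub_nonneg, ← sub_smul]
    exact smul_nonneg (sub_nonneg.2 hr) hc0
  refine ⟨z * W * star z, ‖Q‖ + ‖Q'‖ + 1, by positivity, ?_, ?_, ?_, ?_⟩
  · intro h
    have e1 : en k k g * star z * (z * W * star z) * z * en k k g = en k k x0 := by
      calc en k k g * star z * (z * W * star z) * z * en k k g
          = en k k g * (star z * z) * W * (star z * z) * en k k g := by
            simp only [mul_assoc]
        _ = en k k x0 := by
            rw [hzz, hW, en_mul, en_mul, en_mul, en_mul, hgw]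
    rw [h, mul_zero, zero_mul, zero_mul, ← en_zero (A := A) k k] at e1
    exact hx0 (en_inj k k e1).symm
  · calc z * W * star z * (z * W * star z) = z * (W * (star z * z) * W) * star z := by
          simp only [mul_assoc]
      _ = 0 := by rw [hzz, hW, en_mul, en_mul, hwdw, en_zero, mul_zero, zero_mul]
  · have e1 : star (z * W * star z) * (z * W * star z) = z * Q' * star z := by
      rw [hQ']
      simp only [star_mul, star_star, mul_assoc]
    rw [e1]
    exact (bd c z Q' hzz2 hQ0').trans (hM _ (by linarith [norm_nonneg Q]))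
  · have e1 : z * W * star z * star (z * W * star z) = z * Q * star z := by
      rw [hQ]
      simp only [star_mul, star_star, mul_assoc]
    rw [e1]
    exact (bd c z Q hzz2 hQ0).trans (hM _ (by linarith [norm_nonneg Q']))

end TX8J

open TX8J in
theorem t_X8J (hR : StRIB.{u}) : StX8J.{u} := by
  intro A _ _ _ J hD N hN
  have i0 : Fin N := ⟨0, hN⟩
  refine ⟨id_MJ hD.id N, ?_, ?_, ?_, nil_MJ hR hD N⟩
  · intro M hM p q
    rw [CStarMatrix.star_apply]
    exact hD.st _ (hM q p)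
  · obtain ⟨c, hc, hc0, hcn⟩ := hD.nz
    refine ⟨en i0 i0 c, fun p q => ?_, en_nonneg i0 c hc0, fun h => hcn ?_⟩
    · rw [en_apply]
      split_ifs
      · exact hc
      · exact hD.id.1
    · rw [← en_zero (A := A) i0 i0] at h
      exact en_inj i0 i0 h
  · intro a ha b hb han hbn
    have h1 : ∃ p q, a p q ≠ 0 := by
      by_contra h
      push Not at h
      exact han (CStarMatrix.ext fun p q => h p q)
    have h2 : ∃ p q, b p q ≠ 0 := by
      by_contra h
      push Not at h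
      exact hbn (CStarMatrix.ext fun p q => h p q)
    obtain ⟨p, q, hpq⟩ := h1
    obtain ⟨r, t, hrt⟩ := h2
    obtain ⟨y, hy⟩ := hD.pr _ (ha p q) _ (hb r t) hpq hrt
    refine ⟨en q r y, fun h => hy ?_⟩
    have e1 : en p p 1 * (a * en q r y * b) * en t t 1 = en p t (a p q * y * b r t) := by
      have e2 : en q r y = en q q 1 * en q r y * en r r 1 := by
        rw [en_mul, en_mul, one_mul, mul_one]
      calc en p p 1 * (a * en q r y * b) * en t t 1
          = en p p 1 * (a * (en q q 1 * en q r y * en r r 1) * b) * en t t 1 := by rw [← e2]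
        _ = (en p p 1 * a * en q q 1) * en q r y * (en r r 1 * b * en t t 1) := by
            simp only [mul_assoc]
        _ = en p t (a p q * y * b r t) := by
            rw [en_sandwich, en_sandwich, en_mul, en_mul]
    rw [h, mul_zero, zero_mul, ← en_zero (A := A) p t] at e1
    exact (en_inj p t e1).symm

end Pool.Agent.H327R4.NJ
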