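import Pool.Agent.H327R4.NJ.Main0
import Pool.Agent.H327R4.NJ.TLOWJ
import Pool.Agent.H327R4.NJ.TNILJ
import Pool.Agent.H327R4.NJ.TSIJ
import Pool.Agent.H327R4.NJ.TX3J
import Pool.Agent.H327R4.NJ.TX6J
import Pool.Agent.H327R4.NJ.TX8J
import Pool.Agent.H327R4.NJ.TSIRJ
import Pool.Agent.H327R4.NJ.TM1J
import Pool.Agent.H327R4.NJ.TQCU

/-!
# Ideals with continuous scale: assembly, second part
-/

set_option autoImplicit false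

namespace Pool.Agent.H327R4.NJ

open Filter Topology Pool.Agent.H327R4.Pure
open Pool.Agent.H327R4.SI (RI Ex Dc CPto CPF StRIB)
open Pool.Agent.H327R4.NU (TrSet St re n2)

universe u

theorem a_M1J : StM1J.{u} := t_M1J (t_SMJ SI.t_RIB)

theorem a_X7J : StX7J.{u} :=
  t_X7J SI.t_RIB (t_X3J SI.t_RIB (SI.t_X1 SI.t_RIB) a_X2)
    (t_X5J SI.t_RIB (t_X4J SI.t_RIB a_X2 (t_ORTJ SI.t_RIB))) (t_X6J SI.t_RIB)

theorem a_GLJ : StGLJ.{u} := t_GLJ a_X7J (t_X8J SI.t_RIB)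

theorem a_SIRJ : StSIRJ.{u} := t_SIRJ SI.t_RIB (t_ROWSJ SI.t_RIB) t_LBJ

theorem a_SIJ : StSIJ.{u} := t_SIJ a_GLJ a_SIRJ t_QCU

theorem tw_ideal' (hDIVJ : StDIVJ.{u})
    (A : Type u) [CStarAlgebra A] [PartialOrder A]
    [StarOrderedRing A] (J : Set A) (hid : IsId J) (hsim : SimJ J) (hne : NEl J)
    (hT : ∃ T : Tr A, T.f 1 = 1 ∧ OnJ J T)
    (hcs : ∀ ε : ℝ, 0 < ε → ∃ u ∈ J, 0 ≤ u ∧ u ≤ 1 ∧ ∀ T : Tr A, T.f 1 = 1 → OnJ J T →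
      1 - ε ≤ (T.f u).re) (hsc : SCJ J) (hd : Pool.Agent.H735TW.Decomp A) : ZSJ A J :=
  tw_ideal a_SIJ hDIVJ t_NILJ A J hid hsim hne hT hcs hsc hd

end Pool.Agent.H327R4.NJ
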