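import Pool.Agent.H327R4.NU.UM.Stubs
import Pool.Agent.H327R4.SI.Stubs

/-!
# Ideals of unital C*-algebras (non-unital algebras): statements

`J` is a closed two-sided ideal of a unital C*-algebra `A`; the tracial states which are used
(`NU.St`, instance `NU.TrSet A`) are those of norm one on `J`.
-/

set_option autoImplicit false

namespace Pool.Agent.H327R4.NJ

open Filter Topology Pool.Agent.H327R4.Pure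
open Pool.Agent.H327R4.SI (RI Ex Dc CPto CPF StRIB)
open Pool.Agent.H327R4.NU (TrSet St re n2)

universe u

/-- closed two-sided ideal -/
def IsId {A : Type u} [CStarAlgebra A] (J : Set A) : Prop :=
  (0 : A) ∈ J ∧ (∀ x ∈ J, ∀ y ∈ J, x + y ∈ J) ∧ (∀ x ∈ J, ∀ a : A, a * x ∈ J ∧ x * a ∈ J) ∧
    IsClosed J

/-- `J` is a closed ideal which is prime and has nilpotents in all its hereditary subalgebras -/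
structure D0 (A : Type u) [CStarAlgebra A] [PartialOrder A] [StarOrderedRing A]
    (J : Set A) : Prop where
  id : IsId J
  st : ∀ x ∈ J, star x ∈ J
  nz : ∃ c ∈ J, 0 ≤ c ∧ c ≠ 0
  pr : ∀ a ∈ J, ∀ b ∈ J, a ≠ 0 → b ≠ 0 → ∃ y : A, a * y * b ≠ 0
  nil : ∀ c ∈ J, 0 ≤ c → c ≠ 0 → ∃ (x : A) (M : ℝ), 0 < M ∧ x ≠ 0 ∧ x * x = 0 ∧
    star x * x ≤ M • c ∧ x * star x ≤ M • c

/-- the data: `J` simple, continuous scale, strict comparison -/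
structure Dt (A : Type u) [CStarAlgebra A] [PartialOrder A] [StarOrderedRing A] [TrSet A]
    (J : Set A) : Prop where
  d0 : D0 A J
  /-- there are tracial states -/
  ne : ∃ T : Tr A, St T
  /-- uniformly in the tracial states, `J` has an almost unit -/
  cs : ∀ ε : ℝ, 0 < ε → ∃ u ∈ J, 0 ≤ u ∧ u ≤ 1 ∧ ∀ T : Tr A, St T → 1 - ε ≤ re T u
  /-- all positive nonzero elements are full -/
  full : ∀ c ∈ J, 0 ≤ c → c ≠ 0 → ∀ u ∈ J, 0 ≤ u → ∀ δ : ℝ, 0 < δ →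
    ∃ (n : ℕ) (y : Fin n → A), ‖u - ∑ i, star (y i) * c * y i‖ ≤ δ
  /-- strict comparison -/
  sc : ∀ (n : ℕ) (a b : MM n A), (∀ p q, a p q ∈ J) → (∀ p q, b p q ∈ J) → 0 ≤ a → 0 ≤ b →
    b ≠ 0 → (∀ T : Tr A, St T → ∃ d d' : ℝ, IsRank (trM T (Fin n)) a d ∧
      IsRank (trM T (Fin n)) b d' ∧ d < d') → Cz a b

/-- positive functionals / states of norm one on `J` -/
def IsStJ {B : Type u} [CStarAlgebra B] [PartialOrder B] (J : Set B) (Ψ : B →ₗ[ℂ] ℂ) : Prop :=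
  SI.IsSt Ψ ∧ ∀ ε : ℝ, 0 < ε → ∃ u ∈ J, 0 ≤ u ∧ u ≤ 1 ∧ 1 - ε ≤ (Ψ u).re

/-- `ρ` is carried by `J` -/
def CarJ {A : Type u} [CStarAlgebra A] [PartialOrder A] {N : ℕ} (J : Set A)
    (ρ : A →ₗ[ℂ] Matrix (Fin N) (Fin N) ℂ) : Prop :=
  ∀ ε : ℝ, 0 < ε → ∃ u ∈ J, 0 ≤ u ∧ u ≤ 1 ∧ ∀ p q, ‖ρ (1 - u) p q‖ ≤ ε

/-- the tracial states -/
def TX (A : Type u) [CStarAlgebra A] [TrSet A] : Type u := {T : Tr A // St T}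

/-! ## first part: divisibility -/

def StSMJ : Prop := ∀ (A : Type u) [CStarAlgebra A] [PartialOrder A] [StarOrderedRing A]
  (J : Set A), D0 A J → ∀ N : ℕ, ∃ c ∈ J, 0 ≤ c ∧ c ≠ 0 ∧
    ∀ T : Tr A, (N : ℝ) * rk T c ≤ (T.f 1).re

def StLOWJ : Prop := ∀ (A : Type u) [CStarAlgebra A] [PartialOrder A] [StarOrderedRing A]
  [TrSet A] (J : Set A), Dt A J → ∀ c ∈ J, 0 ≤ c → c ≠ 0 →
    ∃ η : ℝ, 0 < η ∧ ∀ T : Tr A, St T → η ≤ re T c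

def StM1J : Prop := ∀ (A : Type u) [CStarAlgebra A] [PartialOrder A] [StarOrderedRing A]
  [TrSet A] (J : Set A), Dt A J → ∀ (h : A) (ε : ℝ), 0 ≤ h → 0 < ε →
    ∃ (K : ℕ) (a : Fin K → A), (∀ j, 0 ≤ a j ∧ a j ∈ J) ∧ ∀ T : Tr A, St T →
      re T h - ε ≤ ∑ j, rk T (a j) ∧ ∑ j, rk T (a j) ≤ re T h + ε

def StDIVJ : Prop := ∀ (A : Type u) [CStarAlgebra A] [PartialOrder A] [StarOrderedRing A]
  [TrSet A] (J : Set A), Dt A J → NU.DIV A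

/-! ## second part -/

section props

variable (A : Type u) [CStarAlgebra A] [PartialOrder A] [StarOrderedRing A] [TrSet A]

/-- as `SI.MCN`, for the tracial states of norm one on `J` -/
def MCX : Prop := ∀ (m : ℕ) (a : Fin m → A) (K : ℕ) (ε : ℝ), 0 < ε →
  ∃ c₁ c₂ e : A, 0 ≤ c₁ ∧ c₁ ≤ 1 ∧ ‖c₂‖ ≤ 1 ∧ 0 ≤ e ∧ e ≤ 1 ∧ ‖c₁ * star c₂‖ ≤ ε ∧
    ‖c₂ * star c₂ - c₁ * c₁‖ ≤ ε ∧ ‖c₁ * c₁ + star c₂ * c₂ + e - 1‖ ≤ ε ∧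
    (∀ j, ‖c₁ * a j - a j * c₁‖ ≤ ε ∧ ‖c₂ * a j - a j * c₂‖ ≤ ε ∧ ‖e * a j - a j * e‖ ≤ ε) ∧
    ∀ T : TX A, (T.1.f e).re ≤ ε ∧ 1 / 4 ≤ (T.1.f (c₁ ^ K)).re

/-- property (SI) -/
def SIJ (J : Set A) : Prop := ∀ (m : ℕ) (a : Fin m → A) (ε : ℝ), (∀ j, a j ∈ J) → 0 < ε →
  ∃ (k : ℕ) (y : Fin k → A) (K : ℕ) (δ : ℝ), 0 < δ ∧
    ∀ e f : A, 0 ≤ e → e ≤ 1 → 0 ≤ f → f ≤ 1 →
      (∀ j, ‖e * y j - y j * e‖ ≤ δ ∧ ‖f * y j - y j * f‖ ≤ δ) →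
      (∀ T : TX A, (T.1.f e).re ≤ δ ∧ 1 / 4 ≤ (T.1.f (f ^ K)).re) →
      ∃ s : A, ‖s‖ ≤ 2 ∧ ‖f * s - s‖ ≤ ε ∧
        ∀ j, ‖s * a j - a j * s‖ ≤ ε ∧ ‖(star s * s - e) * a j‖ ≤ ε

omit [TrSet A] in
/-- approximately central elements satisfying the Rørdam-Winter relations of the dimension drop
algebra `Z_{2,3}` modulo the annihilator of `J` -/
def ZSJ (J : Set A) : Prop := ∀ (m : ℕ) (a : Fin m → A) (ε : ℝ), (∀ j, a j ∈ J) → 0 < ε →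
  ∃ c₁ c₂ s : A, 0 ≤ c₁ ∧ c₁ ≤ 1 ∧ ‖c₂‖ ≤ 1 ∧ ‖s‖ ≤ 2 ∧ ‖c₁ * star c₂‖ ≤ ε ∧
    ‖c₂ * star c₂ - c₁ * c₁‖ ≤ ε ∧ ‖c₁ * s - s‖ ≤ ε ∧
    ∀ j, ‖(c₁ * c₁ + star c₂ * c₂ + star s * s - 1) * a j‖ ≤ ε ∧
      ‖c₁ * a j - a j * c₁‖ ≤ ε ∧ ‖c₂ * a j - a j * c₂‖ ≤ ε ∧ ‖s * a j - a j * s‖ ≤ ε

end props

def StLIFTX : Prop := ∀ (A : Type u) [CStarAlgebra A] [PartialOrder A] [StarOrderedRing A]
  [TrSet A], NU.UM.UM A → MCX A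

def StORTJ : Prop := ∀ (B : Type u) [CStarAlgebra B] [PartialOrder B] [StarOrderedRing B]
  (J : Set B), D0 B J → ∀ b ∈ J, ∀ R : ℕ, 0 ≤ b → b ≠ 0 →
    ∃ c : Fin R → B, (∀ i, 0 ≤ c i ∧ ‖c i‖ = 1 ∧ c i ∈ RI b) ∧ ∀ i j, i ≠ j → c i * c j = 0

def StX3J : Prop := ∀ (B : Type u) [CStarAlgebra B] [PartialOrder B] [StarOrderedRing B]
  (J : Set B), D0 B J → ∀ (Ψ : B →ₗ[ℂ] ℂ) (k : ℕ) (y : Fin k → B) (ε : ℝ), IsStJ J Ψ → 0 < ε →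
    ∃ (n : ℕ) (w : Fin n → ℝ) (ω : Fin n → Fin k → ℂ), (∀ m, 0 ≤ w m) ∧ ∑ m, w m = 1 ∧
      (∀ (m : Fin n) (ε' : ℝ), 0 < ε' → ∃ a ∈ J, 0 ≤ a ∧ a ≠ 0 ∧ ∀ i, Ex ε' a (y i) (ω m i)) ∧
      ∀ i, ‖∑ m, (w m : ℂ) * ω m i - Ψ (y i)‖ ≤ ε

def StX4J : Prop := ∀ (B : Type u) [CStarAlgebra B] [PartialOrder B] [StarOrderedRing B]
  (J : Set B), D0 B J → ∀ a ∈ J, ∀ b ∈ J, ∀ (k : ℕ) (y : Fin k → B) (ε : ℝ),
    0 ≤ a → a ≠ 0 → 0 ≤ b → b ≠ 0 → 0 < ε →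
    ∃ a' b' : B, 0 ≤ a' ∧ a' ≠ 0 ∧ a' ∈ RI a ∧ 0 ≤ b' ∧ b' ≠ 0 ∧ b' ∈ RI b ∧
      ∀ i, Dc ε a' b' (y i)

def StX5J : Prop := ∀ (B : Type u) [CStarAlgebra B] [PartialOrder B] [StarOrderedRing B]
  (J : Set B), D0 B J → ∀ (n k : ℕ) (a : Fin n → B) (y : Fin k → B) (ε : ℝ),
    (∀ m, a m ∈ J ∧ 0 ≤ a m ∧ a m ≠ 0) → 0 < ε →
    ∃ a' : Fin n → B, (∀ m, 0 ≤ a' m ∧ a' m ≠ 0 ∧ a' m ∈ RI (a m)) ∧
      ∀ m m', m ≠ m' → ∀ i, Dc ε (a' m) (a' m') (y i)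

def StX6J : Prop := ∀ (B : Type u) [CStarAlgebra B] [PartialOrder B] [StarOrderedRing B]
  (J : Set B), D0 B J → ∀ (n : ℕ) (a : Fin n → B), (∀ m, a m ∈ J ∧ 0 ≤ a m ∧ a m ≠ 0) →
    ∃ (g : B) (x : Fin n → B), g ∈ J ∧ 0 ≤ g ∧ ‖g‖ = 1 ∧
      ∀ m, x m ∈ RI (a m) ∧ star (x m) * x m = g

def StX7J : Prop := ∀ (B : Type u) [CStarAlgebra B] [PartialOrder B] [StarOrderedRing B]
  (J : Set B), D0 B J → ∀ (Ψ : B →ₗ[ℂ] ℂ) (k : ℕ) (y : Fin k → B) (ε : ℝ), IsStJ J Ψ → 0 < ε →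
    ∃ H ∈ J, ∃ g ∈ J, 0 ≤ g ∧ ‖g‖ = 1 ∧ ∀ i, ‖star H * y i * H - Ψ (y i) • g‖ ≤ ε

/-- matrices with entries in `J` -/
def MJ {A : Type u} (N : ℕ) (J : Set A) : Set (MM N A) := {M | ∀ p q, M p q ∈ J}

def StX8J : Prop := ∀ (A : Type u) [CStarAlgebra A] [PartialOrder A] [StarOrderedRing A]
  (J : Set A), D0 A J → ∀ N : ℕ, 1 ≤ N → D0 (MM N A) (MJ N J)

def StGLJ : Prop := ∀ (A : Type u) [CStarAlgebra A] [PartialOrder A] [StarOrderedRing A]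
  (J : Set A), D0 A J →
    ∀ (N : ℕ) (ρ : A →ₗ[ℂ] Matrix (Fin N) (Fin N) ℂ) (k : ℕ) (y : Fin k → A) (ε : ℝ),
    CPto ρ → CarJ J ρ → 0 < ε → ∃ (D : Fin N → A) (g : A), (∀ p, D p ∈ J) ∧ g ∈ J ∧ 0 ≤ g ∧
      ‖g‖ = 1 ∧ ∀ i p q, ‖star (D p) * y i * D q - ρ (y i) p q • g‖ ≤ ε

def StROWSJ : Prop := ∀ (A : Type u) [CStarAlgebra A] [PartialOrder A] [StarOrderedRing A]
  [TrSet A] (J : Set A), Dt A J → ∀ (L : ℕ), ∀ e ∈ J, ∀ b ∈ J, ∀ ε : ℝ, 0 ≤ e → 0 ≤ b → b ≠ 0 →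
    0 < ε → (∀ T : TX A, (L : ℝ) * rk T.1 e < rk T.1 b) →
    ∃ w : Fin L → A, (∀ l l', star (w l) * w l' = if l = l' then cut ε e else 0) ∧
      ∀ l, w l ∈ RI b

def StLBJ : Prop := ∀ (A : Type u) [CStarAlgebra A] [PartialOrder A] [StarOrderedRing A]
  [TrSet A] (J : Set A), Dt A J → ∀ h ∈ J, 0 ≤ h → h ≠ 0 →
    ∃ (k : ℕ) (y : Fin k → A) (η : ℝ), 0 < η ∧
    ∀ K : ℕ, ∃ δ : ℝ, 0 < δ ∧ ∀ f : A, 0 ≤ f → f ≤ 1 → (∀ j, ‖f * y j - y j * f‖ ≤ δ) →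
      ∀ T : TX A, 1 / 4 ≤ (T.1.f (f ^ (2 * K))).re → η ≤ (T.1.f (h * f ^ (2 * K) * h)).re

def StSIRJ : Prop := ∀ (A : Type u) [CStarAlgebra A] [PartialOrder A] [StarOrderedRing A]
  [TrSet A] (J : Set A), Dt A J → ∀ g ∈ J, ∀ (L : ℕ) (ε : ℝ), 0 ≤ g → ‖g‖ = 1 → 0 < ε →
    ∃ (k : ℕ) (y : Fin k → A) (K : ℕ) (δ : ℝ), 0 < δ ∧
    ∀ e f : A, e ∈ J → 0 ≤ e → e ≤ 1 → 0 ≤ f → f ≤ 1 →
      (∀ j, ‖f * y j - y j * f‖ ≤ δ) →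
      (∀ T : TX A, (T.1.f e).re ≤ δ ∧ 1 / 4 ≤ (T.1.f (f ^ K)).re) →
      ∃ r : Fin L → A, (∀ l, ‖r l‖ ≤ 2) ∧ (∀ l, ‖f * r l - r l‖ ≤ ε) ∧
        ∀ l l', star (r l) * g * r l' = if l = l' then cut ε e else 0

/-- (SI) from nuclearity (Kraus form, for `A`), the approximate unit of `J` being quasicentral -/
def StSIJ : Prop := ∀ (A : Type u) [CStarAlgebra A] [PartialOrder A] [StarOrderedRing A]
  [TrSet A] (J : Set A), Dt A J → CPF A → SIJ A J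

def StFINJ : Prop := ∀ (A : Type u) [CStarAlgebra A] [PartialOrder A] [StarOrderedRing A]
  [TrSet A] (J : Set A), IsId J → (∃ T : Tr A, St T) → SIJ A J → MCX A → ZSJ A J

/-- quasicentral approximate unit -/
def StQCU : Prop := ∀ (A : Type u) [CStarAlgebra A] [PartialOrder A] [StarOrderedRing A]
  (J : Set A), IsId J → ∀ (m k : ℕ) (a : Fin m → A) (y : Fin k → A) (ε : ℝ), (∀ j, a j ∈ J) →
    0 < ε → ∃ u ∈ J, 0 ≤ u ∧ u ≤ 1 ∧ (∀ j, ‖u * a j - a j‖ ≤ ε ∧ ‖a j * u - a j‖ ≤ ε) ∧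
      ∀ i, ‖u * y i - y i * u‖ ≤ ε

/-! ## third part: the data from the standard hypotheses -/

/-- simple: no closed two-sided ideals between `0` and `J` -/
def SimJ {A : Type u} [CStarAlgebra A] (J : Set A) : Prop :=
  (∃ c ∈ J, c ≠ 0) ∧ ∀ I : Set A, IsId I → I ⊆ J → I = {0} ∨ I = J

/-- no minimal projections: `J` is not elementary -/
def NEl {A : Type u} [CStarAlgebra A] (J : Set A) : Prop :=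
  ¬ ∃ p ∈ J, p ≠ 0 ∧ star p = p ∧ p * p = p ∧ ∀ a : A, ∃ c : ℂ, p * a * p = c • p

/-- ideals are self-adjoint -/
def StIST : Prop := ∀ (A : Type u) [CStarAlgebra A] (J : Set A), IsId J → ∀ x ∈ J, star x ∈ J

def StFULLJ : Prop := ∀ (A : Type u) [CStarAlgebra A] [PartialOrder A] [StarOrderedRing A]
  (J : Set A), IsId J → SimJ J → ∀ c ∈ J, 0 ≤ c → c ≠ 0 → ∀ u ∈ J, 0 ≤ u → ∀ δ : ℝ, 0 < δ →
    ∃ (n : ℕ) (y : Fin n → A), ‖u - ∑ i, star (y i) * c * y i‖ ≤ δ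

def StPRJ : Prop := ∀ (A : Type u) [CStarAlgebra A] [PartialOrder A] [StarOrderedRing A]
  (J : Set A), IsId J → SimJ J → ∀ a ∈ J, ∀ b ∈ J, a ≠ 0 → b ≠ 0 → ∃ y : A, a * y * b ≠ 0

def StNILJ : Prop := ∀ (A : Type u) [CStarAlgebra A] [PartialOrder A] [StarOrderedRing A]
  (J : Set A), IsId J → NEl J →
  (∀ a ∈ J, ∀ b ∈ J, a ≠ 0 → b ≠ 0 → ∃ y : A, a * y * b ≠ 0) →
  ∀ c ∈ J, 0 ≤ c → c ≠ 0 → ∃ (x : A) (M : ℝ), 0 < M ∧ x ≠ 0 ∧ x * x = 0 ∧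
    star x * x ≤ M • c ∧ x * star x ≤ M • c

/-- assembly -/
theorem main_of (h1 : StSIJ.{u}) (h2 : StFINJ.{u}) (h3 : StLIFTX.{u}) (h4 : StDIVJ.{u})
    (hUM : ∀ (A : Type u) [CStarAlgebra A] [PartialOrder A] [StarOrderedRing A] [TrSet A],
      NU.DIV A → NU.Decomp A → NU.UM.UM A)
    (A : Type u) [CStarAlgebra A] [PartialOrder A] [StarOrderedRing A] [TrSet A]
    (J : Set A) (hD : Dt A J) (hF : CPF A) (hd : NU.Decomp A) : ZSJ A J :=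
  h2 A J hD.d0.id hD.ne (h1 A J hD hF) (h3 A (hUM A (h4 A J hD) hd))

end Pool.Agent.H327R4.NJ
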