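import Pool.Agent.H327R4.NJ.Stubs
import Pool.Agent.H327R4.SI.TROWS

/-!
# Task ROWSJ: rows in a right ideal from strict comparison, elements of an ideal `J`
-/

set_option autoImplicit false

namespace Pool.Agent.H327R4.NJ

open Filter Topology Pool.Agent.H327R4.Pure
open Pool.Agent.H327R4.SI (RI StRIB rows_cut_dg rows_rk_zero)
open Pool.Agent.H327R4.NU (TrSet St)

universe u

theorem t_ROWSJ2 (hRIB : StRIB.{u}) : StROWSJ.{u} := by
  intro A _ _ _ _ J hD L e heJ b hbJ ε he hb hb0 hε hT
  obtain ⟨-, hRmul, -, -, -, hRcfc, -, -, -⟩ := hRIB A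
  have h0J : (0 : A) ∈ J := hD.d0.id.1
  let va : Fin (L + 1) → A := Fin.snoc (fun _ => e) 0
  let vb : Fin (L + 1) → A := Fin.snoc (fun _ => 0) b
  have hva : ∀ j, 0 ≤ va j := by
    intro j
    refine Fin.lastCases ?_ ?_ j
    · simp [va]
    · intro i; simpa [va] using he
  have hvb : ∀ j, 0 ≤ vb j := by
    intro j
    refine Fin.lastCases ?_ ?_ j
    · simpa [vb] using hb
    · intro i; simp [vb]
  have hvaJ : ∀ j, va j ∈ J := by
    intro j
    refine Fin.lastCases ?_ ?_ j
    · simpa [va] using h0J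
    · intro i; simpa [va] using heJ
  have hvbJ : ∀ j, vb j ∈ J := by
    intro j
    refine Fin.lastCases ?_ ?_ j
    · simpa [vb] using hbJ
    · intro i; simpa [vb] using h0J
  obtain ⟨hpa, hrka⟩ := diag' A (L + 1) va hva
  obtain ⟨hpb, hrkb⟩ := diag' A (L + 1) vb hvb
  have hrka' : ∀ T : Tr A, rk (trM T (Fin (L + 1))) (dg va) = L * rk T e := by
    intro T
    rw [hrka, Fin.sum_univ_castSucc]
    simp [va, rows_rk_zero]
  have hrkb' : ∀ T : Tr A, rk (trM T (Fin (L + 1))) (dg vb) = rk T b := by
    intro T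
    rw [hrkb, Fin.sum_univ_castSucc]
    simp [vb, rows_rk_zero]
  have hvb0 : dg vb ≠ 0 := by
    intro h
    have h1 : dg vb (Fin.last L) (Fin.last L) = 0 := by rw [h]; rfl
    rw [dg_apply, if_pos rfl] at h1
    apply hb0
    simpa [vb] using h1
  have hCz : Cz (dg va) (dg vb) := by
    refine hD.sc (L + 1) (dg va) (dg vb) ?_ ?_ hpa hpb hvb0 ?_
    · intro p q
      rw [dg_apply]
      split_ifs
      · exact hvaJ _
      · exact h0J
    · intro p q
      rw [dg_apply]
      split_ifs
      · exact hvbJ _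
      · exact h0J
    intro T hT1
    refine ⟨rk (trM T (Fin (L + 1))) (dg va), rk (trM T (Fin (L + 1))) (dg vb),
      (rk' (MM (L + 1) A) (trM T (Fin (L + 1))) (dg va) hpa).2.2.1,
      (rk' (MM (L + 1) A) (trM T (Fin (L + 1))) (dg vb) hpb).2.2.1, ?_⟩
    rw [hrka', hrkb']
    exact hT ⟨T, hT1⟩
  obtain ⟨δ, X, hδ, hX⟩ := exa' (MM (L + 1) A) (dg va) (dg vb) ε hpa hpb hCz hε
  rw [rows_cut_dg va hva ε hε.le, rows_cut_dg vb hvb δ hδ.le] at hX
  -- the square root of `cut δ b`
  let f : ℝ → ℝ := fun x => Real.sqrt (max (x - δ) 0)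
  have hf : Continuous f := by fun_prop
  have hf0 : f 0 = 0 := by simp [f, hδ.le]
  have hq : cfcₙ f b * cfcₙ f b = cut δ b := by
    rw [← cfcₙ_mul f f b hf.continuousOn hf0 hf.continuousOn hf0]
    unfold cut
    congr 1
    funext x
    exact Real.mul_self_sqrt (le_max_right _ _)
  have hqs : star (cfcₙ f b) = cfcₙ f b := (cfcₙ_predicate f b).star_eq
  have hqR : cfcₙ f b ∈ RI b := hRcfc b f hb hf hf0
  refine ⟨fun l => cfcₙ f b * star (X l.castSucc (Fin.last L)), ?_, ?_⟩
  · intro l l'
    have h1 := congrFun (congrFun hX l.castSucc) l'.castSucc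
    rw [dg_apply] at h1
    have h2 : (X * dg (fun j => cut δ (vb j)) * star X) l.castSucc l'.castSucc
        = X l.castSucc (Fin.last L) * cut δ b * star (X l'.castSucc (Fin.last L)) := by
      rw [CStarMatrix.mul_apply, Fin.sum_univ_castSucc]
      have h3 : ∀ j : Fin (L + 1), (X * dg (fun j => cut δ (vb j))) l.castSucc j
          = X l.castSucc j * cut δ (vb j) := by
        intro j
        rw [CStarMatrix.mul_apply, Finset.sum_eq_single j]
        · rw [dg_apply, if_pos rfl]
        · intro k _ hk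
          rw [dg_apply, if_neg hk, mul_zero]
        · simp
      have hc0 : cut δ (0 : A) = 0 := by
        unfold cut
        exact cfcₙ_apply_zero
      simp only [h3, CStarMatrix.star_apply]
      simp [vb, hc0]
    rw [h2] at h1
    rw [star_mul, star_star, hqs]
    calc X l.castSucc (Fin.last L) * cfcₙ f b * (cfcₙ f b * star (X l'.castSucc (Fin.last L)))
        = X l.castSucc (Fin.last L) * (cfcₙ f b * cfcₙ f b)
            * star (X l'.castSucc (Fin.last L)) := by noncomm_ring
      _ = X l.castSucc (Fin.last L) * cut δ b * star (X l'.castSucc (Fin.last L)) := by rw [hq]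
      _ = if l = l' then cut ε e else 0 := by
          rw [← h1]
          by_cases hl : l = l'
          · subst hl; simp [va]
          · have : l.castSucc ≠ l'.castSucc := fun h => hl (Fin.castSucc_injective _ h)
            simp [hl]
  · intro l
    exact hRmul b _ _ hqR

end Pool.Agent.H327R4.NJ
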