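import Pool.Agent.H327R4.NJ.Stubs
import Pool.Agent.H327R4.SI.TX3

/-!
# X3J: every state is approximated by convex combinations of values excised in an ideal
(second version, helper376)
-/

set_option autoImplicit false

namespace Pool.Agent.H327R4.NJ

open Filter Topology Pool.Agent.H327R4.Pure
open Pool.Agent.H327R4.SI (RI Ex)
open Pool.Agent.H327R4.SI.X3aux

universe u

namespace X3Jaux

/-- the set of values jointly excised in `J` -/
def V {B : Type u} [CStarAlgebra B] [PartialOrder B] {k : ℕ} (J : Set B) (y : Fin k → B) :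
    Set (Fin k → ℂ) :=
  {v | ∀ ε' : ℝ, 0 < ε' → ∃ a ∈ J, 0 ≤ a ∧ a ≠ 0 ∧ ∀ i, Ex ε' a (y i) (v i)}

section pos

set_option linter.unusedSectionVars false

variable {B : Type u} [CStarAlgebra B] [PartialOrder B] [StarOrderedRing B]

lemma conj_pos {w x : B} (hw : IsSelfAdjoint w) (hx : 0 ≤ x) : 0 ≤ w * x * w := by
  have h := star_left_conjugate_nonneg hx w
  rwa [hw.star_eq] at h

lemma sq_le {x : B} (h0 : 0 ≤ x) (h1 : x ≤ 1) : 0 ≤ x - x * x := by
  have hsx : IsSelfAdjoint x := IsSelfAdjoint.of_nonneg h0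
  have hs1 : IsSelfAdjoint (1 - x) := (IsSelfAdjoint.one B).sub hsx
  have e : x - x * x = x * (1 - x) * x + (1 - x) * x * (1 - x) := by noncomm_ring
  rw [e]
  exact add_nonneg (conj_pos hsx (sub_nonneg.mpr h1)) (conj_pos hs1 h0)

lemma st_add_re {Ψ : B →ₗ[ℂ] ℂ} (x y : B) : (Ψ (x + y)).re = (Ψ x).re + (Ψ y).re := by
  rw [map_add, Complex.add_re]

lemma st_sub_re {Ψ : B →ₗ[ℂ] ℂ} (x y : B) : (Ψ (x - y)).re = (Ψ x).re - (Ψ y).re := by
  rw [map_sub, Complex.sub_re]

lemma st_smul_re {Ψ : B →ₗ[ℂ] ℂ} (r : ℝ) (x : B) : (Ψ (r • x)).re = r * (Ψ x).re := by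
  have : r • x = (r : ℂ) • x := by rw [Complex.coe_smul]
  rw [this, map_smul]
  simp

lemma id1 (u c : B) (C : ℝ) : u * (c + C • (1 : B)) * u = u * c * u + C • (u * u) := by
  rw [mul_add, add_mul, mul_smul_comm, mul_one, smul_mul_assoc]

lemma id2 (w c : B) (C : ℝ) : w * (C • (1 : B) - c) * w =
    (2 * C) • (w * w) - w * (c + C • (1 : B)) * w := by
  rw [mul_sub, sub_mul, mul_add, add_mul, mul_smul_comm, mul_one, smul_mul_assoc, two_mul,
    add_smul]
  abel

lemma id3 (u v Z : B) (t : ℝ) : (t • u - v) * Z * (t • u - v) =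
    (t * t) • (u * Z * u) - t • (u * Z * v) - t • (v * Z * u) + v * Z * v := by
  simp only [sub_mul, mul_sub, smul_mul_assoc, mul_smul_comm, smul_smul, smul_sub]
  abel

end pos

theorem mem_closure_hull (hRIB : SI.StRIB.{u}) (hX2 : SI.StX2.{u}) (B : Type u) [CStarAlgebra B]
    [PartialOrder B] [StarOrderedRing B] (J : Set B) (hJ : IsId J) (Ψ : B →ₗ[ℂ] ℂ) (k : ℕ)
    (y : Fin k → B) (hΨJ : IsStJ J Ψ) :
    (fun i => Ψ (y i)) ∈ closure (convexHull ℝ (V J y)) := by
  by_contra hcon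
  have hΨ := hΨJ.1
  obtain ⟨f, u0, hfu, huf⟩ := geometric_hahn_banach_closed_point
    ((convex_convexHull ℝ (V J y)).closure) isClosed_closure hcon
  obtain ⟨γ, hγ⟩ := functional f
  set Y : B := ∑ i, γ i • y i with hY
  set yc : B := (1 / 2 : ℂ) • (Y + star Y) with hyc
  have hsa : IsSelfAdjoint yc := by
    rw [IsSelfAdjoint, hyc, star_smul, star_add, star_star, add_comm]
    congr 1
    simp
  have hΨyc : (Ψ yc).re = f (fun i => Ψ (y i)) := by
    rw [hγ, hyc, map_smul, map_add, st_star hΨ, Complex.add_conj, hY, map_sum]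
    simp
  set s : ℝ := (Ψ yc).re with hs
  have hsu : u0 < s := by rw [hΨyc]; exact huf
  set d : ℝ := s - u0 with hd
  have hd0 : 0 < d := by rw [hd]; linarith
  set C : ℝ := ‖yc‖ with hC
  have hC0 : 0 ≤ C := norm_nonneg _
  set t : ℝ := d / (2 * (|u0 + C| + 1)) with ht
  have ht0 : 0 < t := by positivity
  set ε₁ : ℝ := min (1 / 4) (d / (4 * (1 + 1 / t) * (C + 1))) with hε₁
  have hε₁0 : 0 < ε₁ := lt_min (by norm_num) (by positivity)
  obtain ⟨u, huJ, hu0, hu1, huε⟩ := hΨJ.2 ε₁ hε₁0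
  have hε₁4 : ε₁ ≤ 1 / 4 := min_le_left _ _
  have hsu' : IsSelfAdjoint u := IsSelfAdjoint.of_nonneg hu0
  have hs1u : IsSelfAdjoint (1 - u) := (IsSelfAdjoint.one B).sub hsu'
  have hune : u ≠ 0 := by
    rintro rfl
    rw [map_zero, Complex.zero_re] at huε
    linarith
  have hΨ1 : (Ψ 1).re = 1 := by rw [hΨ.1]; rfl
  -- `Ψ(u²)`
  have hu2le : (Ψ (u * u)).re ≤ 1 := by
    have h1 := st_nonneg hΨ (sq_le hu0 hu1)
    have h2 := st_nonneg hΨ (sub_nonneg.mpr hu1)
    rw [st_sub_re] at h1 h2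
    rw [hΨ1] at h2
    linarith
  have hu2ge : 1 / 2 ≤ (Ψ (u * u)).re := by
    have h1 : 0 ≤ (1 - u) * 1 * (1 - u) := conj_pos hs1u zero_le_one
    have h2 := st_nonneg hΨ h1
    have h3 : (1 - u) * 1 * (1 - u) = 1 - u - (u - u * u) := by noncomm_ring
    rw [h3, st_sub_re, st_sub_re, st_sub_re, hΨ1] at h2
    linarith
  have hx2 : ∀ n : ℕ, ∃ (a : B) (l : ℝ) (μ : Fin k → ℂ), a ∈ J ∧ 0 ≤ a ∧ a ≠ 0 ∧
      Ex (1 / ((n : ℝ) + 1)) a yc l ∧ (∀ i, Ex (1 / ((n : ℝ) + 1)) a (y i) (μ i)) ∧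
      (Ψ (u * yc * u)).re ≤ l * (Ψ (u * u)).re := by
    intro n
    obtain ⟨a, l, μ, h0, h1, h2, h3, h4, h5⟩ := hX2 B u yc k y (1 / ((n : ℝ) + 1)) hu0
      hune hsa (by positivity)
    have haJ : a ∈ J := by
      have hsub : RI u ⊆ J := by
        refine closure_minimal ?_ hJ.2.2.2
        rintro _ ⟨t, rfl⟩
        exact (hJ.2.2.1 u huJ t).2
      exact hsub h2
    refine ⟨a, l, μ, haJ, h0, h1, h3, h4, ?_⟩
    have h6 := h5 u ((hRIB B).1 u)
    rw [hsu'.star_eq] at h6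
    have h7 : 0 ≤ l • (u * u) - u * yc * u := sub_nonneg.mpr h6
    have h8 := st_nonneg hΨ h7
    rw [st_sub_re, st_smul_re] at h8
    linarith
  choose a l μ haJ ha0 ha1 hExc hEx hl using hx2
  set C' : ℝ := ∑ i, ‖γ i‖ with hC'
  have hCnn : 0 ≤ C' := Finset.sum_nonneg fun i _ => norm_nonneg _
  have hlf : ∀ n, |l n - f (μ n)| ≤ (1 + C') * (1 / ((n : ℝ) + 1)) := by
    intro n
    have h1 := Ex_re (Ex_sum γ (hEx n))
    have h2 := Ex_uniq hRIB (ha1 n) (hExc n) h1
    rw [← Complex.ofReal_sub, Complex.norm_real, Real.norm_eq_abs, ← hγ] at h2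
    refine h2.trans (le_of_eq ?_)
    ring
  have hbd : ∀ n i, ‖μ n i‖ ≤ ‖y i‖ + 1 := by
    intro n i
    refine (Ex_bound hRIB (ha1 n) (hEx n i)).trans ?_
    have : 1 / ((n : ℝ) + 1) ≤ 1 := by
      rw [div_le_one (by positivity)]
      have : (0 : ℝ) ≤ n := Nat.cast_nonneg n
      linarith
    linarith
  set R : ℝ := ∑ i, (‖y i‖ + 1) with hR
  have hRnn : 0 ≤ R := Finset.sum_nonneg fun i _ => by positivity
  have hball : ∀ n, μ n ∈ Metric.closedBall (0 : Fin k → ℂ) R := by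
    intro n
    rw [mem_closedBall_zero_iff, pi_norm_le_iff_of_nonneg hRnn]
    intro i
    refine (hbd n i).trans ?_
    exact Finset.single_le_sum (f := fun i => ‖y i‖ + 1) (fun i _ => by positivity)
      (Finset.mem_univ i)
  obtain ⟨v, -, φ, hφ, hlim⟩ := (isCompact_closedBall (0 : Fin k → ℂ) R).tendsto_subseq hball
  have hvV : v ∈ V J y := by
    intro ε' hε'
    have h1 : ∀ᶠ n in atTop, ‖μ (φ n) - v‖ < ε' / 2 := by
      have := (Metric.tendsto_nhds.mp hlim) (ε' / 2) (by positivity)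
      simpa [dist_eq_norm] using this
    have h2 : ∀ᶠ n in atTop, 1 / ((φ n : ℝ) + 1) < ε' / 2 := by
      have h3 : Tendsto (fun n : ℕ => 1 / ((n : ℝ) + 1)) atTop (𝓝 0) :=
        tendsto_one_div_add_atTop_nhds_zero_nat
      exact (h3.comp hφ.tendsto_atTop).eventually_lt_const (by positivity)
    obtain ⟨n, hn1, hn2⟩ := (h1.and h2).exists
    refine ⟨a (φ n), haJ _, ha0 _, ha1 _, fun i => ?_⟩
    have h4 : ‖μ (φ n) i - v i‖ ≤ ε' / 2 :=
      (norm_le_pi_norm (μ (φ n) - v) i).trans hn1.le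
    exact Ex_mono (Ex_near (hEx (φ n) i) h4) (by linarith)
  have hfv : (Ψ (u * yc * u)).re ≤ f v * (Ψ (u * u)).re := by
    have h1 : Tendsto (fun n => (f (μ (φ n)) + (1 + C') * (1 / ((φ n : ℝ) + 1))) *
        (Ψ (u * u)).re) atTop (𝓝 ((f v + (1 + C') * 0) * (Ψ (u * u)).re)) := by
      refine Tendsto.mul_const _ (Tendsto.add ((f.continuous.tendsto v).comp hlim)
        (Tendsto.const_mul _ ?_))
      exact tendsto_one_div_add_atTop_nhds_zero_nat.comp hφ.tendsto_atTop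
    have h2 : (Ψ (u * yc * u)).re ≤ (f v + (1 + C') * 0) * (Ψ (u * u)).re := by
      refine ge_of_tendsto h1 (Eventually.of_forall fun n => ?_)
      have h3 := abs_le.mp (hlf (φ n))
      have h4 := hl (φ n)
      refine h4.trans (mul_le_mul_of_nonneg_right ?_ (by linarith))
      linarith [h3.2]
    simpa using h2
  have h1 := hfu v (subset_closure (subset_convexHull ℝ _ hvV))
  -- comparison with `Y = yc + C`
  have hup : 0 ≤ algebraMap ℝ B C - yc := sub_nonneg.mpr hsa.le_algebraMap_norm_self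
  have hlo : 0 ≤ yc + algebraMap ℝ B C := by
    have h2 := hsa.neg_algebraMap_norm_le_self
    have h3 := sub_nonneg.mpr h2
    rwa [sub_neg_eq_add] at h3
  have halg : algebraMap ℝ B C = C • (1 : B) := Algebra.algebraMap_eq_smul_one C
  rw [halg] at hup hlo
  set Z : B := yc + C • (1 : B) with hZ
  have hΨZ : (Ψ Z).re = s + C := by
    rw [hZ, st_add_re, st_smul_re, hΨ1, mul_one]
  have hΨuZu : (Ψ (u * Z * u)).re = (Ψ (u * yc * u)).re + C * (Ψ (u * u)).re := by
    have : u * Z * u = u * yc * u + C • (u * u) := id1 u yc C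
    rw [this, st_add_re, st_smul_re]
  have hpos1 : 0 ≤ (Ψ (u * Z * u)).re := st_nonneg hΨ (conj_pos hsu' hlo)
  have hub : (Ψ (u * Z * u)).re ≤ u0 + C := by
    have h2 : (Ψ (u * Z * u)).re ≤ (f v + C) * (Ψ (u * u)).re := by
      rw [hΨuZu]; linarith
    have h3 : 0 ≤ f v + C := by
      by_contra h4
      push Not at h4
      have h5 : (f v + C) * (Ψ (u * u)).re < 0 := mul_neg_of_neg_of_pos h4 (by linarith)
      linarith
    have h4 : (f v + C) * (Ψ (u * u)).re ≤ (f v + C) * 1 := mul_le_mul_of_nonneg_left hu2le h3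
    linarith
  have hq : (Ψ ((1 - u) * Z * (1 - u))).re ≤ 2 * C * ε₁ := by
    have h2 : 0 ≤ (1 - u) * (C • (1 : B) - yc) * (1 - u) := conj_pos hs1u hup
    have h3 := st_nonneg hΨ h2
    have h4 : (1 - u) * (C • (1 : B) - yc) * (1 - u) =
        (2 * C) • ((1 - u) * (1 - u)) - (1 - u) * Z * (1 - u) := id2 (1 - u) yc C
    rw [h4, st_sub_re, st_smul_re] at h3
    have h5 : 0 ≤ (1 - u) - (1 - u) * (1 - u) :=
      sq_le (sub_nonneg.mpr hu1) (by rw [sub_le_self_iff]; exact hu0)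
    have h6 := st_nonneg hΨ h5
    rw [st_sub_re, st_sub_re, hΨ1] at h6
    have h7 : (Ψ ((1 - u) * (1 - u))).re ≤ ε₁ := by linarith
    have h8 := mul_le_mul_of_nonneg_left h7 (show 0 ≤ 2 * C by positivity)
    linarith
  have hkey : (Ψ Z).re ≤ (1 + t) * (Ψ (u * Z * u)).re +
      (1 + 1 / t) * (Ψ ((1 - u) * Z * (1 - u))).re := by
    set w : B := t • u - (1 - u) with hw
    have hws : IsSelfAdjoint w := by
      rw [hw]
      exact (IsSelfAdjoint.smul (IsSelfAdjoint.all t) hsu').sub hs1u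
    have h2 : 0 ≤ w * Z * w := conj_pos hws hlo
    have h3 := st_nonneg hΨ h2
    have e1 : Z = u * Z * u + u * Z * (1 - u) + (1 - u) * Z * u + (1 - u) * Z * (1 - u) := by
      noncomm_ring
    have e2 : w * Z * w = (t * t) • (u * Z * u) - t • (u * Z * (1 - u)) -
        t • ((1 - u) * Z * u) + (1 - u) * Z * (1 - u) := id3 u (1 - u) Z t
    rw [e2, st_add_re, st_sub_re, st_sub_re, st_smul_re, st_smul_re, st_smul_re] at h3
    have h4 : (Ψ Z).re = (Ψ (u * Z * u)).re + (Ψ (u * Z * (1 - u))).re +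
        (Ψ ((1 - u) * Z * u)).re + (Ψ ((1 - u) * Z * (1 - u))).re := by
      conv_lhs => rw [e1]
      rw [st_add_re, st_add_re, st_add_re]
    rw [h4]
    set A1 := (Ψ (u * Z * u)).re
    set A2 := (Ψ (u * Z * (1 - u))).re
    set A3 := (Ψ ((1 - u) * Z * u)).re
    set A4 := (Ψ ((1 - u) * Z * (1 - u))).re
    have h5 : t * (A2 + A3) ≤ t * (t * A1 + 1 / t * A4) := by
      have h6 : t * (t * A1 + 1 / t * A4) = t * t * A1 + A4 := by
        field_simp
      rw [h6]
      linarith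
    have h7 := le_of_mul_le_mul_left h5 ht0
    linarith
  rw [hΨZ] at hkey
  have hb1 : t * (u0 + C) ≤ d / 2 := by
    have h2 : t * (u0 + C) ≤ t * (|u0 + C| + 1) :=
      mul_le_mul_of_nonneg_left (by linarith [le_abs_self (u0 + C)]) ht0.le
    have h3 : t * (|u0 + C| + 1) = d / 2 := by
      rw [ht]
      have : |u0 + C| + 1 ≠ 0 := by positivity
      field_simp
    linarith
  have hb2 : (1 + 1 / t) * (2 * C * ε₁) < d / 2 := by
    have h2 : ε₁ ≤ d / (4 * (1 + 1 / t) * (C + 1)) := min_le_right _ _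
    have h3 : 0 < 1 + 1 / t := by positivity
    have h4 : (1 + 1 / t) * (2 * C * ε₁) ≤ (1 + 1 / t) * (2 * C * (d / (4 * (1 + 1 / t) * (C + 1)))) := by
      gcongr
    have h5 : (1 + 1 / t) * (2 * C * (d / (4 * (1 + 1 / t) * (C + 1)))) = d / 2 * (C / (C + 1)) := by
      have h6 : C + 1 ≠ 0 := by positivity
      field_simp
      ring
    have h7 : C / (C + 1) < 1 := by
      rw [div_lt_one (by positivity)]; linarith
    have h8 : d / 2 * (C / (C + 1)) < d / 2 * 1 := mul_lt_mul_of_pos_left h7 (by positivity)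
    linarith
  have hb3 : (1 + t) * (Ψ (u * Z * u)).re ≤ (1 + t) * (u0 + C) :=
    mul_le_mul_of_nonneg_left hub (by positivity)
  have hb4 : (1 + 1 / t) * (Ψ ((1 - u) * Z * (1 - u))).re ≤ (1 + 1 / t) * (2 * C * ε₁) :=
    mul_le_mul_of_nonneg_left hq (by positivity)
  have : s + C < s + C := by
    calc s + C ≤ (1 + t) * (u0 + C) + (1 + 1 / t) * (2 * C * ε₁) := by linarith
      _ = (u0 + C) + t * (u0 + C) + (1 + 1 / t) * (2 * C * ε₁) := by ring
      _ < (u0 + C) + d / 2 + d / 2 := by linarith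
      _ = s + C := by rw [hd]; ring
  exact lt_irrefl _ this

end X3Jaux

set_option linter.unusedVariables false in
theorem t_X3J (hRIB : SI.StRIB.{u}) (hX1 : SI.StX1.{u}) (hX2 : SI.StX2.{u}) : StX3J.{u} := by
  intro B _ _ _ J hJ Ψ k y ε hΨ hε
  have hmem := X3Jaux.mem_closure_hull hRIB hX2 B J hJ.id Ψ k y hΨ
  obtain ⟨p, hp, hdist⟩ := Metric.mem_closure_iff.mp hmem ε hε
  rw [mem_convexHull_iff_exists_fintype] at hp
  obtain ⟨ι, hι, w, z, hw0, hw1, hz, hsum⟩ := hp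
  let e := Fintype.equivFin ι
  refine ⟨Fintype.card ι, fun m => w (e.symm m), fun m => z (e.symm m), fun m => hw0 _, ?_,
    fun m ε' hε' => hz (e.symm m) ε' hε', fun i => ?_⟩
  · rw [Equiv.sum_comp e.symm w]
    exact hw1
  · have h1 : ∑ m, (((w (e.symm m) : ℝ)) : ℂ) * z (e.symm m) i = p i := by
      rw [Equiv.sum_comp e.symm (fun j => ((w j : ℝ) : ℂ) * z j i), ← hsum, Finset.sum_apply]
      refine Finset.sum_congr rfl fun j _ => ?_
      simp
    rw [h1]
    have h2 : ‖(fun i => Ψ (y i)) - p‖ < ε := by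
      rw [← dist_eq_norm]; exact hdist
    have h3 := norm_le_pi_norm ((fun i => Ψ (y i)) - p) i
    rw [Pi.sub_apply, norm_sub_rev] at h3
    linarith

end Pool.Agent.H327R4.NJ
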