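import Pool.Agent.H327R4.NJ.Stubs
import Pool.Agent.H327R4.NU.All0
import Pool.Agent.H327R4.NU.TONE
import Pool.Agent.H327R4.NU.TW2B
import Pool.Agent.H327R4.NU.UM.TCOMZ
import Pool.Agent.H327R4.NU.UM.TGLUEA
import Pool.Agent.H327R4.NU.UM.TGLUEB
import Pool.Agent.H327R4.NU.UM.THALV
import Pool.Agent.H327R4.NU.UM.TLOC
import Pool.Agent.H327R4.NU.UM.TNILG
import Pool.Agent.H327R4.NU.UM.TNRM
import Pool.Agent.H327R4.NU.UM.TUMB
import Pool.Agent.H327R4.NU.UM.TWT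

/-!
# Divisibility and decomposable approximations give uniformly McDuff (any set of tracial states)
-/

set_option autoImplicit false

namespace Pool.Agent.H327R4.NU

open Filter Topology Pool.Agent.H327R4.Pure

universe u

theorem umn : Pool.Agent.H327R4.NU.UM.StUM.{u} := by
  have hTB := Pool.Agent.H327R4.NU.t_TB.{u}
  exact Pool.Agent.H327R4.NU.UM.um_of (Pool.Agent.H327R4.NU.UM.t_NILG hTB)
    (Pool.Agent.H327R4.NU.UM.t_COMZ hTB) (Pool.Agent.H327R4.NU.UM.t_HALV hTB)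
    (Pool.Agent.H327R4.NU.UM.t_LOC hTB Pool.Agent.H327R4.NU.t_VAR Pool.Agent.H327R4.NU.t_VAR1)
    (Pool.Agent.H327R4.NU.UM.t_UMB hTB (Pool.Agent.H327R4.NU.UM.t_GLUEA hTB
      Pool.Agent.H327R4.NU.UM.t_NRM)
      (Pool.Agent.H327R4.NU.UM.t_GLUEB hTB Pool.Agent.H327R4.NU.UM.t_NRM)
      Pool.Agent.H327R4.NU.UM.t_WT)

theorem um_of_div (A : Type u) [CStarAlgebra A] [PartialOrder A] [StarOrderedRing A] [TrSet A]
    (hD : DIV A) (hd : Decomp A) : UM.UM A := by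
  have hG : UGamma A := t_W2B t_TB A (a_W2A A (a_TRUNC A
    (a_CEN (t_ONE t_TB) A (a_COM A (foi_of_div A hD)) hd)))
  exact umn A hD (cell_of_div A hD) hG hd

end Pool.Agent.H327R4.NU
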